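import Mathlib

/-!
# QP-FEKETE: the limsup and the upper bound from lossy supermultiplicativity

Paper proof.  `f m ≥ a^(m-1) > 0` for `m ≥ 2`, so the limsup `Λ` of `f m ^ (1/m)` (bounded by `16`) satisfies `a ≤ Λ ≤ 16`.
Doubling: `M_0 = m`, `M_{k+1} = 2 M_k - 1 = 2^{k+1} (m-1) + 1`; with `h_k = f (M_k) / (64 * 4^k * m^2)` one has
`h_{k+1} ≥ h_k^2`, so `f (M_k) ≥ h_0 ^ (2^k)`.  For `L > Λ` eventually `f n ≤ L ^ n`; hence `h_0 ≤ L ^ (m - 1)`.
Last claim: `Λ` is a limsup of a bounded sequence, so `f m ^ (1/m) ≥ Λ exp (-δ)` frequently.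
-/

set_option autoImplicit false

namespace Pool.Agent.Helper2.QP

open Filter Topology

/-- The doubling argument. -/
private theorem fekete_double (f : ℕ → ℝ) (h2 : ∀ m, 0 ≤ f m)
    (h4 : ∀ m n : ℕ, 2 ≤ m → 2 ≤ n → f m * f n ≤ 16 * m * n * f (m + n - 1))
    (m : ℕ) (hm : 2 ≤ m) (k : ℕ) :
    (f m / (64 * (m : ℝ) ^ 2)) ^ (2 ^ k) ≤ f (2 ^ k * (m - 1) + 1) / (64 * 4 ^ k * (m : ℝ) ^ 2) := by
  induction k with
  | zero =>
    have : 2 ^ 0 * (m - 1) + 1 = m := by omega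
    rw [this]; simp
  | succ k ih =>
    have hm0 : (0 : ℝ) < m := by exact_mod_cast (by omega : 0 < m)
    set M : ℕ := 2 ^ k * (m - 1) + 1 with hM
    have hM2 : 2 ≤ M := by
      have : 1 ≤ 2 ^ k := Nat.one_le_two_pow
      have : 1 * 1 ≤ 2 ^ k * (m - 1) := Nat.mul_le_mul this (by omega)
      omega
    have hMM : M + M - 1 = 2 ^ (k + 1) * (m - 1) + 1 := by
      rw [hM, pow_succ]; ring_nf; omega
    have hMle : (M : ℝ) ≤ 2 ^ k * m := by
      have h : M ≤ 2 ^ k * m := by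
        obtain ⟨t, rfl⟩ : ∃ t, m = t + 1 := ⟨m - 1, by omega⟩
        have : 1 ≤ 2 ^ k := Nat.one_le_two_pow
        rw [hM, Nat.add_sub_cancel, Nat.mul_add]
        omega
      exact_mod_cast h
    have hM0 : (0 : ℝ) < M := by exact_mod_cast (by omega : 0 < M)
    have h := h4 M M hM2 hM2
    rw [hMM] at h
    have hf := h2 (2 ^ (k + 1) * (m - 1) + 1)
    have hlhs : 0 ≤ (f m / (64 * (m : ℝ) ^ 2)) ^ (2 ^ k) := pow_nonneg (div_nonneg (h2 m) (by positivity)) _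
    have hsq : (f m / (64 * (m : ℝ) ^ 2)) ^ (2 ^ (k + 1)) ≤ (f M / (64 * 4 ^ k * (m : ℝ) ^ 2)) ^ 2 := by
      rw [pow_succ 2 k, pow_mul]
      exact pow_le_pow_left₀ hlhs ih 2
    refine hsq.trans ?_
    rw [div_pow, div_le_div_iff₀ (by positivity) (by positivity)]
    have h' : f M * f M ≤ 16 * (4 ^ k * (m : ℝ) ^ 2) * f (2 ^ (k + 1) * (m - 1) + 1) := by
      refine h.trans ?_
      refine mul_le_mul_of_nonneg_right ?_ hf
      have : (M : ℝ) * M ≤ (2 ^ k * m) * (2 ^ k * m) := mul_le_mul hMle hMle hM0.le (by positivity)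
      have e : ((2 : ℝ) ^ k * m) * (2 ^ k * m) = 4 ^ k * (m : ℝ) ^ 2 := by
        have : (4 : ℝ) ^ k = 2 ^ k * 2 ^ k := by rw [← mul_pow]; norm_num
        rw [this]; ring
      nlinarith
    have e4 : (4 : ℝ) ^ (k + 1) = 4 * 4 ^ k := by rw [pow_succ]; ring
    rw [e4]
    have hp : (0 : ℝ) < 4 ^ k * (m : ℝ) ^ 2 := by positivity
    have := mul_le_mul_of_nonneg_right h' (by positivity : (0 : ℝ) ≤ 64 * (4 * 4 ^ k) * (m : ℝ) ^ 2)
    nlinarith

theorem fekete (a : ℝ) (ha : 0 < a) (ha1 : a < 1) (f : ℕ → ℝ)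
    (h1 : ∀ m, 2 ≤ m → a ^ (m - 1) ≤ f m) (h2 : ∀ m, 0 ≤ f m) (h3 : ∀ m, f m ≤ 16 ^ m)
    (h4 : ∀ m n : ℕ, 2 ≤ m → 2 ≤ n → f m * f n ≤ 16 * m * n * f (m + n - 1)) :
    a ≤ limsup (fun m : ℕ => (f m) ^ ((1 : ℝ) / m)) atTop ∧
    limsup (fun m : ℕ => (f m) ^ ((1 : ℝ) / m)) atTop ≤ 16 ∧
    (∀ m : ℕ, 2 ≤ m →
      f m ≤ 64 * (m : ℝ) ^ 2 * (limsup (fun m : ℕ => (f m) ^ ((1 : ℝ) / m)) atTop) ^ (m - 1)) ∧
    (∀ δ : ℝ, 0 < δ → ∃ᶠ m : ℕ in atTop,
      (m : ℝ) * Real.log (limsup (fun m : ℕ => (f m) ^ ((1 : ℝ) / m)) atTop) - δ * m ≤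
        Real.log (f m)) := by
  set g : ℕ → ℝ := fun m : ℕ => (f m) ^ ((1 : ℝ) / m) with hg
  set Λ := limsup g atTop with hΛ
  have hg0 : ∀ m, 0 ≤ g m := fun m => Real.rpow_nonneg (h2 m) _
  have hgm : ∀ m : ℕ, 1 ≤ m → (g m) ^ m = f m := by
    intro m hm
    have hm0 : (m : ℝ) ≠ 0 := by exact_mod_cast (by omega : m ≠ 0)
    simp only [hg]
    rw [← Real.rpow_natCast, ← Real.rpow_mul (h2 m), one_div_mul_cancel hm0, Real.rpow_one]
  have hg16 : ∀ m, g m ≤ 16 := by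
    intro m
    rcases Nat.eq_zero_or_pos m with rfl | hm
    · simp [hg]
    · have h := h3 m
      rw [← hgm m hm] at h
      exact le_of_pow_le_pow_left₀ (by omega) (by norm_num) h
  have hbd : IsBoundedUnder (· ≤ ·) atTop g := isBoundedUnder_of ⟨16, hg16⟩
  have hbd' : IsBoundedUnder (· ≥ ·) atTop g := isBoundedUnder_of ⟨0, hg0⟩
  have hcb : IsCoboundedUnder (· ≤ ·) atTop g := hbd'.isCoboundedUnder_le
  have hga : ∀ m, 2 ≤ m → a ≤ g m := by
    intro m hm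
    by_contra hcon
    push Not at hcon
    have : (g m) ^ m < a ^ m := pow_lt_pow_left₀ hcon (hg0 m) (by omega)
    rw [hgm m (by omega)] at this
    have h5 : a ^ m ≤ a ^ (m - 1) := pow_le_pow_of_le_one ha.le ha1.le (by omega)
    linarith [h1 m hm]
  have hΛa : a ≤ Λ := by
    refine le_limsup_of_frequently_le ?_ hbd
    refine Eventually.frequently ?_
    filter_upwards [eventually_ge_atTop 2] with m hm using hga m hm
  have hΛ16 : Λ ≤ 16 := limsup_le_of_le hcb (Eventually.of_forall hg16)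
  have hΛ0 : 0 < Λ := lt_of_lt_of_le ha hΛa
  refine ⟨hΛa, hΛ16, ?_, ?_⟩
  · intro m hm
    have hm0 : (0 : ℝ) < m := by exact_mod_cast (by omega : 0 < m)
    set h0 : ℝ := f m / (64 * (m : ℝ) ^ 2) with hh0
    have hh0n : 0 ≤ h0 := div_nonneg (h2 m) (by positivity)
    have key : ∀ L : ℝ, Λ < L → h0 ≤ L ^ (m - 1) := by
      intro L hL
      have hL0 : 0 < L := hΛ0.trans hL
      have hev : ∀ᶠ n in atTop, g n < L := eventually_lt_of_limsup_lt hL hbd
      have htend : Tendsto (fun k : ℕ => 2 ^ k * (m - 1) + 1) atTop atTop := by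
        refine tendsto_atTop_mono (fun k => ?_) tendsto_id
        have h6 : k < 2 ^ k := Nat.lt_two_pow_self
        have h7 : 2 ^ k * 1 ≤ 2 ^ k * (m - 1) := Nat.mul_le_mul_left _ (by omega)
        simp only [id]; omega
      have hev' := htend.eventually hev
      by_contra hcon
      push Not at hcon
      have hr : 1 < h0 / L ^ (m - 1) := by rwa [one_lt_div (by positivity)]
      have hinf : Tendsto (fun k : ℕ => (h0 / L ^ (m - 1)) ^ (2 ^ k)) atTop atTop :=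
        (tendsto_pow_atTop_atTop_of_one_lt hr).comp (tendsto_pow_atTop_atTop_of_one_lt (by norm_num))
      have hev2 : ∀ᶠ k : ℕ in atTop, L + 1 ≤ (h0 / L ^ (m - 1)) ^ (2 ^ k) := hinf.eventually_ge_atTop _
      obtain ⟨k, hk1, hk2⟩ := (hev'.and hev2).exists
      have hd := fekete_double f h2 h4 m hm k
      have hfM : f (2 ^ k * (m - 1) + 1) ≤ L ^ (2 ^ k * (m - 1) + 1) := by
        rw [← hgm (2 ^ k * (m - 1) + 1) (by omega)]
        exact pow_le_pow_left₀ (hg0 _) hk1.le _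
      have hle : h0 ^ (2 ^ k) ≤ L ^ (2 ^ k * (m - 1) + 1) := by
        refine hd.trans (le_trans ?_ hfM)
        refine div_le_self (h2 _) ?_
        have h8 : (1 : ℝ) ≤ 4 ^ k := one_le_pow₀ (by norm_num)
        have h9 : (1 : ℝ) ≤ (m : ℝ) ^ 2 := one_le_pow₀ (by exact_mod_cast (by omega : 1 ≤ m))
        nlinarith
      rw [div_pow, ← pow_mul, le_div_iff₀ (by positivity)] at hk2
      have : L ^ (2 ^ k * (m - 1) + 1) = L ^ ((m - 1) * 2 ^ k) * L := by
        rw [pow_succ, Nat.mul_comm]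
      rw [this] at hle
      have hp : 0 < L ^ ((m - 1) * 2 ^ k) := by positivity
      nlinarith
    have hlim : Tendsto (fun L : ℝ => L ^ (m - 1)) (𝓝[>] Λ) (𝓝 (Λ ^ (m - 1))) :=
      ((continuous_pow (m - 1)).tendsto Λ).mono_left nhdsWithin_le_nhds
    have hfin : h0 ≤ Λ ^ (m - 1) := by
      refine ge_of_tendsto hlim ?_
      filter_upwards [self_mem_nhdsWithin] with L hL using key L hL
    rw [hh0, div_le_iff₀ (by positivity)] at hfin
    linarith
  · intro δ hδ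
    have hlt : Λ * Real.exp (-δ) < Λ := by
      have : Real.exp (-δ) < 1 := by rw [Real.exp_lt_one_iff]; linarith
      nlinarith
    have hfr : ∃ᶠ m in atTop, Λ * Real.exp (-δ) < g m := frequently_lt_of_lt_limsup hcb hlt
    refine (hfr.and_eventually (eventually_ge_atTop 1)).mono ?_
    rintro m ⟨hm1, hm2⟩
    rw [← hgm m hm2, Real.log_pow]
    have hpos : 0 < Λ * Real.exp (-δ) := by positivity
    have := Real.log_lt_log hpos hm1
    rw [Real.log_mul hΛ0.ne' (Real.exp_pos _).ne', Real.log_exp] at this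
    have hm0 : (0 : ℝ) < m := by exact_mod_cast hm2
    nlinarith

end Pool.Agent.Helper2.QP
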