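import Pool.Agent.Helper2.QP.AnaRec
import Pool.Agent.Helper2.QP.Fekete

/-!
# QP-ANAMAIN: the analysis, assembled

Paper proof.  `λ = log Λ`, `z m = log (f m)`, `b m := m λ - z m + log (64 / a) + 2 log m`.  By `fekete` (with `a` in place of `q`; `q^(m-1) ≥ a^(m-1)`)
`b m ≥ 0` for `m ≥ 2` (`f m ≤ 64 m² Λ^(m-1)`, `Λ ≥ a`); `b m ≤ C m`; subadditivity from `h4`; `b m ≤ δ m` frequently; the recursion:
`z m ≤ 5 log (26 m) + 4 J² log q + z m₁ + z m₂` gives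
`b m₁ + b m₂ ≤ b m + C log m - 4 J² |log b₀| + 12 J |λ| + C ≤ b m + C' log m - 2 J² |log b₀|` (`q ≤ b₀ < 1`), and as `b m₁ + b m₂ ≥ 0`,
`2 J² |log b₀| ≤ b m + C' log m ≤ C'' m`, so `m₁ + m₂ ≤ m + 12 J + 6 ≤ m + C sqrt m`.  Then `ana_rec` with `m₀ = 10`.
-/

set_option autoImplicit false

namespace Pool.Agent.Helper2.QP

open Filter Topology

theorem ana_main (a b₀ : ℝ) (ha : 0 < a) (hab : a ≤ b₀) (hb : b₀ < 1) : ∃ K : ℝ, 1 ≤ K ∧
    ∀ q : ℝ, a ≤ q → q ≤ b₀ → ∀ f : ℕ → ℝ,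
    (∀ m, 2 ≤ m → q ^ (m - 1) ≤ f m) → (∀ m, 0 ≤ f m) → (∀ m, f m ≤ 16 ^ m) →
    (∀ m n : ℕ, 2 ≤ m → 2 ≤ n → f m * f n ≤ 16 * m * n * f (m + n - 1)) →
    (∀ m : ℕ, 10 ≤ m → ∃ m₁ m₂ J : ℕ, m ≤ 4 * m₁ ∧ m ≤ 4 * m₂ ∧ m ≤ m₁ + m₂ ∧
      m₁ + m₂ ≤ m + 12 * J + 6 ∧
      f m ≤ (26 * (m : ℝ)) ^ 5 * (q ^ (4 * J ^ 2) * f m₁ * f m₂)) →
    ∀ Λ : ℝ, Λ = limsup (fun m : ℕ => (f m) ^ ((1 : ℝ) / m)) atTop →
      0 < Λ ∧
      (∀ m : ℕ, 2 ≤ m → Real.exp (-K * (Real.log m) ^ 2) * Λ ^ m ≤ f m ∧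
        f m ≤ K * (m : ℝ) ^ 2 * Λ ^ m) ∧
      (∀ n : ℕ, 2 ≤ n → ∃ j : ℕ, 2 ≤ j ∧ n ≤ 16 * j ∧ j ≤ n ∧
        Real.exp (-K * Real.log j) * Λ ^ j ≤ f j) := by
  have ha1 : a < 1 := lt_of_le_of_lt hab hb
  have hb0 : 0 < b₀ := ha.trans_le hab
  obtain ⟨L, hL⟩ : ∃ L, L = Real.log 16 := ⟨_, rfl⟩
  obtain ⟨A, hA⟩ : ∃ A, A = -Real.log a := ⟨_, rfl⟩
  obtain ⟨β, hβ⟩ : ∃ β, β = -Real.log b₀ := ⟨_, rfl⟩
  have hL0 : 0 < L := hL ▸ Real.log_pos (by norm_num)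
  have hA0 : 0 < A := by
    have := Real.log_neg ha ha1
    linarith
  have hβ0 : 0 < β := by
    have := Real.log_neg hb0 hb
    linarith
  have h64 : 0 < Real.log 64 := Real.log_pos (by norm_num)
  have h26 : 0 < Real.log 26 := Real.log_pos (by norm_num)
  have h1664 : L ≤ Real.log 64 := hL ▸ Real.log_le_log (by norm_num) (by norm_num)
  obtain ⟨c₀, hc₀⟩ : ∃ c₀, c₀ = Real.log 64 + A := ⟨_, rfl⟩
  have hc₀0 : 0 < c₀ := by linarith
  obtain ⟨C₃, hC₃⟩ : ∃ C₃, C₃ = L + A + c₀ + 2 := ⟨_, rfl⟩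
  obtain ⟨x, hx⟩ : ∃ x, x = 12 * (L + 4) := ⟨_, rfl⟩
  obtain ⟨C₁, hC₁⟩ : ∃ C₁, C₁ = x ^ 2 / (8 * β) := ⟨_, rfl⟩
  have hC₁0 : 0 ≤ C₁ := by rw [hC₁]; positivity
  have hC₁' : 8 * β * C₁ = x ^ 2 := by rw [hC₁]; field_simp
  obtain ⟨C₂, hC₂⟩ : ∃ C₂, C₂ = c₀ + 5 * Real.log 26 + 6 * (L + 4) + C₁ := ⟨_, rfl⟩
  have hC₂0 : 0 ≤ C₂ := by linarith
  obtain ⟨C₄, hC₄⟩ : ∃ C₄, C₄ = (C₃ + 7 + C₂) / (2 * β) := ⟨_, rfl⟩
  have hC₃0 : 0 ≤ C₃ := by linarith
  have hC₄0 : 0 ≤ C₄ := by rw [hC₄]; positivity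
  have hC₄' : 2 * β * C₄ = C₃ + 7 + C₂ := by rw [hC₄]; field_simp
  obtain ⟨C, hC⟩ : ∃ C, C = C₃ + 7 + C₂ + 12 * Real.sqrt C₄ + 6 := ⟨_, rfl⟩
  have hsC₄ : 0 ≤ Real.sqrt C₄ := Real.sqrt_nonneg _
  obtain ⟨K₀, hK₀, hrec⟩ := ana_rec C (by linarith) 10
  have h64a : 0 < 64 / a := by positivity
  refine ⟨K₀ + 64 / a, by linarith, fun q hq1 hq2 f h1 h2 h3 h4 h5 Λ hΛ => ?_⟩
  have hq0 : 0 < q := ha.trans_le hq1
  obtain ⟨k1, k2, k3, k4⟩ := fekete a ha ha1 f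
    (fun m hm => (pow_le_pow_left₀ ha.le hq1 _).trans (h1 m hm)) h2 h3 h4
  rw [← hΛ] at k1 k2 k3 k4
  have hΛ0 : 0 < Λ := ha.trans_le k1
  obtain ⟨lam, hlam⟩ : ∃ lam, lam = Real.log Λ := ⟨_, rfl⟩
  rw [← hlam] at k4
  have hf : ∀ m, 2 ≤ m → 0 < f m := fun m hm => (pow_pos hq0 _).trans_le (h1 m hm)
  have hlam1 : -A ≤ lam := by
    have := Real.log_le_log ha k1
    rw [hA, hlam, neg_neg]
    exact this
  have hlam2 : lam ≤ L := by
    rw [hlam, hL]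
    exact Real.log_le_log hΛ0 k2
  have hcast1 : ∀ m : ℕ, 2 ≤ m → ((m - 1 : ℕ) : ℝ) = m - 1 := by
    intro m hm
    rw [Nat.cast_sub (by omega), Nat.cast_one]
  have hup : ∀ m : ℕ, 2 ≤ m →
      Real.log (f m) ≤ Real.log 64 + 2 * Real.log m + (m - 1) * lam := by
    intro m hm
    have hmpos : (0 : ℝ) < m := by
      have : 0 < m := by omega
      exact_mod_cast this
    have h6 := Real.log_le_log (hf m hm) (k3 m hm)
    rw [Real.log_mul (by positivity) (by positivity), Real.log_mul (by norm_num) (by positivity),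
      Real.log_pow, Real.log_pow, hcast1 m hm, ← hlam] at h6
    push_cast at h6
    exact h6
  have hlow : ∀ m : ℕ, 2 ≤ m → -(m * A) ≤ Real.log (f m) := by
    intro m hm
    have hm2 : (2 : ℝ) ≤ m := by exact_mod_cast hm
    have h6 := Real.log_le_log (pow_pos hq0 _) (h1 m hm)
    rw [Real.log_pow, hcast1 m hm] at h6
    have h7 := Real.log_le_log ha hq1
    have h8 : ((m : ℝ) - 1) * Real.log a ≤ (m - 1) * Real.log q :=
      mul_le_mul_of_nonneg_left h7 (by linarith)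
    have h9 : Real.log a = -A := by rw [hA, neg_neg]
    rw [h9] at h8
    linarith
  obtain ⟨b, hbd⟩ : ∃ b : ℕ → ℝ, ∀ m : ℕ,
      b m = m * lam - Real.log (f m) + c₀ + 2 * Real.log m := ⟨_, fun _ => rfl⟩
  have H0 : ∀ n, 2 ≤ n → 0 ≤ b n := by
    intro n hn
    have h6 := hup n hn
    rw [hbd]
    linarith
  have Hub : ∀ n, 2 ≤ n → b n ≤ C₃ * n := by
    intro n hn
    have hn2 : (2 : ℝ) ≤ n := by exact_mod_cast hn
    have h6 := hlow n hn
    have h7 : Real.log n ≤ n - 1 := Real.log_le_sub_one_of_pos (by linarith)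
    have h8 : (n : ℝ) * lam ≤ n * L := mul_le_mul_of_nonneg_left hlam2 (by linarith)
    have h9 : c₀ * 1 ≤ c₀ * n := mul_le_mul_of_nonneg_left (by linarith) hc₀0.le
    rw [hbd, hC₃]
    linarith
  have Hub' : ∀ n, 2 ≤ n → b n ≤ C * n := by
    intro n hn
    have h6 := Hub n hn
    have h7 : C₃ * (n : ℝ) ≤ C * n := mul_le_mul_of_nonneg_right (by linarith) (Nat.cast_nonneg _)
    linarith
  have Hsub : ∀ m n : ℕ, 2 ≤ m → 2 ≤ n →
      b (m + n - 1) ≤ b m + b n + C * Real.log (m + n) := by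
    intro m n hm hn
    have hm2 : (2 : ℝ) ≤ m := by exact_mod_cast hm
    have hn2 : (2 : ℝ) ≤ n := by exact_mod_cast hn
    have hfm := hf m hm
    have hfn := hf n hn
    have hfmn := hf (m + n - 1) (by omega)
    have h6 := Real.log_le_log (mul_pos hfm hfn) (h4 m n hm hn)
    rw [Real.log_mul hfm.ne' hfn.ne', Real.log_mul (by positivity) hfmn.ne',
      Real.log_mul (by positivity) (by positivity), Real.log_mul (by norm_num) (by positivity),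
      ← hL] at h6
    have hcast : ((m + n - 1 : ℕ) : ℝ) = m + n - 1 := by
      rw [Nat.cast_sub (by omega)]
      push_cast
      ring
    have h7 : Real.log ((m + n - 1 : ℕ) : ℝ) ≤ Real.log (m + n) := by
      rw [hcast]
      exact Real.log_le_log (by linarith) (by linarith)
    have h8 : 0 ≤ Real.log (m : ℝ) := Real.log_nonneg (by linarith)
    have h9 : 0 ≤ Real.log (n : ℝ) := Real.log_nonneg (by linarith)
    have h10 : 0 ≤ Real.log ((m : ℝ) + n) := Real.log_nonneg (by linarith)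
    have h11 : 2 * Real.log ((m : ℝ) + n) ≤ C * Real.log (m + n) :=
      mul_le_mul_of_nonneg_right (by linarith) h10
    rw [hbd, hbd, hbd]
    rw [hcast] at h7 ⊢
    linarith only [h6, h7, h8, h9, h11, hlam1, hc₀, h1664]
  have Hfreq : ∀ δ : ℝ, 0 < δ → ∃ᶠ n : ℕ in atTop, b n ≤ δ * n := by
    intro δ hδ
    have e1 : ∀ᶠ n : ℕ in atTop, ‖Real.log (n : ℝ)‖ ≤ δ / 8 * ‖(n : ℝ)‖ :=
      tendsto_natCast_atTop_atTop.eventually
        (Real.isLittleO_log_id_atTop.bound (show 0 < δ / 8 by positivity))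
    have e2 : ∀ᶠ n : ℕ in atTop, c₀ ≤ δ / 4 * (n : ℝ) :=
      (tendsto_natCast_atTop_atTop.const_mul_atTop (show 0 < δ / 4 by positivity)).eventually_ge_atTop
        c₀
    refine ((k4 (δ / 2) (half_pos hδ)).and_eventually (e1.and e2)).mono ?_
    rintro n ⟨h6, h7, h8⟩
    have hn0 : (0 : ℝ) ≤ n := Nat.cast_nonneg _
    rw [Real.norm_eq_abs, Real.norm_eq_abs, abs_of_nonneg hn0] at h7
    have h9 := le_abs_self (Real.log (n : ℝ))
    rw [hbd]
    linarith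
  have Hrec : ∀ m, 10 ≤ m → ∃ m₁ m₂ : ℕ, m ≤ 4 * m₁ ∧ m ≤ 4 * m₂ ∧ m ≤ m₁ + m₂ ∧
      (m₁ + m₂ : ℝ) ≤ m + C * Real.sqrt m ∧ b m₁ + b m₂ ≤ b m + C * Real.log m := by
    intro m hm
    obtain ⟨m₁, m₂, J, i1, i2, i3, i4, i5⟩ := h5 m hm
    have hm10 : (10 : ℝ) ≤ m := by exact_mod_cast hm
    have hf1 := hf m₁ (by omega)
    have hf2 := hf m₂ (by omega)
    have hfm := hf m (by omega)
    have hqJ : 0 < q ^ (4 * J ^ 2) := pow_pos hq0 _
    have h6 := Real.log_le_log hfm i5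
    rw [Real.log_mul (by positivity) (by positivity), Real.log_pow,
      Real.log_mul (by norm_num) (by positivity), Real.log_mul (by positivity) hf2.ne',
      Real.log_mul hqJ.ne' hf1.ne', Real.log_pow] at h6
    push_cast at h6
    have hJ0 : (0 : ℝ) ≤ J := Nat.cast_nonneg _
    have h7 : Real.log q ≤ -β := by
      rw [hβ, neg_neg]
      exact Real.log_le_log hq0 hq2
    have h8 : 4 * (J : ℝ) ^ 2 * Real.log q ≤ 4 * (J : ℝ) ^ 2 * (-β) :=
      mul_le_mul_of_nonneg_left h7 (by positivity)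
    have i3' : (m : ℝ) ≤ m₁ + m₂ := by exact_mod_cast i3
    have i4' : (m₁ : ℝ) + m₂ ≤ m + 12 * J + 6 := by exact_mod_cast i4
    have hm₁0 : (1 : ℝ) ≤ m₁ := by
      have : 1 ≤ m₁ := by omega
      exact_mod_cast this
    have hm₂0 : (1 : ℝ) ≤ m₂ := by
      have : 1 ≤ m₂ := by omega
      exact_mod_cast this
    have h9 : ((m₁ : ℝ) + m₂ - m) * lam ≤ (12 * J + 6) * L := by
      have h10 : ((m₁ : ℝ) + m₂ - m) * lam ≤ ((m₁ : ℝ) + m₂ - m) * L :=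
        mul_le_mul_of_nonneg_left hlam2 (by linarith)
      have h11 : ((m₁ : ℝ) + m₂ - m) * L ≤ (12 * J + 6) * L :=
        mul_le_mul_of_nonneg_right (by linarith) hL0.le
      linarith
    have hlogk : ∀ k : ℝ, 1 ≤ k → k ≤ m + 12 * J + 6 →
        Real.log k ≤ Real.log m + (12 * J + 6) := by
      intro k hk1 hk2
      have h10 : k ≤ m * (12 * J + 7) := by
        have h11 : 0 ≤ ((m : ℝ) - 1) * (12 * J + 6) := mul_nonneg (by linarith only [hm10])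
          (by linarith only [hJ0])
        linarith only [h11, hk2]
      have h11 := Real.log_le_log (by linarith only [hk1]) h10
      rw [Real.log_mul (by linarith only [hm10]) (by positivity)] at h11
      have h12 : Real.log (12 * (J : ℝ) + 7) ≤ 12 * J + 7 - 1 :=
        Real.log_le_sub_one_of_pos (by positivity)
      linarith only [h11, h12]
    have h10 := hlogk m₁ hm₁0 (by linarith only [i4', hm₂0])
    have h11 := hlogk m₂ hm₂0 (by linarith only [i4', hm₁0])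
    have hlm1 : 1 ≤ Real.log m := by
      rw [Real.le_log_iff_exp_le (by linarith)]
      have := Real.exp_one_lt_d9
      linarith
    have h12 : x * J - 2 * β * (J : ℝ) ^ 2 ≤ C₁ := by
      have h13 : 0 ≤ (x - 4 * β * J) ^ 2 := sq_nonneg _
      have h14 : 8 * β * (x * J - 2 * β * (J : ℝ) ^ 2) ≤ 8 * β * C₁ := by
        rw [hC₁']
        linarith only [h13, show (x - 4 * β * J) ^ 2 =
          x ^ 2 - 8 * β * (x * J - 2 * β * (J : ℝ) ^ 2) by ring]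
      exact le_of_mul_le_mul_left h14 (by positivity)
    have h13 : C₂ * 1 ≤ C₂ * Real.log m := mul_le_mul_of_nonneg_left hlm1 hC₂0
    have main : b m₁ + b m₂ ≤ b m + (7 + C₂) * Real.log m - 2 * β * (J : ℝ) ^ 2 := by
      rw [hbd, hbd, hbd]
      rw [hx] at h12
      linarith only [h6, h8, h9, h10, h11, h12, h13, hC₂, i3']
    refine ⟨m₁, m₂, i1, i2, i3, ?_, ?_⟩
    · have h14 := H0 m₁ (by omega)
      have h15 := H0 m₂ (by omega)
      have h16 := Hub m (by omega)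
      have h17 : Real.log m ≤ m - 1 := Real.log_le_sub_one_of_pos (by linarith)
      have h18 : (7 + C₂) * Real.log m ≤ (7 + C₂) * m :=
        mul_le_mul_of_nonneg_left (by linarith) (by linarith)
      have h19 : 2 * β * (J : ℝ) ^ 2 ≤ 2 * β * (C₄ * m) := by
        have h20 : 2 * β * (C₄ * m) = (C₃ + 7 + C₂) * m := by rw [← hC₄']; ring
        rw [h20]
        linarith only [main, h14, h15, h16, h18]
      have h20 : (J : ℝ) ^ 2 ≤ C₄ * m := le_of_mul_le_mul_left h19 (by positivity)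
      have h21 : (J : ℝ) ≤ Real.sqrt C₄ * Real.sqrt m := by
        rw [← Real.sqrt_mul hC₄0]
        exact Real.le_sqrt_of_sq_le h20
      have hs1 : 1 ≤ Real.sqrt m := Real.one_le_sqrt.2 (by linarith)
      have h22 : (C₃ + 7 + C₂ + 6) * 1 ≤ (C₃ + 7 + C₂ + 6) * Real.sqrt m :=
        mul_le_mul_of_nonneg_left hs1 (by linarith)
      rw [hC]
      linarith only [h21, h22, i4', hC₃0, hC₂0]
    · have h14 : (7 + C₂) * Real.log m ≤ C * Real.log m :=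
        mul_le_mul_of_nonneg_right (by linarith only [hC, hC₃0, hsC₄]) (by linarith only [hlm1])
      have h15 : 0 ≤ 2 * β * (J : ℝ) ^ 2 := by positivity
      linarith only [main, h14, h15]
  obtain ⟨r1, r2⟩ := hrec b H0 Hub' Hsub Hfreq Hrec
  have hexp : ∀ (m : ℕ) (y : ℝ), 2 ≤ m → 0 ≤ y → b m ≤ K₀ * y →
      Real.exp (-(K₀ + 64 / a) * y) * Λ ^ m ≤ f m := by
    intro m y hm hy hb'
    have hm2 : (2 : ℝ) ≤ m := by exact_mod_cast hm
    have hlm : 0 ≤ Real.log (m : ℝ) := Real.log_nonneg (by linarith)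
    rw [hbd] at hb'
    have h6 : Λ ^ m = Real.exp (m * lam) := by
      rw [hlam, mul_comm, Real.exp_mul, Real.exp_log hΛ0, Real.rpow_natCast]
    have h7 : f m = Real.exp (Real.log (f m)) := (Real.exp_log (hf m hm)).symm
    rw [h6, ← Real.exp_add, h7, Real.exp_le_exp]
    have h8 : 0 ≤ 64 / a * y := mul_nonneg h64a.le hy
    linarith
  refine ⟨hΛ0, fun m hm => ⟨?_, ?_⟩, fun n hn => ?_⟩
  · exact hexp m _ hm (sq_nonneg _) (r1 m hm)
  · refine (k3 m hm).trans ?_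
    have h6 : Λ ^ m = Λ ^ (m - 1) * Λ := by
      rw [← pow_succ]
      congr 1
      omega
    rw [h6]
    have h7 : 64 ≤ (K₀ + 64 / a) * Λ := by
      have h8 : 64 / a * a = 64 := div_mul_cancel₀ _ ha.ne'
      have h9 : 64 / a * a ≤ 64 / a * Λ := mul_le_mul_of_nonneg_left k1 h64a.le
      have h10 : 0 ≤ K₀ * Λ := mul_nonneg (by linarith) hΛ0.le
      linarith
    have h8 : 0 ≤ (m : ℝ) ^ 2 * Λ ^ (m - 1) := by positivity
    have h9 := mul_le_mul_of_nonneg_right h7 h8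
    linarith
  · obtain ⟨j, j1, j2, j3, j4⟩ := r2 n hn
    exact ⟨j, j1, j2, j3, hexp j _ j1 (Real.log_natCast_nonneg j) j4⟩

end Pool.Agent.Helper2.QP
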