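import Mathlib

/-!
# QP-ANAREC: the abstract recursion

Paper proof (template: `Pool/Agent/Helper94/HW/Rec.lean`, same structure with cost `sqrt m log m`; here the cost is only `log m`).
Put `s n = b n / n`, `g x = log x / x`.
1. For `m` large `m₁, m₂ ≤ m + C sqrt m - m/4 ≤ 31 m/32`, and one of them, `m'`, has `s m' ≤ (b m + C log m)/m = s m + C g m`
   (otherwise `b m₁ + b m₂ > (b m + C log m)(m₁ + m₂)/m ≥ b m + C log m`).
2. `g m' ≥ (1 + 1/100) g m` for large `m` and `m/4 ≤ m' ≤ 31 m/32`; with `D = 100 C`, `ψ n = s n - D g n` satisfies `ψ m' ≤ ψ m` for `m ≥ n₁(C, m₀)`.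
3. For `n ≥ n₁` and any `m ≥ n` there is `j ∈ [n/16, n]` with `ψ j ≤ ψ m` (descend; stop when `m' ≤ n`).  As `b m ≤ δ m` frequently, for every `n ≥ n₁` there is
   `j ∈ [n/16, n]` with `ψ j ≤ 0` (finitely many `j`, take the minimum of `ψ` and let `δ → 0`), i.e. `b j ≤ D log j`.
   For `2 ≤ n < n₁` take `j = n`: `b n ≤ C n₁ ≤ K log 2`.
4. `b n ≤ K (log n)²` by strong induction: `n < n₁`: `b n ≤ C n₁ ≤ K (log 2)²`.  `n ≥ n₁`: take `j` from 3; if `j = n` done; else
   `r = n + 1 - j ≥ 2`, `n = j + r - 1`, `r ≤ 31 n/32`, `b n ≤ b j + b r + C log (n + 1) ≤ D log n + K (log n - c)² + 2 C log n` with `c = log (32/31)`, and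
   `(log n - c)² ≤ (log n)² - c log n`; choose `K c ≥ D + 2 C`.
-/

set_option autoImplicit false

namespace Pool.Agent.Helper2.QP

open Filter Topology

private theorem step (C : ℝ) (hC : 1 ≤ C) (m₀ : ℕ) :
    ∃ n₁ : ℕ, 8 ≤ n₁ ∧ ∀ b : ℕ → ℝ, (∀ n, 2 ≤ n → 0 ≤ b n) →
    (∀ m, m₀ ≤ m → ∃ m₁ m₂ : ℕ, m ≤ 4 * m₁ ∧ m ≤ 4 * m₂ ∧ m ≤ m₁ + m₂ ∧
      (m₁ + m₂ : ℝ) ≤ m + C * Real.sqrt m ∧ b m₁ + b m₂ ≤ b m + C * Real.log m) →
    ∀ m : ℕ, n₁ ≤ m → ∃ m' : ℕ, m' < m ∧ m ≤ 4 * m' ∧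
      b m' / m' - 100 * C * (Real.log m' / m') ≤ b m / m - 100 * C * (Real.log m / m) := by
  have e1 : ∀ᶠ m : ℕ in atTop, 32 * C ≤ Real.sqrt m :=
    (Real.tendsto_sqrt_atTop.comp tendsto_natCast_atTop_atTop).eventually_ge_atTop _
  have e2 : ∀ᶠ m : ℕ in atTop, 1000 * Real.log 4 ≤ Real.log m :=
    (Real.tendsto_log_atTop.comp tendsto_natCast_atTop_atTop).eventually_ge_atTop _
  obtain ⟨n₁, hn₁⟩ := eventually_atTop.1
    (e1.and (e2.and ((eventually_ge_atTop m₀).and (eventually_ge_atTop 8))))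
  refine ⟨max n₁ 8, le_max_right _ _, fun b h0 hrec m hm => ?_⟩
  obtain ⟨hs, hl, hm0, hm8⟩ := hn₁ m ((le_max_left _ _).trans hm)
  obtain ⟨m₁, m₂, a3, a4, a1, a2, a5⟩ := hrec m hm0
  set s := Real.sqrt m with hsdef
  set l := Real.log m with hldef
  have hm8' : (8 : ℝ) ≤ m := by exact_mod_cast hm8
  have hmpos : (0 : ℝ) < m := by linarith
  have hss : s * s = m := Real.mul_self_sqrt (by linarith)
  have hspos : 0 < s := by linarith
  have hCs : C * s ≤ m / 32 := by nlinarith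
  have hl4 : 0 < Real.log 4 := Real.log_pos (by norm_num)
  have hlpos : 0 < l := by linarith
  have key : ∀ k : ℕ, m ≤ 4 * k → (k : ℝ) ≤ 31 / 32 * m → b k * m ≤ (b m + C * l) * k →
      ∃ m' : ℕ, m' < m ∧ m ≤ 4 * m' ∧
      b m' / m' - 100 * C * (Real.log m' / m') ≤ b m / m - 100 * C * (l / m) := by
    intro k hk1 hk2 hk3
    refine ⟨k, ?_, hk1, ?_⟩
    · have : (k : ℝ) < m := by linarith
      exact_mod_cast this
    · have hk1' : (m : ℝ) ≤ 4 * k := by exact_mod_cast hk1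
      have hkpos : (0 : ℝ) < k := by linarith
      have hl' : 0.999 * l ≤ Real.log k := by
        have h1 : l ≤ Real.log (4 * k) := Real.log_le_log (by linarith) hk1'
        rw [Real.log_mul (by norm_num) hkpos.ne'] at h1
        linarith
      have h2 : 101 * (l / m) ≤ 100 * (Real.log k / k) := by
        rw [← mul_div_assoc, ← mul_div_assoc, div_le_div_iff₀ hmpos hkpos]
        have h4 : l * k ≤ l * (31 / 32 * m) := mul_le_mul_of_nonneg_left hk2 hlpos.le
        have h5 : 0.999 * l * m ≤ Real.log k * m := mul_le_mul_of_nonneg_right hl' hmpos.le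
        have h6 : 0 < l * m := by positivity
        linarith
      have h3 : b k / k ≤ b m / m + C * (l / m) := by
        have h4 : b m / m + C * (l / m) = (b m + C * l) / m := by ring
        rw [h4, div_le_div_iff₀ hkpos hmpos]
        exact hk3
      have h4 : C * (101 * (l / m)) ≤ C * (100 * (Real.log k / k)) :=
        mul_le_mul_of_nonneg_left h2 (by linarith)
      linarith
  have a1' : (m : ℝ) ≤ m₁ + m₂ := by exact_mod_cast a1
  have a3' : (m : ℝ) ≤ 4 * m₁ := by exact_mod_cast a3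
  have a4' : (m : ℝ) ≤ 4 * m₂ := by exact_mod_cast a4
  have hbm : 0 ≤ b m := h0 m (by omega)
  have hR : 0 ≤ b m + C * l := by positivity
  by_cases h1 : b m₁ * m ≤ (b m + C * l) * m₁
  · exact key m₁ a3 (by linarith) h1
  · refine key m₂ a4 (by linarith) ?_
    by_contra h2
    rw [not_le] at h1 h2
    have h3 : (b m + C * l) * m ≤ (b m + C * l) * (m₁ + m₂) :=
      mul_le_mul_of_nonneg_left a1' hR
    have h4 : (b m₁ + b m₂) * m ≤ (b m + C * l) * m :=
      mul_le_mul_of_nonneg_right a5 (by linarith)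
    linarith

private theorem descend (ψ : ℕ → ℝ) (n₁ : ℕ)
    (h : ∀ m : ℕ, n₁ ≤ m → ∃ m' : ℕ, m' < m ∧ m ≤ 4 * m' ∧ ψ m' ≤ ψ m) (n : ℕ) (hn : n₁ ≤ n) :
    ∀ m : ℕ, n ≤ m → ∃ j, n ≤ 4 * j ∧ j ≤ n ∧ ψ j ≤ ψ m := by
  intro m
  induction m using Nat.strong_induction_on with
  | _ m ih =>
    intro hm
    rcases hm.eq_or_lt with rfl | hlt
    · exact ⟨n, by omega, le_rfl, le_rfl⟩
    · obtain ⟨m', h1, h2, h3⟩ := h m (by omega)
      by_cases h4 : m' ≤ n
      · exact ⟨m', by omega, h4, h3⟩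
      · obtain ⟨j, h5, h6, h7⟩ := ih m' h1 (by omega)
        exact ⟨j, h5, h6, h7.trans h3⟩

private theorem good (b : ℕ → ℝ) (D : ℝ) (hD : 0 ≤ D) (n₁ : ℕ) (hn₁ : 8 ≤ n₁)
    (hlim : ∀ δ : ℝ, 0 < δ → ∃ᶠ n : ℕ in atTop, b n ≤ δ * n)
    (h : ∀ m : ℕ, n₁ ≤ m → ∃ m' : ℕ, m' < m ∧ m ≤ 4 * m' ∧
      b m' / m' - D * (Real.log m' / m') ≤ b m / m - D * (Real.log m / m))
    (n : ℕ) (hn : n₁ ≤ n) :
    ∃ j, n ≤ 4 * j ∧ j ≤ n ∧ b j ≤ D * Real.log j := by
  let ψ : ℕ → ℝ := fun m => b m / m - D * (Real.log m / m)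
  have hd := descend ψ n₁ h n hn
  obtain ⟨j₀, hj₀, hmin⟩ := Finset.exists_min_image ((Finset.range (n + 1)).filter (fun j => n ≤ 4 * j)) ψ
    ⟨n, by rw [Finset.mem_filter, Finset.mem_range]; omega⟩
  rw [Finset.mem_filter, Finset.mem_range] at hj₀
  refine ⟨j₀, hj₀.2, by omega, ?_⟩
  have hj1 : 1 ≤ j₀ := by omega
  have hψ : ψ j₀ ≤ 0 := by
    by_contra hcon
    rw [not_le] at hcon
    obtain ⟨m, hm1, hm2⟩ :=
      ((hlim (ψ j₀ / 2) (half_pos hcon)).and_eventually (eventually_ge_atTop n)).exists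
    obtain ⟨j, hj1, hj2, hj3⟩ := hd m hm2
    have h1 := hmin j (by rw [Finset.mem_filter, Finset.mem_range]; omega)
    have hmpos : (0 : ℝ) < m := by
      have : 0 < m := by omega
      exact_mod_cast this
    have h2 : ψ m ≤ ψ j₀ / 2 := by
      have h3 : 0 ≤ Real.log m / m := div_nonneg (Real.log_natCast_nonneg m) hmpos.le
      have h4 := mul_nonneg hD h3
      have h5 : b m / m ≤ ψ j₀ / 2 := by
        rw [div_le_iff₀ hmpos]
        exact hm1
      change b m / m - D * (Real.log m / m) ≤ ψ j₀ / 2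
      linarith
    linarith
  have hj1' : (0 : ℝ) < j₀ := by exact_mod_cast hj1
  have h1 : b j₀ / j₀ ≤ D * (Real.log j₀ / j₀) := by
    have : b j₀ / j₀ - D * (Real.log j₀ / j₀) ≤ 0 := hψ
    linarith
  rw [← mul_div_assoc, div_le_div_iff_of_pos_right hj1'] at h1
  exact h1

theorem ana_rec (C : ℝ) (hC : 1 ≤ C) (m₀ : ℕ) : ∃ K : ℝ, 1 ≤ K ∧ ∀ b : ℕ → ℝ,
    (∀ n, 2 ≤ n → 0 ≤ b n) → (∀ n, 2 ≤ n → b n ≤ C * n) →
    (∀ m n : ℕ, 2 ≤ m → 2 ≤ n → b (m + n - 1) ≤ b m + b n + C * Real.log (m + n)) →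
    (∀ δ : ℝ, 0 < δ → ∃ᶠ n : ℕ in atTop, b n ≤ δ * n) →
    (∀ m, m₀ ≤ m → ∃ m₁ m₂ : ℕ, m ≤ 4 * m₁ ∧ m ≤ 4 * m₂ ∧ m ≤ m₁ + m₂ ∧
      (m₁ + m₂ : ℝ) ≤ m + C * Real.sqrt m ∧ b m₁ + b m₂ ≤ b m + C * Real.log m) →
    (∀ n, 2 ≤ n → b n ≤ K * (Real.log n) ^ 2) ∧
      (∀ n, 2 ≤ n → ∃ j, 2 ≤ j ∧ n ≤ 16 * j ∧ j ≤ n ∧ b j ≤ K * Real.log j) := by
  obtain ⟨n₁, hn₁, hstep⟩ := step C hC m₀
  have hl2 : 0 < Real.log 2 := Real.log_pos (by norm_num)
  have hl21 : Real.log 2 ≤ 1 := by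
    have := Real.log_two_lt_d9
    linarith
  have hc : 0 < Real.log (32 / 31) := Real.log_pos (by norm_num)
  set c := Real.log (32 / 31) with hcdef
  set D := 100 * C with hD
  have hDpos : 0 < D := by linarith
  set K₁ := C * n₁ / (Real.log 2) ^ 2 with hK₁
  have hn₁0 : (0 : ℝ) ≤ n₁ := Nat.cast_nonneg _
  have hCn : 0 ≤ C * n₁ := mul_nonneg (by linarith) hn₁0
  have hK₁0 : 0 ≤ K₁ := div_nonneg hCn (sq_nonneg _)
  set K₂ := (D + 2 * C) / c with hK₂
  have hK₂0 : 0 ≤ K₂ := div_nonneg (by linarith) hc.le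
  set K := D + K₁ + K₂ with hK
  have hKc : D + 2 * C ≤ K * c := by
    have h1 : K₂ * c = D + 2 * C := div_mul_cancel₀ _ hc.ne'
    have h2 : 0 ≤ (D + K₁) * c := mul_nonneg (by linarith) hc.le
    rw [hK, add_mul, h1]
    linarith
  have hsmall : ∀ n : ℕ, n < n₁ → C * n ≤ K * (Real.log 2) ^ 2 := by
    intro n hn
    have h1 : K₁ * (Real.log 2) ^ 2 = C * n₁ := div_mul_cancel₀ _ (pow_pos hl2 2).ne'
    have h2 : K₁ * (Real.log 2) ^ 2 ≤ K * (Real.log 2) ^ 2 :=
      mul_le_mul_of_nonneg_right (by linarith) (sq_nonneg _)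
    have h3 : (n : ℝ) ≤ n₁ := by exact_mod_cast hn.le
    have h4 : C * n ≤ C * n₁ := mul_le_mul_of_nonneg_left h3 (by linarith)
    linarith
  have hK0 : 0 ≤ K := by linarith
  refine ⟨K, by linarith, fun b h0 hub hsub hlim hrec => ?_⟩
  have hgood := good b D hDpos.le n₁ hn₁ hlim (hstep b h0 hrec)
  refine ⟨?_, ?_⟩
  · intro n
    induction n using Nat.strong_induction_on with
    | _ n ih =>
      intro hn
      have hn' : (2 : ℝ) ≤ n := by exact_mod_cast hn
      have hln : Real.log 2 ≤ Real.log n := Real.log_le_log (by norm_num) hn'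
      have hlpos : 0 < Real.log n := by linarith
      rcases lt_or_ge n n₁ with hlt | hge
      · have h1 := hub n hn
        have h2 := hsmall n hlt
        have h3 : (Real.log 2) ^ 2 ≤ (Real.log n) ^ 2 := pow_le_pow_left₀ hl2.le hln 2
        have h4 : K * (Real.log 2) ^ 2 ≤ K * (Real.log n) ^ 2 := mul_le_mul_of_nonneg_left h3 hK0
        linarith
      · have hn8 : (8 : ℝ) ≤ n := by exact_mod_cast (hn₁.trans hge)
        have hl1 : 1 ≤ Real.log n := by
          rw [Real.le_log_iff_exp_le (by linarith)]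
          have := Real.exp_one_lt_d9
          linarith
        obtain ⟨j, hj1, hj2, hj3⟩ := hgood n hge
        have hjpos : 2 ≤ j := by omega
        have hj2' : (j : ℝ) ≤ n := by exact_mod_cast hj2
        have hj1' : (n : ℝ) ≤ 4 * j := by exact_mod_cast hj1
        have hjpos' : (0 : ℝ) < j := by linarith
        have hj4 : b j ≤ D * Real.log n :=
          hj3.trans (mul_le_mul_of_nonneg_left (Real.log_le_log hjpos' hj2') hDpos.le)
        rcases hj2.eq_or_lt with rfl | hlt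
        · have h1 : D * Real.log j ≤ K * Real.log j :=
            mul_le_mul_of_nonneg_right (by linarith) hlpos.le
          have h2 : K * Real.log j ≤ K * (Real.log j) ^ 2 := by
            refine mul_le_mul_of_nonneg_left ?_ hK0
            rw [pow_two]
            exact le_mul_of_one_le_right hlpos.le hl1
          linarith
        · have h1 := hsub j (n + 1 - j) hjpos (by omega)
          rw [show j + (n + 1 - j) - 1 = n by omega] at h1
          have hr : ((n + 1 - j : ℕ) : ℝ) = n + 1 - j := by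
            rw [Nat.cast_sub (by omega)]
            push_cast
            ring
          have h2 : (j : ℝ) + ((n + 1 - j : ℕ) : ℝ) = n + 1 := by rw [hr]; ring
          rw [h2] at h1
          have h3 := ih (n + 1 - j) (by omega) (by omega)
          have h4 : ((n + 1 - j : ℕ) : ℝ) ≤ n / (32 / 31) := by
            rw [hr, le_div_iff₀ (by norm_num)]
            linarith
          have h5 : (2 : ℝ) ≤ ((n + 1 - j : ℕ) : ℝ) := by
            have : 2 ≤ n + 1 - j := by omega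
            exact_mod_cast this
          have h6 : Real.log ((n + 1 - j : ℕ) : ℝ) ≤ Real.log n - c := by
            rw [hcdef, ← Real.log_div (by linarith) (by norm_num)]
            exact Real.log_le_log (by linarith) h4
          have h7 : 0 ≤ Real.log ((n + 1 - j : ℕ) : ℝ) := Real.log_natCast_nonneg _
          have h8 : (Real.log ((n + 1 - j : ℕ) : ℝ)) ^ 2 ≤ (Real.log n) ^ 2 - c * Real.log n := by
            nlinarith
          have h9 : K * (Real.log ((n + 1 - j : ℕ) : ℝ)) ^ 2 ≤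
              K * ((Real.log n) ^ 2 - c * Real.log n) := mul_le_mul_of_nonneg_left h8 hK0
          have h10 : Real.log ((n : ℝ) + 1) ≤ 2 * Real.log n := by
            have h11 : (n : ℝ) + 1 ≤ (n : ℝ) ^ 2 := by nlinarith
            have h12 := Real.log_le_log (by linarith) h11
            rw [Real.log_pow] at h12
            exact_mod_cast h12
          have h11 : C * Real.log ((n : ℝ) + 1) ≤ C * (2 * Real.log n) :=
            mul_le_mul_of_nonneg_left h10 (by linarith)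
          have h12 : (D + 2 * C) * Real.log n ≤ K * c * Real.log n :=
            mul_le_mul_of_nonneg_right hKc hlpos.le
          linarith
  · intro n hn
    have hn' : (2 : ℝ) ≤ n := by exact_mod_cast hn
    have hln : Real.log 2 ≤ Real.log n := Real.log_le_log (by norm_num) hn'
    have hlpos : 0 < Real.log n := by linarith
    rcases lt_or_ge n n₁ with hlt | hge
    · refine ⟨n, hn, by omega, le_rfl, ?_⟩
      have h1 := hub n hn
      have h2 := hsmall n hlt
      have h3 : (Real.log 2) ^ 2 ≤ Real.log n := by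
        rw [pow_two]
        nlinarith
      have h4 : K * (Real.log 2) ^ 2 ≤ K * Real.log n := mul_le_mul_of_nonneg_left h3 hK0
      linarith
    · obtain ⟨j, hj1, hj2, hj3⟩ := hgood n hge
      refine ⟨j, by omega, by omega, hj2, hj3.trans ?_⟩
      exact mul_le_mul_of_nonneg_right (by linarith) (Real.log_natCast_nonneg j)

end Pool.Agent.Helper2.QP
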