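import Pool.Agent.Helper2.QP.Fekete

/-!
# QP-ANAWIN: windows with an explicit power

Paper proof.  `λ = log Λ`, `β m = m λ - log (f m)`; `- 2 log m - log (64 / a) ≤ β m ≤ C m`.  The recursion gives, for `m ≥ 10`,
`β m₁ + β m₂ ≤ β m + 2 log m + (m₁ + m₂ - m) λ + log 1152 + 4 log (J+1) - 4 J² |log b₀| ≤ β m + 2 log m + C'` and
`2 J² |log b₀| ≤ C m`, so `m₁, m₂ < m` for `m ≥ m₁(a, b₀)`.
Suppose `n ≥ m₁` and `β j > 2 log j + C'' + 1` for all `j ∈ [n/4, n]`, `C'' = C' + 4 log 4`.  With `κ = 1/n` we get `β m ≥ κ m + 2 log m + C''` for all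
`m ≥ n/4` by strong induction (`log m₁, log m₂ ≥ log m - log 4`), contradicting `β m ≤ δ m` frequently.  For `n < m₁` take `j = n`.
-/

set_option autoImplicit false

namespace Pool.Agent.Helper2.QP

open Filter Topology

/-- The abstract argument. -/
theorem win_abs (β : ℕ → ℝ) (C : ℝ) (hC : 0 ≤ C) (m₀ : ℕ) (hm₀ : 2 ≤ m₀)
    (hlim : ∀ δ : ℝ, 0 < δ → ∃ᶠ n : ℕ in atTop, β n ≤ δ * n)
    (hrec : ∀ m, m₀ ≤ m → ∃ m₁ m₂ : ℕ, m ≤ 4 * m₁ ∧ m ≤ 4 * m₂ ∧ m ≤ m₁ + m₂ ∧ m₁ < m ∧ m₂ < m ∧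
      β m₁ + β m₂ ≤ β m + 2 * Real.log m + C) (n : ℕ) (hn : m₀ ≤ n) :
    ∃ j : ℕ, n ≤ 4 * j ∧ j ≤ n ∧ β j ≤ 2 * Real.log j + (C + 4 * Real.log 4 + 1) := by
  by_contra hcon
  push Not at hcon
  have hn0 : (0 : ℝ) < n := by exact_mod_cast (by omega : 0 < n)
  have hl4 : 0 < Real.log 4 := Real.log_pos (by norm_num)
  have key : ∀ m : ℕ, n ≤ 4 * m → (m : ℝ) / n + 2 * Real.log m + (C + 4 * Real.log 4) ≤ β m := by
    intro m
    induction m using Nat.strong_induction_on with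
    | _ m ih =>
      intro hm
      by_cases h1 : m ≤ n
      · have h2 := hcon m hm h1
        have h3 : (m : ℝ) / n ≤ 1 := by
          rw [div_le_one hn0]
          exact_mod_cast h1
        linarith
      · obtain ⟨m₁, m₂, a1, a2, a3, a4, a5, a6⟩ := hrec m (by omega)
        have i1 := ih m₁ a4 (by omega)
        have i2 := ih m₂ a5 (by omega)
        have hm0 : (0 : ℝ) < m := by exact_mod_cast (by omega : 0 < m)
        have hlog : ∀ k : ℕ, m ≤ 4 * k → Real.log m - Real.log 4 ≤ Real.log k := by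
          intro k hk
          have hk0 : (0 : ℝ) < k := by exact_mod_cast (by omega : 0 < k)
          have h2 : (m : ℝ) ≤ 4 * k := by exact_mod_cast hk
          have h3 := Real.log_le_log hm0 h2
          rw [Real.log_mul (by norm_num) hk0.ne'] at h3
          linarith
        have l1 := hlog m₁ a1
        have l2 := hlog m₂ a2
        have h4 : (m : ℝ) / n ≤ (m₁ : ℝ) / n + (m₂ : ℝ) / n := by
          rw [← add_div]
          apply div_le_div_of_nonneg_right _ hn0.le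
          exact_mod_cast a3
        linarith
  have hlim2 := hlim (1 / (2 * n)) (by positivity)
  obtain ⟨m, h1, h2⟩ := (hlim2.and_eventually (eventually_ge_atTop (n + 1))).exists
  have h3 := key m (by omega)
  have h4 : 0 ≤ Real.log (m : ℝ) := Real.log_natCast_nonneg m
  have hm0 : (0 : ℝ) < m := by exact_mod_cast (by omega : 0 < m)
  have h5 : 1 / (2 * (n : ℝ)) * m < m / n := by
    rw [div_mul_eq_mul_div, one_mul, div_lt_div_iff₀ (by positivity) hn0]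
    nlinarith [mul_pos hm0 hn0]
  linarith

theorem ana_window (a b₀ : ℝ) (ha : 0 < a) (hab : a ≤ b₀) (hb : b₀ < 1) : ∃ K : ℝ, 1 ≤ K ∧
    ∀ q : ℝ, a ≤ q → q ≤ b₀ → ∀ f : ℕ → ℝ,
    (∀ m, 2 ≤ m → q ^ (m - 1) ≤ f m) → (∀ m, 0 ≤ f m) → (∀ m, f m ≤ 16 ^ m) →
    (∀ m n : ℕ, 2 ≤ m → 2 ≤ n → f m * f n ≤ 16 * m * n * f (m + n - 1)) →
    (∀ m : ℕ, 10 ≤ m → ∃ m₁ m₂ J : ℕ, m ≤ 4 * m₁ ∧ m ≤ 4 * m₂ ∧ m ≤ m₁ + m₂ ∧
      m₁ + m₂ ≤ m + 12 * J + 6 ∧
      f m ≤ 1152 * (m : ℝ) ^ 2 * ((J : ℝ) + 1) ^ 4 * (q ^ (4 * J ^ 2) * f m₁ * f m₂)) →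
    ∀ Λ : ℝ, Λ = limsup (fun m : ℕ => (f m) ^ ((1 : ℝ) / m)) atTop →
      (∀ n : ℕ, 2 ≤ n → ∃ j : ℕ, 2 ≤ j ∧ n ≤ 4 * j ∧ j ≤ n ∧ Λ ^ j ≤ K * (j : ℝ) ^ 2 * f j) := by
  have ha1 : a < 1 := lt_of_le_of_lt hab hb
  have hb0 : 0 < b₀ := lt_of_lt_of_le ha hab
  have hla : Real.log a < 0 := Real.log_neg ha ha1
  set ℓ : ℝ := -Real.log b₀ with hℓ
  have hℓ0 : 0 < ℓ := by
    have := Real.log_neg hb0 hb
    linarith
  set La : ℝ := Real.log 64 - Real.log a with hLa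
  have h64 : 0 < Real.log 64 := Real.log_pos (by norm_num)
  have hLa0 : 0 < La := by linarith
  have h1664 : Real.log 16 ≤ Real.log 64 := Real.log_le_log (by norm_num) (by norm_num)
  have h1152 : 0 < Real.log 1152 := Real.log_pos (by norm_num)
  have hl4 : 0 < Real.log 4 := Real.log_pos (by norm_num)
  set E : ℝ := (12 * La + 4) ^ 2 / (8 * ℓ) + 6 * La + Real.log 1152 with hE
  have hE0 : 0 ≤ E := by
    have : 0 ≤ (12 * La + 4) ^ 2 / (8 * ℓ) := by positivity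
    linarith
  set G : ℝ := (12 + 5 * La + E + 16 / ℓ) / ℓ with hG
  have hG0 : 0 ≤ G := by positivity
  obtain ⟨m₀, hm₀, hm₀G⟩ : ∃ m₀ : ℕ, 100 ≤ m₀ ∧ 10000 * G ≤ m₀ := by
    refine ⟨max 100 ⌈10000 * G⌉₊, le_max_left _ _, ?_⟩
    refine (Nat.le_ceil _).trans ?_
    exact_mod_cast le_max_right _ _
  refine ⟨Real.exp (E + 4 * Real.log 4 + 1) + Real.exp ((3 * La + 2) * m₀), ?_, ?_⟩
  · have h1 : 1 ≤ Real.exp (E + 4 * Real.log 4 + 1) := Real.one_le_exp (by linarith)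
    have h2 := Real.exp_pos ((3 * La + 2) * m₀)
    linarith
  intro q hq hqb f h1 h2 h3 h4 h5 Λ hΛ
  have hq0 : 0 < q := lt_of_lt_of_le ha hq
  have h1a : ∀ m, 2 ≤ m → a ^ (m - 1) ≤ f m := fun m hm =>
    (pow_le_pow_left₀ ha.le hq _).trans (h1 m hm)
  obtain ⟨k1, k2, k3, k4⟩ := fekete a ha ha1 f h1a h2 h3 h4
  rw [← hΛ] at k1 k2 k3 k4
  have hΛ0 : 0 < Λ := lt_of_lt_of_le ha k1
  set lam : ℝ := Real.log Λ with hlam
  have hl1 : Real.log a ≤ lam := Real.log_le_log ha k1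
  have hl2 : lam ≤ Real.log 16 := Real.log_le_log hΛ0 k2
  have hlamLa : lam ≤ La := by linarith
  have hfpos : ∀ m, 2 ≤ m → 0 < f m := fun m hm => lt_of_lt_of_le (pow_pos ha _) (h1a m hm)
  set β : ℕ → ℝ := fun m => m * lam - Real.log (f m) with hβdef
  have hlogm : ∀ m : ℕ, 2 ≤ m → 0 ≤ Real.log m ∧ Real.log m ≤ m := by
    intro m hm
    have hm1 : (1 : ℝ) ≤ m := by exact_mod_cast (by omega : 1 ≤ m)
    refine ⟨Real.log_nonneg hm1, ?_⟩
    have := Real.log_le_sub_one_of_pos (by linarith : (0 : ℝ) < m)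
    linarith
  have hcast : ∀ m : ℕ, 1 ≤ m → ((m - 1 : ℕ) : ℝ) = (m : ℝ) - 1 := by
    intro m hm
    rw [Nat.cast_sub hm, Nat.cast_one]
  have B0 : ∀ n : ℕ, 2 ≤ n → -(La + 2 * Real.log n) ≤ β n := by
    intro m hm
    have hm0 : (0 : ℝ) < m := by exact_mod_cast (by omega : 0 < m)
    have h := Real.log_le_log (hfpos m hm) (k3 m hm)
    rw [Real.log_mul (by positivity) (by positivity), Real.log_mul (by norm_num) (by positivity),
      Real.log_pow, Real.log_pow, hcast m (by omega)] at h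
    simp only [hβdef]
    push_cast at h
    nlinarith
  have B1 : ∀ n : ℕ, 2 ≤ n → β n ≤ (3 * La + 2) * n := by
    intro m hm
    have hm0 : (1 : ℝ) ≤ m := by exact_mod_cast (by omega : 1 ≤ m)
    have h := Real.log_le_log (pow_pos ha _) (h1a m hm)
    rw [Real.log_pow, hcast m (by omega)] at h
    have e1 : (m : ℝ) * lam ≤ m * La := mul_le_mul_of_nonneg_left hlamLa (by linarith)
    have e2 : ((m : ℝ) - 1) * (-Real.log a) ≤ m * La := by
      have : -Real.log a ≤ La := by linarith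
      exact mul_le_mul (by linarith) this (by linarith) (by linarith)
    have e3 : 0 ≤ La * m := by positivity
    simp only [hβdef]
    nlinarith
  have B3 : ∀ δ : ℝ, 0 < δ → ∃ᶠ n : ℕ in atTop, β n ≤ δ * n := by
    intro δ hδ
    refine (k4 δ hδ).mono ?_
    intro n e1
    simp only [hβdef]
    linarith
  have B4 : ∀ m, m₀ ≤ m → ∃ m₁ m₂ : ℕ, m ≤ 4 * m₁ ∧ m ≤ 4 * m₂ ∧ m ≤ m₁ + m₂ ∧ m₁ < m ∧ m₂ < m ∧
      β m₁ + β m₂ ≤ β m + 2 * Real.log m + E := by
    intro m hm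
    obtain ⟨m₁, m₂, J, c1, c2, c3, c4, c5⟩ := h5 m (by omega)
    have hm10 : (100 : ℝ) ≤ m := by exact_mod_cast (by omega : 100 ≤ m)
    have hmm₀ : (m₀ : ℝ) ≤ m := by exact_mod_cast hm
    have hm₁ : 2 ≤ m₁ := by omega
    have hm₂ : 2 ≤ m₂ := by omega
    have hm₁0 : (2 : ℝ) ≤ m₁ := by exact_mod_cast hm₁
    have hm₂0 : (2 : ℝ) ≤ m₂ := by exact_mod_cast hm₂
    have hJ0 : (0 : ℝ) ≤ J := Nat.cast_nonneg _
    have c3' : (m : ℝ) ≤ m₁ + m₂ := by exact_mod_cast c3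
    have c4' : (m₁ : ℝ) + m₂ ≤ m + 12 * J + 6 := by exact_mod_cast c4
    have hlmm := (hlogm m (by omega)).2
    have hpos : 0 < q ^ (4 * J ^ 2) * f m₁ * f m₂ :=
      mul_pos (mul_pos (pow_pos hq0 _) (hfpos _ hm₁)) (hfpos _ hm₂)
    have h := Real.log_le_log (hfpos m (by omega)) c5
    rw [Real.log_mul (by positivity) hpos.ne', Real.log_mul (by positivity) (by positivity),
      Real.log_mul (by norm_num) (by positivity), Real.log_pow, Real.log_pow,
      Real.log_mul (mul_pos (pow_pos hq0 _) (hfpos _ hm₁)).ne' (hfpos _ hm₂).ne',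
      Real.log_mul (pow_pos hq0 _).ne' (hfpos _ hm₁).ne', Real.log_pow] at h
    push_cast at h
    have hlq : Real.log q ≤ -ℓ := by
      have := Real.log_le_log hq0 hqb
      linarith
    have hq2 : 4 * (J : ℝ) ^ 2 * Real.log q ≤ 4 * (J : ℝ) ^ 2 * (-ℓ) :=
      mul_le_mul_of_nonneg_left hlq (by positivity)
    have hlJ : Real.log ((J : ℝ) + 1) ≤ J := by
      have := Real.log_le_sub_one_of_pos (by linarith : (0 : ℝ) < (J : ℝ) + 1)
      linarith
    have hlogi : ∀ x : ℝ, 2 ≤ x → x ≤ m + 12 * J + 6 → Real.log x ≤ Real.log m + (1 + 2 * J) := by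
      intro x hx hx'
      have e1 : x ≤ m * (2 + 2 * J) := by nlinarith
      have e2 := Real.log_le_log (by linarith) e1
      rw [Real.log_mul (by positivity) (by positivity)] at e2
      have e3 := Real.log_le_sub_one_of_pos (by positivity : (0 : ℝ) < 2 + 2 * J)
      linarith
    have hg1 := hlogi m₁ hm₁0 (by linarith)
    have hg2 := hlogi m₂ hm₂0 (by linarith)
    have hlam2 : ((m₁ : ℝ) + m₂ - m) * lam ≤ (12 * J + 6) * La := by
      refine (mul_le_mul_of_nonneg_left hlamLa (by linarith)).trans ?_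
      exact mul_le_mul_of_nonneg_right (by linarith) hLa0.le
    have hAG : (12 * La + 4) * J ≤ 2 * (J : ℝ) ^ 2 * ℓ + (12 * La + 4) ^ 2 / (8 * ℓ) := by
      have e : 0 ≤ (4 * ℓ * J - (12 * La + 4)) ^ 2 / (8 * ℓ) := by positivity
      have e' : (4 * ℓ * J - (12 * La + 4)) ^ 2 / (8 * ℓ)
          = 2 * (J : ℝ) ^ 2 * ℓ - (12 * La + 4) * J + (12 * La + 4) ^ 2 / (8 * ℓ) := by
        field_simp
        ring
      linarith
    have main : β m₁ + β m₂ ≤ β m + 2 * Real.log m + E - 2 * (J : ℝ) ^ 2 * ℓ := by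
      simp only [hβdef]
      rw [hE]
      nlinarith
    have hb1 := B0 m₁ hm₁
    have hb2 := B0 m₂ hm₂
    have hB1 := B1 m (by omega)
    have h8J : 8 * (J : ℝ) ≤ (J : ℝ) ^ 2 * ℓ + 16 / ℓ := by
      have e : 0 ≤ (ℓ * J - 4) ^ 2 / ℓ := by positivity
      have e' : (ℓ * J - 4) ^ 2 / ℓ = (J : ℝ) ^ 2 * ℓ - 8 * J + 16 / ℓ := by
        field_simp
        ring
      linarith
    have h16 : 0 ≤ 16 / ℓ := by positivity
    have hJ2 : (J : ℝ) ^ 2 * ℓ ≤ (12 + 5 * La + E + 16 / ℓ) * m := by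
      have e1 : (J : ℝ) ^ 2 * ℓ ≤ (3 * La + 2) * m + 6 * Real.log m + E + 2 * La + 4 + 16 / ℓ := by
        linarith
      have e2 : 0 ≤ (2 * La + 4 + E + 16 / ℓ) * (m - 1) :=
        mul_nonneg (by linarith) (by linarith)
      nlinarith
    have hJG : (J : ℝ) ^ 2 ≤ G * m := by
      rw [hG, div_mul_eq_mul_div, le_div_iff₀ hℓ0]
      exact hJ2
    have hJm : 100 * (J : ℝ) ≤ m := by
      have e1 : (100 * (J : ℝ)) ^ 2 ≤ (m : ℝ) ^ 2 := by
        have : 10000 * G * m ≤ m * m := mul_le_mul_of_nonneg_right (by linarith) (by linarith)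
        nlinarith
      exact (abs_le_of_sq_le_sq' e1 (by linarith)).2
    have hJm' : 100 * J ≤ m := by exact_mod_cast hJm
    refine ⟨m₁, m₂, c1, c2, c3, by omega, by omega, ?_⟩
    have : 0 ≤ 2 * (J : ℝ) ^ 2 * ℓ := by positivity
    linarith
  have conv : ∀ (j : ℕ), 2 ≤ j → ∀ x : ℝ, β j ≤ x → Λ ^ j ≤ Real.exp x * f j := by
    intro j hj x hx
    have e : Λ ^ j = Real.exp (β j) * f j := by
      calc Λ ^ j = Real.exp (j * lam) := by
            rw [mul_comm, hlam, Real.exp_mul, Real.exp_log hΛ0, Real.rpow_natCast]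
        _ = Real.exp (β j + Real.log (f j)) := by
            congr 1
            simp only [hβdef]
            ring
        _ = Real.exp (β j) * f j := by rw [Real.exp_add, Real.exp_log (hfpos j hj)]
    rw [e]
    exact mul_le_mul_of_nonneg_right (Real.exp_le_exp.2 hx) (hfpos j hj).le
  intro n hn
  by_cases hn2 : m₀ ≤ n
  · obtain ⟨j, j1, j2, j3⟩ := win_abs β E hE0 m₀ (by omega) B3 B4 n hn2
    have hj2 : 2 ≤ j := by omega
    refine ⟨j, hj2, j1, j2, ?_⟩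
    have h6 := conv j hj2 _ j3
    have hj0 : (0 : ℝ) < j := by exact_mod_cast (by omega : 0 < j)
    have e1 : Real.exp (2 * Real.log j + (E + 4 * Real.log 4 + 1)) =
        Real.exp (E + 4 * Real.log 4 + 1) * (j : ℝ) ^ 2 := by
      rw [Real.exp_add, mul_comm]
      congr 1
      rw [mul_comm, Real.exp_mul, Real.exp_log hj0]
      norm_num
    rw [e1] at h6
    refine h6.trans ?_
    have e2 : 0 ≤ Real.exp ((3 * La + 2) * m₀) * (j : ℝ) ^ 2 * f j :=
      mul_nonneg (by positivity) (hfpos j hj2).le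
    nlinarith
  · refine ⟨n, hn, by omega, le_rfl, ?_⟩
    have hn0 : (1 : ℝ) ≤ n := by exact_mod_cast (by omega : 1 ≤ n)
    have hnm : (n : ℝ) ≤ m₀ := by exact_mod_cast (by omega : n ≤ m₀)
    have h6 := conv n hn ((3 * La + 2) * m₀)
      ((B1 n hn).trans (mul_le_mul_of_nonneg_left hnm (by linarith)))
    refine h6.trans ?_
    have hf := (hfpos n hn).le
    have e2 : 0 ≤ Real.exp (E + 4 * Real.log 4 + 1) * (n : ℝ) ^ 2 * f n :=
      mul_nonneg (by positivity) hf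
    have e3 : 0 < Real.exp ((3 * La + 2) * m₀) := Real.exp_pos _
    have e4 : 1 ≤ (n : ℝ) ^ 2 := one_le_pow₀ hn0
    have e5 : Real.exp ((3 * La + 2) * m₀) * f n ≤
        Real.exp ((3 * La + 2) * m₀) * (n : ℝ) ^ 2 * f n := by
      apply mul_le_mul_of_nonneg_right _ hf
      nlinarith
    nlinarith

end Pool.Agent.Helper2.QP
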