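import Pool.Agent.Helper2.QP.Basic

/-!
# QP-ARCS: the boundary of a square, split at two boundary points

Paper proof.  Boundary word of the square `u + [-J, J]²` from the corner `u + (-J, -J)`:
counterclockwise `0^{2J} 1^{2J} 2^{2J} 3^{2J}` (for `ε = 1`), clockwise `1^{2J} 0^{2J} 3^{2J} 2^{2J}` (for `ε = -1`).  Its vertices are
exactly the points with `max |x| |y| = J` (relative to `u`), each once; `xdy = ε (2J)²`; the winding number of
every cell outside the square is `0`.  If `r` and `r'` are the vertices number `k` and `k'` cut the word there: for `k < k'` it is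
`X ++ α ++ Y`, `ρ = Y ++ X`; for `k' < k` it is `X ++ ρ ++ Y`, `α = Y ++ X`.  The closed word `α ++ ρ` based at `r` is a
rotation of the boundary word (`psum_rotate`, `verts_rotate_perm`).
-/

set_option autoImplicit false

namespace Pool.Agent.Helper2.QP

private theorem split_lt (p0 : V) (X α Y : List (Fin 4)) (h0 : dsp (X ++ α ++ Y) = 0) :
    (verts (p0 + dsp X) α ++ verts (p0 + dsp (X ++ α)) (Y ++ X)).Perm (verts p0 (X ++ α ++ Y)) ∧
      ∀ F, psum F (p0 + dsp X) (α ++ (Y ++ X)) = psum F p0 (X ++ α ++ Y) := by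
  rw [List.append_assoc] at h0 ⊢
  constructor
  · have h1 := verts_rotate_perm p0 X (α ++ Y) h0
    rw [List.append_assoc, verts_append (p0 + dsp X) α (Y ++ X), add_assoc, ← dsp_append] at h1
    exact h1
  · intro F
    rw [← List.append_assoc α Y X]
    exact psum_rotate F p0 X (α ++ Y) h0

private theorem split_gen (p0 : V) (W : List (Fin 4)) (hW : dsp W = 0) (k k' : ℕ)
    (hkk : k ≠ k') (hk : k < W.length) (hk' : k' < W.length) :
    ∃ α ρ : List (Fin 4),
      dsp α = (p0 + dsp (W.take k')) - (p0 + dsp (W.take k)) ∧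
      dsp ρ = (p0 + dsp (W.take k)) - (p0 + dsp (W.take k')) ∧
      α.length + ρ.length = W.length ∧
      (verts (p0 + dsp (W.take k)) α ++ verts (p0 + dsp (W.take k')) ρ).Perm (verts p0 W) ∧
      ∀ F, psum F (p0 + dsp (W.take k)) (α ++ ρ) = psum F p0 W := by
  have key : ∀ a b : ℕ, a < b → b < W.length →
      ∃ X M Y : List (Fin 4), W = X ++ M ++ Y ∧ W.take a = X ∧ W.take b = X ++ M := by
    intro a b hab hb
    refine ⟨W.take a, (W.take b).drop a, W.drop b, ?_, rfl, ?_⟩
    · have h1 : W.take a ++ (W.take b).drop a = W.take b := by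
        have h2 : (W.take b).take a = W.take a := by
          rw [List.take_take, min_eq_left hab.le]
        rw [← h2, List.take_append_drop]
      rw [h1, List.take_append_drop]
    · have h2 : (W.take b).take a = W.take a := by
        rw [List.take_take, min_eq_left hab.le]
      rw [← h2, List.take_append_drop]
  rcases lt_or_gt_of_ne hkk with hlt | hlt
  · obtain ⟨X, M, Y, hXY, h1, h2⟩ := key k k' hlt hk'
    obtain ⟨hp, hF⟩ := split_lt p0 X M Y (by rw [← hXY]; exact hW)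
    have h0 : dsp X + dsp M + dsp Y = 0 := by rw [← dsp_append, ← dsp_append, ← hXY, hW]
    refine ⟨M, Y ++ X, ?_, ?_, ?_, ?_, ?_⟩
    · rw [h1, h2, dsp_append]; abel
    · rw [h1, h2, dsp_append, dsp_append]
      have : dsp Y = - (dsp X + dsp M) := by rw [eq_neg_iff_add_eq_zero, add_comm]; exact h0
      rw [this]; abel
    · rw [hXY]; simp only [List.length_append]; omega
    · rw [h1, h2]; rw [← hXY] at hp; exact hp
    · intro F; rw [h1, hF, ← hXY]
  · obtain ⟨X, M, Y, hXY, h1, h2⟩ := key k' k hlt hk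
    have h0 : dsp X + dsp M + dsp Y = 0 := by rw [← dsp_append, ← dsp_append, ← hXY, hW]
    have hY : dsp Y = - (dsp X + dsp M) := by rw [eq_neg_iff_add_eq_zero, add_comm]; exact h0
    have hd : dsp ((X ++ M) ++ Y) = 0 := by rw [← hXY]; exact hW
    have hr' : p0 + dsp (X ++ M) + dsp (Y ++ X) = p0 + dsp X := by
      rw [dsp_append, dsp_append, hY]; abel
    refine ⟨Y ++ X, M, ?_, ?_, ?_, ?_, ?_⟩
    · rw [h1, h2, dsp_append, dsp_append, hY]; abel
    · rw [h1, h2, dsp_append]; abel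
    · rw [hXY]; simp only [List.length_append]; omega
    · rw [h1, h2, ← hr', ← verts_append, List.append_assoc]
      have h3 := verts_rotate_perm p0 (X ++ M) Y hd
      rw [← hXY] at h3
      exact h3
    · intro F
      rw [h2, List.append_assoc, psum_rotate F p0 (X ++ M) Y hd, ← hXY]

private theorem dsp_rep (n : ℕ) (a : Fin 4) :
    dsp (List.replicate n a) = ((n : ℤ) * (stp a).1, (n : ℤ) * (stp a).2) := by
  induction n with
  | zero => simp [dsp]; rfl
  | succ n ih =>
    rw [List.replicate_succ, dsp, ih]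
    ext <;> simp <;> ring

private theorem mem_rep (p v : V) (n : ℕ) (a : Fin 4) :
    v ∈ verts p (List.replicate n a) ↔
      ∃ i : ℕ, i < n ∧ v = (p.1 + (i : ℤ) * (stp a).1, p.2 + (i : ℤ) * (stp a).2) := by
  rw [mem_verts]
  constructor
  · rintro ⟨i, hi, rfl⟩
    rw [List.length_replicate] at hi
    refine ⟨i, hi, ?_⟩
    rw [List.take_replicate, min_eq_left hi.le, dsp_rep]
    ext <;> simp
  · rintro ⟨i, hi, rfl⟩
    refine ⟨i, by rwa [List.length_replicate], ?_⟩
    rw [List.take_replicate, min_eq_left hi.le, dsp_rep]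
    ext <;> simp

private theorem nodup_rep (p : V) (n : ℕ) (a : Fin 4) : (verts p (List.replicate n a)).Nodup := by
  rw [List.nodup_iff_injective_getElem]
  rintro ⟨i, hi⟩ ⟨j, hj⟩ hij
  simp only [verts_getElem] at hij
  rw [length_verts, List.length_replicate] at hi hj
  rw [List.take_replicate, List.take_replicate, min_eq_left hi.le, min_eq_left hj.le, dsp_rep,
    dsp_rep, add_right_inj, Prod.mk.injEq] at hij
  rw [Fin.mk.injEq]
  fin_cases a <;> simp [stp] at hij <;> omega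

private theorem psum_xdy_rep (p : V) (n : ℕ) (a : Fin 4) :
    psum xdyF p (List.replicate n a) = if a = 1 then n * p.1 else if a = 3 then - (n * p.1) else 0 := by
  induction n generalizing p with
  | zero => simp [psum]
  | succ n ih =>
    rw [List.replicate_succ, psum, ih]
    fin_cases a <;> simp [xdyF, stp] <;> ring

private theorem wd_rep (p c : V) (n : ℕ) (a : Fin 4) :
    psum (wdF c) p (List.replicate n a) =
      if a = 1 then (if c.1 < p.1 ∧ p.2 ≤ c.2 ∧ c.2 < p.2 + n then 1 else 0)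
      else if a = 3 then (if c.1 < p.1 ∧ p.2 - n ≤ c.2 ∧ c.2 < p.2 then -1 else 0) else 0 := by
  induction n generalizing p with
  | zero =>
    simp only [List.replicate_zero, psum, Nat.cast_zero, add_zero, sub_zero]
    split_ifs <;> omega
  | succ n ih =>
    rw [List.replicate_succ, psum, ih]
    obtain ⟨c1, c2⟩ := c
    obtain ⟨p1, p2⟩ := p
    fin_cases a
    · simp [wdF]
    · simp only [wdF, stp]
      simp
      split_ifs <;> omega
    · simp [wdF]
    · simp only [wdF, stp]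
      simp
      split_ifs <;> omega

private theorem mem_sq (J : ℕ) (hJ : 1 ≤ J) (u1 u2 v1 v2 : ℤ) :
    ((∃ i < 2 * J, v1 = u1 - ↑J + ↑i ∧ v2 = u2 - ↑J) ∨
      (∃ i < 2 * J, v1 = u1 - ↑J + 2 * ↑J ∧ v2 = u2 - ↑J + ↑i) ∨
        (∃ i < 2 * J, v1 = u1 - ↑J + 2 * ↑J + -↑i ∧ v2 = u2 - ↑J + 2 * ↑J) ∨
          ∃ i < 2 * J, v1 = u1 - ↑J ∧ v2 = u2 - ↑J + 2 * ↑J + -↑i) ↔
    max (v1 - u1).natAbs (v2 - u2).natAbs = J := by
  constructor
  · rintro (⟨i, hi, h1, h2⟩ | ⟨i, hi, h1, h2⟩ | ⟨i, hi, h1, h2⟩ | ⟨i, hi, h1, h2⟩) <;> omega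
  · intro h
    rcases (show (v2 = u2 - J ∧ u1 - J ≤ v1 ∧ v1 < u1 + J) ∨
      (v1 = u1 + J ∧ u2 - J ≤ v2 ∧ v2 < u2 + J) ∨
      (v2 = u2 + J ∧ u1 - J < v1 ∧ v1 ≤ u1 + J) ∨
      (v1 = u1 - J ∧ u2 - J < v2 ∧ v2 ≤ u2 + J) by omega) with h1 | h1 | h1 | h1
    · exact Or.inl ⟨(v1 - u1 + J).toNat, by omega, by omega, by omega⟩
    · exact Or.inr (Or.inl ⟨(v2 - u2 + J).toNat, by omega, by omega, by omega⟩)
    · exact Or.inr (Or.inr (Or.inl ⟨(u1 + J - v1).toNat, by omega, by omega, by omega⟩))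
    · exact Or.inr (Or.inr (Or.inr ⟨(u2 + J - v2).toNat, by omega, by omega, by omega⟩))

/-- The boundary word of a square of side `n` from its lower left corner, first direction `a`, second
direction `b`. -/
private def bw (n : ℕ) (a b : Fin 4) : List (Fin 4) :=
  List.replicate n a ++ (List.replicate n b ++ (List.replicate n (opp a) ++ List.replicate n (opp b)))

private theorem bw_props (ε : ℤ) (hε : ε = 1 ∨ ε = -1) (u : V) (J : ℕ) (hJ : 1 ≤ J) :
    ∃ (p0 : V) (W : List (Fin 4)), dsp W = 0 ∧ W.length = 8 * J ∧ (verts p0 W).Nodup ∧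
      (∀ v, v ∈ verts p0 W ↔ Bd u J v) ∧ psum xdyF p0 W = ε * (2 * J) ^ 2 ∧
      (∀ c : V, ¬ (u.1 - J ≤ c.1 ∧ c.1 < u.1 + J ∧ u.2 - J ≤ c.2 ∧ c.2 < u.2 + J) →
        psum (wdF c) p0 W = 0) := by
  obtain ⟨u1, u2⟩ := u
  refine ⟨(u1 - J, u2 - J), if ε = 1 then bw (2 * J) 0 1 else bw (2 * J) 1 0, ?_⟩
  rcases hε with rfl | rfl
  · rw [if_pos rfl]
    refine ⟨?_, ?_, ?_, ?_, ?_, ?_⟩
    · simp only [bw, dsp_append, dsp_rep]
      simp [stp, opp]
    · simp only [bw, List.length_append, List.length_replicate]; omega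
    · simp only [bw, verts_append, dsp_rep, List.nodup_append, nodup_rep, true_and,
        List.mem_append, mem_rep]
      refine ⟨⟨?_, ?_⟩, ?_⟩
      all_goals
        simp only [stp, opp]
        simp
        try grind
    · intro v
      obtain ⟨v1, v2⟩ := v
      simp only [bw, verts_append, dsp_rep, List.mem_append, mem_rep, Bd]
      simp [stp, opp]
      exact mem_sq J hJ u1 u2 v1 v2
    · simp only [bw, psum_append, dsp_rep, psum_xdy_rep]
      simp [stp, opp]
      ring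
    · intro c hc
      obtain ⟨c1, c2⟩ := c
      simp only [bw, psum_append, dsp_rep, wd_rep]
      simp [stp, opp]
      simp at hc
      split_ifs <;> omega
  · rw [if_neg (by decide)]
    refine ⟨?_, ?_, ?_, ?_, ?_, ?_⟩
    · simp only [bw, dsp_append, dsp_rep]
      simp [stp, opp]
    · simp only [bw, List.length_append, List.length_replicate]; omega
    · simp only [bw, verts_append, dsp_rep, List.nodup_append, nodup_rep, true_and,
        List.mem_append, mem_rep]
      refine ⟨⟨?_, ?_⟩, ?_⟩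
      all_goals
        simp only [stp, opp]
        simp
        try grind
    · intro v
      obtain ⟨v1, v2⟩ := v
      simp only [bw, verts_append, dsp_rep, List.mem_append, mem_rep, Bd]
      simp [stp, opp]
      rw [max_comm, ← mem_sq J hJ u2 u1 v2 v1]
      constructor
      · rintro (⟨i, hi, h1, h2⟩ | ⟨i, hi, h1, h2⟩ | ⟨i, hi, h1, h2⟩ | ⟨i, hi, h1, h2⟩)
        · exact Or.inl ⟨i, hi, h2, h1⟩
        · exact Or.inr (Or.inl ⟨i, hi, h2, h1⟩)
        · exact Or.inr (Or.inr (Or.inl ⟨i, hi, h2, h1⟩))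
        · exact Or.inr (Or.inr (Or.inr ⟨i, hi, h2, h1⟩))
      · rintro (⟨i, hi, h1, h2⟩ | ⟨i, hi, h1, h2⟩ | ⟨i, hi, h1, h2⟩ | ⟨i, hi, h1, h2⟩)
        · exact Or.inl ⟨i, hi, h2, h1⟩
        · exact Or.inr (Or.inl ⟨i, hi, h2, h1⟩)
        · exact Or.inr (Or.inr (Or.inl ⟨i, hi, h2, h1⟩))
        · exact Or.inr (Or.inr (Or.inr ⟨i, hi, h2, h1⟩))
    · simp only [bw, psum_append, dsp_rep, psum_xdy_rep]
      simp [stp, opp]
      ring
    · intro c hc
      obtain ⟨c1, c2⟩ := c
      simp only [bw, psum_append, dsp_rep, wd_rep]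
      simp [stp, opp]
      simp at hc
      split_ifs <;> omega

theorem arcs (ε : ℤ) (hε : ε = 1 ∨ ε = -1) (u r r' : V) (J : ℕ) (hJ : 1 ≤ J) (hr : Bd u J r)
    (hr' : Bd u J r') (hne : r ≠ r') :
    ∃ α ρ : List (Fin 4), dsp α = r' - r ∧ dsp ρ = r - r' ∧ α.length + ρ.length = 8 * J ∧
      (verts r α ++ verts r' ρ).Nodup ∧ (∀ v, v ∈ verts r α ∨ v ∈ verts r' ρ → Bd u J v) ∧
      psum xdyF r (α ++ ρ) = ε * (2 * J) ^ 2 ∧
      (∀ c : V, ¬ (u.1 - J ≤ c.1 ∧ c.1 < u.1 + J ∧ u.2 - J ≤ c.2 ∧ c.2 < u.2 + J) →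
        wd r (α ++ ρ) c = 0) := by
  obtain ⟨p0, W, h0, hlen, hnd, hmem, hx, hw⟩ := bw_props ε hε u J hJ
  obtain ⟨k, hk, hk2⟩ := (mem_verts p0 W r).1 ((hmem r).2 hr)
  obtain ⟨k', hk', hk2'⟩ := (mem_verts p0 W r').1 ((hmem r').2 hr')
  have hkk : k ≠ k' := by
    rintro rfl
    exact hne (hk2.symm.trans hk2')
  obtain ⟨α, ρ, h1, h2, h3, h4, h5⟩ := split_gen p0 W h0 k k' hkk hk hk'
  rw [hk2, hk2'] at h1 h2 h4
  rw [hk2] at h5
  refine ⟨α, ρ, h1, h2, by rw [h3, hlen], h4.nodup_iff.2 hnd, ?_, ?_, ?_⟩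
  · intro v hv
    rw [← hmem, ← h4.mem_iff, List.mem_append]
    exact hv
  · rw [h5, hx]
  · intro c hc
    rw [wd, h5]
    exact hw c hc

end Pool.Agent.Helper2.QP
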