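import Pool.Agent.Helper2.QP.Defs

/-!
# Basic lemmas on lattice words
-/

set_option autoImplicit false

namespace Pool.Agent.Helper2.QP

theorem dsp_append (l₁ l₂ : List (Fin 4)) : dsp (l₁ ++ l₂) = dsp l₁ + dsp l₂ := by
  induction l₁ with
  | nil => simp [dsp]
  | cons a l ih => simp [dsp, ih, add_assoc]

theorem verts_append (p : V) (l₁ l₂ : List (Fin 4)) :
    verts p (l₁ ++ l₂) = verts p l₁ ++ verts (p + dsp l₁) l₂ := by
  induction l₁ generalizing p with
  | nil => simp [verts, dsp]
  | cons a l ih => simp [verts, dsp, ih, add_assoc]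

theorem psum_append (F : V → Fin 4 → ℤ) (p : V) (l₁ l₂ : List (Fin 4)) :
    psum F p (l₁ ++ l₂) = psum F p l₁ + psum F (p + dsp l₁) l₂ := by
  induction l₁ generalizing p with
  | nil => simp [psum, dsp]
  | cons a l ih => simp [psum, dsp, ih, add_assoc]

theorem length_verts (p : V) (l : List (Fin 4)) : (verts p l).length = l.length := by
  induction l generalizing p with
  | nil => rfl
  | cons a l ih => simp [verts, ih]

theorem verts_add (p t : V) (l : List (Fin 4)) : verts (p + t) l = (verts p l).map (· + t) := by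
  induction l generalizing p with
  | nil => rfl
  | cons a l ih =>
    simp only [verts, List.map_cons]
    rw [← ih]
    congr 2
    abel

theorem verts_getElem (p : V) (l : List (Fin 4)) (i : ℕ) (h : i < (verts p l).length) :
    (verts p l)[i] = p + dsp (l.take i) := by
  induction l generalizing p i with
  | nil => simp [verts] at h
  | cons a l ih =>
    cases i with
    | zero => simp [verts, dsp]
    | succ i =>
      simp only [verts, List.getElem_cons_succ, List.take_succ_cons, dsp]
      rw [ih]
      rw [add_assoc]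

theorem mem_verts (p : V) (l : List (Fin 4)) (v : V) :
    v ∈ verts p l ↔ ∃ i < l.length, p + dsp (l.take i) = v := by
  rw [List.mem_iff_getElem]
  constructor
  · rintro ⟨i, h, rfl⟩
    exact ⟨i, by rwa [length_verts] at h, (verts_getElem p l i h).symm⟩
  · rintro ⟨i, h, rfl⟩
    exact ⟨i, by rwa [length_verts], verts_getElem p l i _⟩

theorem mem_verts_zero (l : List (Fin 4)) (v : V) :
    v ∈ verts 0 l ↔ ∃ i < l.length, vtx l i = v := by
  rw [mem_verts]
  simp [vtx]

theorem vtx_inj (l : List (Fin 4)) (h : IsSAP l) {i j : ℕ} (hi : i < l.length) (hj : j < l.length)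
    (hij : vtx l i = vtx l j) : i = j := by
  have h1 := h.2
  rw [List.nodup_iff_injective_getElem] at h1
  have h2 := @h1 ⟨i, by rwa [length_verts]⟩ ⟨j, by rwa [length_verts]⟩ (by
    simp only [verts_getElem]
    simpa [vtx] using hij)
  simpa using h2

theorem opp_opp (a : Fin 4) : opp (opp a) = a := by fin_cases a <;> rfl

theorem stp_opp (a : Fin 4) : stp (opp a) = - stp a := by fin_cases a <;> rfl

theorem stp_ne_zero (a : Fin 4) : stp a ≠ 0 := by fin_cases a <;> simp [stp]

theorem rev_nil : rev [] = [] := rfl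

theorem rev_cons (a : Fin 4) (l : List (Fin 4)) : rev (a :: l) = rev l ++ [opp a] := by
  simp [rev]

theorem rev_append (l₁ l₂ : List (Fin 4)) : rev (l₁ ++ l₂) = rev l₂ ++ rev l₁ := by
  simp [rev]

theorem rev_rev (l : List (Fin 4)) : rev (rev l) = l := by
  induction l with
  | nil => rfl
  | cons a l ih => rw [rev_cons, rev_append, ih]; simp [rev, opp_opp]

theorem length_rev (l : List (Fin 4)) : (rev l).length = l.length := by simp [rev]

theorem dsp_rev (l : List (Fin 4)) : dsp (rev l) = - dsp l := by
  induction l with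
  | nil => simp [rev, dsp]
  | cons a l ih =>
    rw [rev_cons, dsp_append, ih]
    simp only [dsp, stp_opp]
    abel

theorem verts_rev (p : V) (l : List (Fin 4)) :
    verts (p + dsp l) (rev l) ++ [p] = (verts p l ++ [p + dsp l]).reverse := by
  induction l generalizing p with
  | nil => simp [rev, verts, dsp]
  | cons a l ih =>
    rw [rev_cons, verts_append]
    have h1 := ih (p + stp a)
    simp only [verts, dsp, List.cons_append, List.reverse_cons]
    rw [← add_assoc, ← h1, dsp_rev]
    simp

theorem psum_rev (F : V → Fin 4 → ℤ) (hF : ∀ p a, F (p + stp a) (opp a) = - F p a) (p : V)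
    (l : List (Fin 4)) : psum F (p + dsp l) (rev l) = - psum F p l := by
  induction l generalizing p with
  | nil => simp [rev, psum]
  | cons a l ih =>
    rw [rev_cons, psum_append, dsp_rev]
    have h1 := ih (p + stp a)
    simp only [psum, dsp]
    rw [add_assoc] at h1
    rw [h1]
    have h2 : p + (stp a + dsp l) + - dsp l = p + stp a := by abel
    rw [h2, hF]
    ring

theorem psum_rotate (F : V → Fin 4 → ℤ) (p : V) (X Y : List (Fin 4)) (h : dsp (X ++ Y) = 0) :
    psum F (p + dsp X) (Y ++ X) = psum F p (X ++ Y) := by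
  rw [psum_append, psum_append, add_assoc, ← dsp_append, h, add_zero, add_comm]

theorem verts_rotate_perm (p : V) (X Y : List (Fin 4)) (h : dsp (X ++ Y) = 0) :
    (verts (p + dsp X) (Y ++ X)).Perm (verts p (X ++ Y)) := by
  rw [verts_append, verts_append, add_assoc, ← dsp_append, h, add_zero]
  exact List.perm_append_comm

theorem nodup_verts_add (p t : V) (l : List (Fin 4)) :
    (verts (p + t) l).Nodup ↔ (verts p l).Nodup := by
  rw [verts_add]
  exact List.nodup_map_iff (add_left_injective t)

theorem isSAP_of_nodup (p : V) (l : List (Fin 4)) (h0 : dsp l = 0) (h : (verts p l).Nodup) :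
    IsSAP l := by
  refine ⟨h0, ?_⟩
  rw [← nodup_verts_add 0 p, zero_add]
  exact h

theorem IsSAP.nodup (l : List (Fin 4)) (h : IsSAP l) (p : V) : (verts p l).Nodup := by
  rw [← zero_add p, nodup_verts_add]
  exact h.2

theorem IsSAP.rotate' {X Y : List (Fin 4)} (h : IsSAP (X ++ Y)) : IsSAP (Y ++ X) := by
  refine isSAP_of_nodup (0 + dsp X) _ ?_ ?_
  · rw [dsp_append, add_comm, ← dsp_append]
    exact h.1
  · exact (verts_rotate_perm 0 X Y h.1).nodup_iff.2 h.2

theorem IsSAP.rotate {l : List (Fin 4)} (h : IsSAP l) (k : ℕ) (hk : k ≤ l.length) :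
    IsSAP (l.rotate k) := by
  rw [List.rotate_eq_drop_append_take hk]
  apply IsSAP.rotate'
  rwa [List.take_append_drop]

theorem IsSAP.rev {l : List (Fin 4)} (h : IsSAP l) : IsSAP (rev l) := by
  have h0 : dsp (QP.rev l) = 0 := by rw [dsp_rev, h.1, neg_zero]
  refine ⟨h0, ?_⟩
  have h1 := verts_rev 0 l
  rw [h.1, add_zero] at h1
  cases l with
  | nil => simp [QP.rev, verts]
  | cons a l =>
    have h2 : (verts 0 (QP.rev (a :: l)) ++ [(0 : V)]).Perm (verts 0 (a :: l) ++ [(0 : V)]) := by
      rw [h1]
      exact List.reverse_perm _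
    have h3 := (List.perm_append_right_iff [(0 : V)]).1 h2
    exact h3.nodup_iff.2 h.2

theorem xdyF_add (p t : V) (a : Fin 4) : xdyF (p + t) a = xdyF p a + t.1 * (stp a).2 := by
  simp [xdyF, add_mul]

theorem xdyF_anti (p : V) (a : Fin 4) : xdyF (p + stp a) (opp a) = - xdyF p a := by
  fin_cases a <;> simp [xdyF, stp, opp]

theorem psum_xdy_add (p t : V) (l : List (Fin 4)) :
    psum xdyF (p + t) l = psum xdyF p l + t.1 * (dsp l).2 := by
  induction l generalizing p with
  | nil => simp [psum, dsp]
  | cons a l ih =>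
    have h1 := ih (p + stp a)
    simp only [psum, dsp, Prod.snd_add, mul_add]
    rw [xdyF_add, add_right_comm p t, h1]
    ring

theorem psum_xdy_closed (p : V) (l : List (Fin 4)) (h : dsp l = 0) : psum xdyF p l = xdy l := by
  have h1 := psum_xdy_add 0 p l
  rw [zero_add, h] at h1
  simpa [xdy] using h1

theorem wdF_add (c p t : V) (a : Fin 4) : wdF (c + t) (p + t) a = wdF c p a := by
  simp only [wdF, Prod.fst_add, Prod.snd_add, add_lt_add_iff_right, add_left_inj]
  congr 1
  have h1 : (c.2 + t.2 = p.2 + t.2 - 1) ↔ (c.2 = p.2 - 1) := by omega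
  simp only [h1]

theorem wdF_anti (c p : V) (a : Fin 4) : wdF c (p + stp a) (opp a) = - wdF c p a := by
  fin_cases a <;> simp only [wdF, stp, opp] <;> simp <;> grind

theorem wd_add (p t : V) (l : List (Fin 4)) (c : V) : wd (p + t) l (c + t) = wd p l c := by
  unfold wd
  induction l generalizing p with
  | nil => simp [psum]
  | cons a l ih =>
    have h1 := ih (p + stp a)
    simp only [psum]
    rw [wdF_add, add_right_comm p t, h1]

theorem lft_add (u t : V) (a : Fin 4) : lft (u + t) a = lft u a + t := by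
  simp only [lft]
  abel

theorem rgt_add (u t : V) (a : Fin 4) : rgt (u + t) a = rgt u a + t := by
  simp only [rgt]
  abel

theorem xdy_rotate' (X Y : List (Fin 4)) (h : dsp (X ++ Y) = 0) : xdy (Y ++ X) = xdy (X ++ Y) := by
  have h0 : dsp (Y ++ X) = 0 := by rw [dsp_append, add_comm, ← dsp_append]; exact h
  rw [← psum_xdy_closed (0 + dsp X) (Y ++ X) h0, psum_rotate xdyF 0 X Y h]
  rfl

theorem area_rotate' (X Y : List (Fin 4)) (h : dsp (X ++ Y) = 0) : area (Y ++ X) = area (X ++ Y) := by
  rw [area, area, xdy_rotate' X Y h]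

theorem area_rotate (l : List (Fin 4)) (h : dsp l = 0) (k : ℕ) (hk : k ≤ l.length) :
    area (l.rotate k) = area l := by
  rw [List.rotate_eq_drop_append_take hk, area_rotate', List.take_append_drop]
  rwa [List.take_append_drop]

theorem xdy_rev (l : List (Fin 4)) (h : dsp l = 0) : xdy (rev l) = - xdy l := by
  have h1 := psum_rev xdyF xdyF_anti 0 l
  rw [h, add_zero] at h1
  exact h1

theorem area_rev (l : List (Fin 4)) (h : dsp l = 0) : area (rev l) = area l := by
  rw [area, area, xdy_rev l h, Int.natAbs_neg]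

theorem stp_bound (a : Fin 4) : |(stp a).1| ≤ 1 ∧ |(stp a).2| ≤ 1 := by
  fin_cases a <;> simp [stp]

theorem dsp_bound (l : List (Fin 4)) : |(dsp l).1| ≤ l.length ∧ |(dsp l).2| ≤ l.length := by
  induction l with
  | nil => simp [dsp]
  | cons a l ih =>
    have h1 := stp_bound a
    simp only [dsp, Prod.fst_add, Prod.snd_add, List.length_cons, Nat.cast_add, Nat.cast_one]
    constructor
    · refine (abs_add_le _ _).trans ?_
      linarith [h1.1, ih.1]
    · refine (abs_add_le _ _).trans ?_
      linarith [h1.2, ih.2]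

theorem verts_bound (l : List (Fin 4)) (v : V) (h : v ∈ verts 0 l) :
    |v.1| ≤ l.length ∧ |v.2| ≤ l.length := by
  rw [mem_verts_zero] at h
  obtain ⟨i, hi, rfl⟩ := h
  have h1 := dsp_bound (l.take i)
  have h2 : ((l.take i).length : ℤ) ≤ l.length := by
    simp
  exact ⟨h1.1.trans h2, h1.2.trans h2⟩

theorem psum_le (F : V → Fin 4 → ℤ) (M : ℤ) (p : V) (l : List (Fin 4))
    (h : ∀ v ∈ verts p l, ∀ a, |F v a| ≤ M) : |psum F p l| ≤ l.length * M := by
  induction l generalizing p with
  | nil => simp [psum]
  | cons a l ih =>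
    have h1 := ih (p + stp a) (fun v hv b => h v (by simp [verts, hv]) b)
    have h2 := h p (by simp [verts]) a
    simp only [psum, List.length_cons, Nat.cast_add, Nat.cast_one, add_mul, one_mul]
    refine (abs_add_le _ _).trans ?_
    linarith

theorem area_le (l : List (Fin 4)) : area l ≤ l.length ^ 2 := by
  have h1 : |xdy l| ≤ l.length * (l.length : ℤ) := by
    apply psum_le
    intro v hv a
    have h2 := (verts_bound l v hv).1
    have h3 := (stp_bound a).2
    rw [xdyF, abs_mul]
    have h4 : (0 : ℤ) ≤ |v.1| := abs_nonneg _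
    nlinarith [abs_nonneg (stp a).2]
  unfold area
  have h5 : ((xdy l).natAbs : ℤ) = |xdy l| := Int.natCast_natAbs _
  have h6 : ((xdy l).natAbs : ℤ) ≤ (l.length : ℤ) ^ 2 := by rw [h5]; linarith [sq (l.length : ℤ)]
  exact_mod_cast h6

theorem mem_sap (n : ℕ) (l : List (Fin 4)) : l ∈ sap n ↔ l.length = n ∧ IsSAP l := by
  classical
  simp only [sap, Finset.mem_filter, Finset.mem_image, Finset.mem_univ, true_and]
  constructor
  · rintro ⟨⟨f, rfl⟩, h⟩
    exact ⟨by simp, h⟩
  · rintro ⟨rfl, h⟩
    exact ⟨⟨l.get, List.ofFn_get l⟩, h⟩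

end Pool.Agent.Helper2.QP
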