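import Pool.Agent.Helper2.QP.Cut

/-!
# QP-COUNT: the cut inequality for the partition function

Paper proof.  By `cut` every `l ∈ sap N` has data `(k, J, A, B, τ₁, τ₂)` (choose).  The map
`l ↦ (k, A.length, J, τ₁.length, τ₂.length, A ++ rev τ₁, τ₂ ++ B)` is injective (`A` is the initial part of length `A.length`, `B` the
final part of length `N - A.length`, and `l` is a rotation of `A ++ B` by `N - k`).  Hence
`Zn N q ≤ ∑_{(k, i, J, t₁, t₂) ∈ T} q ^ (4 J²) Zn (i + t₁) q * Zn (N - i + t₂) q` with `T` of size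
`≤ N · (N+1) · (N+1) · (12 N + 7)² ≤ (13 N)^5`; one term is at least the average.
-/

set_option autoImplicit false

namespace Pool.Agent.Helper2.QP

/-- The index set of the tuples `(k, i, J, t₁, t₂)`. -/
def cutIdx (N : ℕ) : Finset (ℕ × ℕ × ℕ × ℕ × ℕ) :=
  ((Finset.range N) ×ˢ (Finset.range (N + 1)) ×ˢ (Finset.range (N + 1)) ×ˢ
    (Finset.range (12 * N + 7)) ×ˢ (Finset.range (12 * N + 7))).filter
    (fun τ => N ≤ 4 * τ.2.1 ∧ 4 * τ.2.1 ≤ 3 * N ∧ τ.2.2.2.1 ≤ 12 * τ.2.2.1 + 6 ∧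
      τ.2.2.2.2 ≤ 12 * τ.2.2.1 + 6)

private theorem card_cutIdx (N : ℕ) (hN : 20 ≤ N) : ((cutIdx N).card : ℝ) ≤ (13 * (N : ℝ)) ^ 5 := by
  have h1 : (cutIdx N).card ≤ N * ((N + 1) * ((N + 1) * ((12 * N + 7) * (12 * N + 7)))) := by
    refine (Finset.card_filter_le _ _).trans ?_
    simp only [Finset.card_product, Finset.card_range]
    exact le_rfl
  have h2 : N * ((N + 1) * ((N + 1) * ((12 * N + 7) * (12 * N + 7)))) ≤ (13 * N) ^ 5 := by
    have h3 : N + 1 ≤ 13 * N := by omega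
    have h4 : 12 * N + 7 ≤ 13 * N := by omega
    have h5 : N ≤ 13 * N := by omega
    calc N * ((N + 1) * ((N + 1) * ((12 * N + 7) * (12 * N + 7))))
        ≤ (13 * N) * ((13 * N) * ((13 * N) * ((13 * N) * (13 * N)))) := by gcongr
      _ = (13 * N) ^ 5 := by ring
  have h6 : ((cutIdx N).card : ℝ) ≤ (((13 * N) ^ 5 : ℕ) : ℝ) := by exact_mod_cast h1.trans h2
  simpa using h6

theorem cut_Zn_nonneg (q : ℝ) (hq0 : 0 < q) (n : ℕ) : 0 ≤ Zn n q :=
  Finset.sum_nonneg fun _ _ => pow_nonneg hq0.le _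

theorem cut_sum_le (q : ℝ) (hq0 : 0 < q) (hq1 : q < 1) (N : ℕ) (hN : 20 ≤ N) :
    Zn N q ≤ ∑ τ ∈ cutIdx N,
      (q ^ (4 * τ.2.2.1 ^ 2) * Zn (τ.2.1 + τ.2.2.2.1) q * Zn (N - τ.2.1 + τ.2.2.2.2) q) := by
  classical
  have hcut : ∀ l : List (Fin 4), ∃ d : (Σ _ : ℕ × ℕ × ℕ × ℕ × ℕ, List (Fin 4) × List (Fin 4)),
      l ∈ sap N → d.1 ∈ cutIdx N ∧ d.2.1 ∈ sap (d.1.2.1 + d.1.2.2.2.1) ∧
        d.2.2 ∈ sap (N - d.1.2.1 + d.1.2.2.2.2) ∧
        area d.2.1 + area d.2.2 + 4 * d.1.2.2.1 ^ 2 ≤ area l ∧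
        l.rotate d.1.1 = d.2.1.take d.1.2.1 ++ d.2.2.drop d.1.2.2.2.2 := by
    intro l
    by_cases hl : l ∈ sap N
    · rw [mem_sap] at hl
      obtain ⟨hlen, hsap⟩ := hl
      obtain ⟨k, J, A, B, τ₁, τ₂, hk, hAB, hA, hB, h1, h2, hJ, hs1, hs2, har⟩ :=
        cut l hsap (by omega)
      have hAl : A.length + B.length = N := by
        have := congrArg List.length hAB
        simp only [List.length_rotate, List.length_append] at this
        omega
      refine ⟨⟨(k, A.length, J, τ₁.length, τ₂.length), (A ++ rev τ₁, τ₂ ++ B)⟩, fun _ => ?_⟩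
      refine ⟨?_, ?_, ?_, har, ?_⟩
      · simp only [cutIdx, Finset.mem_filter, Finset.mem_product, Finset.mem_range]
        refine ⟨⟨by omega, by omega, by omega, by omega, by omega⟩, by omega, by omega, h1, h2⟩
      · rw [mem_sap]
        exact ⟨by simp [length_rev], hs1⟩
      · rw [mem_sap]
        refine ⟨?_, hs2⟩
        simp only [List.length_append]
        omega
      · simp [hAB]
    · exact ⟨⟨(0, 0, 0, 0, 0), ([], [])⟩, fun h => absurd h hl⟩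
  choose g hg using hcut
  have hinj : Set.InjOn g (sap N : Finset (List (Fin 4))) := by
    intro l hl l' hl' h
    have e1 := (hg l hl).2.2.2.2
    have e2 := (hg l' hl').2.2.2.2
    rw [← h, ← e1] at e2
    exact (List.rotate_injective _ e2).symm
  set w : (Σ _ : ℕ × ℕ × ℕ × ℕ × ℕ, List (Fin 4) × List (Fin 4)) → ℝ :=
    fun d => q ^ (4 * d.1.2.2.1 ^ 2) * (q ^ area d.2.1 * q ^ area d.2.2) with hw
  have hwnn : ∀ d, 0 ≤ w d := fun d => by positivity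
  set U : Finset (Σ _ : ℕ × ℕ × ℕ × ℕ × ℕ, List (Fin 4) × List (Fin 4)) :=
    (cutIdx N).sigma (fun τ => (sap (τ.2.1 + τ.2.2.2.1)) ×ˢ (sap (N - τ.2.1 + τ.2.2.2.2))) with hU
  calc Zn N q = ∑ l ∈ sap N, q ^ area l := rfl
    _ ≤ ∑ l ∈ sap N, w (g l) := by
        refine Finset.sum_le_sum fun l hl => ?_
        have h := (hg l hl).2.2.2.1
        rw [hw]
        simp only
        rw [← pow_add, ← pow_add]
        exact pow_le_pow_of_le_one hq0.le hq1.le (by omega)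
    _ = ∑ d ∈ (sap N).image g, w d := (Finset.sum_image hinj).symm
    _ ≤ ∑ d ∈ U, w d := by
        refine Finset.sum_le_sum_of_subset_of_nonneg ?_ (fun d _ _ => hwnn d)
        intro d hd
        rw [Finset.mem_image] at hd
        obtain ⟨l, hl, rfl⟩ := hd
        have h := hg l hl
        rw [hU, Finset.mem_sigma, Finset.mem_product]
        exact ⟨h.1, h.2.1, h.2.2.1⟩
    _ = ∑ τ ∈ cutIdx N,
      (q ^ (4 * τ.2.2.1 ^ 2) * Zn (τ.2.1 + τ.2.2.2.1) q * Zn (N - τ.2.1 + τ.2.2.2.2) q) := by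
        rw [hU, Finset.sum_sigma]
        refine Finset.sum_congr rfl fun τ _ => ?_
        simp only [hw]
        rw [← Finset.mul_sum, mul_assoc]
        congr 1
        rw [Finset.sum_product, Zn, Zn, Finset.sum_mul_sum]

theorem counting (q : ℝ) (hq0 : 0 < q) (hq1 : q < 1) (N : ℕ) (hN : 20 ≤ N) :
    ∃ i J t₁ t₂ : ℕ, N ≤ 4 * i ∧ 4 * i ≤ 3 * N ∧ t₁ ≤ 12 * J + 6 ∧ t₂ ≤ 12 * J + 6 ∧
      Zn N q ≤ (13 * (N : ℝ)) ^ 5 * (q ^ (4 * J ^ 2) * Zn (i + t₁) q * Zn (N - i + t₂) q) := by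
  by_contra hcon
  push Not at hcon
  have hC : (0 : ℝ) < (13 * (N : ℝ)) ^ 5 := by
    have : (0 : ℝ) < N := by exact_mod_cast (by omega : 0 < N)
    positivity
  have hpos : 0 < Zn N q := by
    have h0 := hcon (N / 2) 0 0 0 (by omega) (by omega) (by omega) (by omega)
    refine lt_of_le_of_lt ?_ h0
    have h1 := cut_Zn_nonneg q hq0 (N / 2 + 0)
    have h2 := cut_Zn_nonneg q hq0 (N - N / 2 + 0)
    positivity
  have hsum := cut_sum_le q hq0 hq1 N hN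
  have hne : (cutIdx N).Nonempty := by
    rw [Finset.nonempty_iff_ne_empty]
    intro he
    rw [he, Finset.sum_empty] at hsum
    linarith
  have hlt : ∑ τ ∈ cutIdx N,
      (q ^ (4 * τ.2.2.1 ^ 2) * Zn (τ.2.1 + τ.2.2.2.1) q * Zn (N - τ.2.1 + τ.2.2.2.2) q)
      < ∑ _τ ∈ cutIdx N, Zn N q / (13 * (N : ℝ)) ^ 5 := by
    refine Finset.sum_lt_sum_of_nonempty hne fun τ hτ => ?_
    rw [lt_div_iff₀ hC, mul_comm]
    simp only [cutIdx, Finset.mem_filter] at hτ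
    exact hcon τ.2.1 τ.2.2.1 τ.2.2.2.1 τ.2.2.2.2 hτ.2.1 hτ.2.2.1 hτ.2.2.2.1 hτ.2.2.2.2
  have hcard := card_cutIdx N hN
  rw [Finset.sum_const, nsmul_eq_mul] at hlt
  have hle : ((cutIdx N).card : ℝ) * (Zn N q / (13 * (N : ℝ)) ^ 5) ≤ Zn N q := by
    rw [← mul_div_assoc, div_le_iff₀ hC, mul_comm (Zn N q)]
    exact mul_le_mul_of_nonneg_right hcard hpos.le
  linarith

end Pool.Agent.Helper2.QP
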