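import Pool.Agent.Helper2.QP.Count

/-!
# QP-COUNT2: the cut inequality with the sharp power of `N`

Paper proof.  As in `Count.lean` (`sum_le`, make it public or copy it):
`Zn N q ≤ ∑_{k < N} ∑_{i} ∑_J ∑_{t₁, t₂ ≤ 12 J + 6} q ^ (4 J²) Zn (i + t₁) q * Zn (N - i + t₂) q`, `N ≤ 4 i ≤ 3 N`.  The number of pairs
`(k, i)` is at most `N · (N/2 + 1) ≤ N²`.  Let `M` be the maximum of `(J+1)⁴ q ^ (4 J²) Zn (i + t₁) q * Zn (N - i + t₂) q`.  Then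
`Zn N q ≤ N² · ∑_J (12 J + 7)² M / (J+1)⁴ ≤ N² · M · ∑_J 144 / (J+1)² ≤ 288 N² M` (`∑_{J ≤ N} 1 / (J+1)² ≤ 2`).
-/

set_option autoImplicit false

namespace Pool.Agent.Helper2.QP

private theorem sum_inv_sq (n : ℕ) :
    ∑ J ∈ Finset.range (n + 1), 1 / ((J : ℝ) + 1) ^ 2 ≤ 2 - 1 / ((n : ℝ) + 1) := by
  induction n with
  | zero => norm_num
  | succ n ih =>
    rw [Finset.sum_range_succ]
    have hn : (0 : ℝ) ≤ n := Nat.cast_nonneg n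
    have h : 1 / (((n + 1 : ℕ) : ℝ) + 1) ^ 2 ≤ 1 / ((n : ℝ) + 1) - 1 / (((n + 1 : ℕ) : ℝ) + 1) := by
      push_cast
      rw [div_sub_div _ _ (by positivity) (by positivity), div_le_div_iff₀ (by positivity) (by positivity)]
      nlinarith
    linarith

private theorem sum_idx (Z : ℝ) (hZ : 0 ≤ Z) (N : ℕ) (hN : 20 ≤ N) :
    ∑ τ ∈ cutIdx N, Z / (288 * (N : ℝ) ^ 2 * ((τ.2.2.1 : ℝ) + 1) ^ 4) ≤ Z := by
  classical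
  have hN0 : (20 : ℝ) ≤ N := by exact_mod_cast hN
  set S : Finset (Σ _ : ℕ × ℕ × ℕ, ℕ × ℕ) :=
    ((Finset.range N) ×ˢ (Finset.Icc (N / 4) (3 * N / 4)) ×ˢ (Finset.range (N + 1))).sigma
      (fun κ => (Finset.range (12 * κ.2.2 + 7)) ×ˢ (Finset.range (12 * κ.2.2 + 7))) with hS
  set w : (Σ _ : ℕ × ℕ × ℕ, ℕ × ℕ) → ℝ := fun d => Z / (288 * (N : ℝ) ^ 2 * ((d.1.2.2 : ℝ) + 1) ^ 4)
    with hw
  set g : ℕ × ℕ × ℕ × ℕ × ℕ → (Σ _ : ℕ × ℕ × ℕ, ℕ × ℕ) :=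
    fun τ => ⟨(τ.1, τ.2.1, τ.2.2.1), (τ.2.2.2.1, τ.2.2.2.2)⟩ with hg
  have hinj : Set.InjOn g (cutIdx N : Finset (ℕ × ℕ × ℕ × ℕ × ℕ)) := by
    rintro ⟨a, b, c, d, e⟩ _ ⟨a', b', c', d', e'⟩ _ h
    simp only [hg, Sigma.mk.injEq, Prod.mk.injEq, heq_eq_eq] at h
    obtain ⟨⟨rfl, rfl, rfl⟩, rfl, rfl⟩ := h
    rfl
  have hwnn : ∀ d, 0 ≤ w d := fun d => by
    simp only [hw]
    positivity
  have h1 : ∑ τ ∈ cutIdx N, Z / (288 * (N : ℝ) ^ 2 * ((τ.2.2.1 : ℝ) + 1) ^ 4) ≤ ∑ d ∈ S, w d := by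
    have e : ∑ τ ∈ cutIdx N, Z / (288 * (N : ℝ) ^ 2 * ((τ.2.2.1 : ℝ) + 1) ^ 4)
        = ∑ d ∈ (cutIdx N).image g, w d := by
      rw [Finset.sum_image hinj]
    rw [e]
    refine Finset.sum_le_sum_of_subset_of_nonneg ?_ (fun d _ _ => hwnn d)
    intro d hd
    rw [Finset.mem_image] at hd
    obtain ⟨⟨a, b, c, t, t'⟩, hτ, rfl⟩ := hd
    simp only [cutIdx, Finset.mem_filter, Finset.mem_product, Finset.mem_range] at hτ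
    obtain ⟨⟨k1, k2, k3, k4, k5⟩, k6, k7, k8, k9⟩ := hτ
    simp only [hg, hS, Finset.mem_sigma, Finset.mem_product, Finset.mem_range, Finset.mem_Icc]
    refine ⟨⟨k1, ⟨by omega, by omega⟩, k3⟩, by omega, by omega⟩
  refine h1.trans ?_
  rw [hS, Finset.sum_sigma]
  have h2 : ∀ κ ∈ (Finset.range N) ×ˢ (Finset.Icc (N / 4) (3 * N / 4)) ×ˢ (Finset.range (N + 1)),
      ∑ x ∈ (Finset.range (12 * κ.2.2 + 7)) ×ˢ (Finset.range (12 * κ.2.2 + 7)), w ⟨κ, x⟩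
        ≤ Z / (2 * (N : ℝ) ^ 2) * (1 / ((κ.2.2 : ℝ) + 1) ^ 2) := by
    intro κ _
    simp only [hw]
    rw [Finset.sum_const, Finset.card_product, Finset.card_range, nsmul_eq_mul]
    push_cast
    have hJ : (0 : ℝ) ≤ κ.2.2 := Nat.cast_nonneg _
    rw [div_mul_div_comm, mul_one, ← mul_div_assoc, div_le_div_iff₀ (by positivity) (by positivity)]
    have h3 : (12 * (κ.2.2 : ℝ) + 7) * (12 * κ.2.2 + 7) ≤ 144 * ((κ.2.2 : ℝ) + 1) ^ 2 := by nlinarith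
    have h4 : 0 ≤ Z * (2 * (N : ℝ) ^ 2 * ((κ.2.2 : ℝ) + 1) ^ 2) := by positivity
    calc (12 * (κ.2.2 : ℝ) + 7) * (12 * κ.2.2 + 7) * Z * (2 * (N : ℝ) ^ 2 * ((κ.2.2 : ℝ) + 1) ^ 2)
        = (12 * (κ.2.2 : ℝ) + 7) * (12 * κ.2.2 + 7) * (Z * (2 * (N : ℝ) ^ 2 * ((κ.2.2 : ℝ) + 1) ^ 2)) := by
          ring
      _ ≤ 144 * ((κ.2.2 : ℝ) + 1) ^ 2 * (Z * (2 * (N : ℝ) ^ 2 * ((κ.2.2 : ℝ) + 1) ^ 2)) :=
          mul_le_mul_of_nonneg_right h3 h4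
      _ = Z * (288 * (N : ℝ) ^ 2 * ((κ.2.2 : ℝ) + 1) ^ 4) := by ring
  refine (Finset.sum_le_sum h2).trans ?_
  rw [Finset.sum_product]
  simp only []
  rw [Finset.sum_const, Finset.card_range, nsmul_eq_mul, Finset.sum_product]
  simp only []
  rw [Finset.sum_const, Nat.card_Icc, nsmul_eq_mul, ← Finset.mul_sum]
  have h5 := sum_inv_sq N
  have h6 : ∑ J ∈ Finset.range (N + 1), 1 / ((J : ℝ) + 1) ^ 2 ≤ 2 := by
    have : 0 ≤ 1 / ((N : ℝ) + 1) := by positivity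
    linarith
  have h7 : ((3 * N / 4 + 1 - N / 4 : ℕ) : ℝ) ≤ N := by
    have : 3 * N / 4 + 1 - N / 4 ≤ N := by omega
    exact_mod_cast this
  have h8 : 0 ≤ ((3 * N / 4 + 1 - N / 4 : ℕ) : ℝ) := Nat.cast_nonneg _
  have h9 : Z / (2 * (N : ℝ) ^ 2) * ∑ J ∈ Finset.range (N + 1), 1 / ((J : ℝ) + 1) ^ 2
      ≤ Z / (2 * (N : ℝ) ^ 2) * 2 := mul_le_mul_of_nonneg_left h6 (by positivity)
  have h10 : 0 ≤ Z / (2 * (N : ℝ) ^ 2) * ∑ J ∈ Finset.range (N + 1), 1 / ((J : ℝ) + 1) ^ 2 := by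
    have : 0 ≤ ∑ J ∈ Finset.range (N + 1), 1 / ((J : ℝ) + 1) ^ 2 :=
      Finset.sum_nonneg fun _ _ => by positivity
    positivity
  calc (N : ℝ) * (((3 * N / 4 + 1 - N / 4 : ℕ) : ℝ) *
        (Z / (2 * (N : ℝ) ^ 2) * ∑ J ∈ Finset.range (N + 1), 1 / ((J : ℝ) + 1) ^ 2))
      ≤ (N : ℝ) * ((N : ℝ) * (Z / (2 * (N : ℝ) ^ 2) * 2)) := by
        refine mul_le_mul_of_nonneg_left ?_ (by linarith)
        exact mul_le_mul h7 h9 h10 (by linarith)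
    _ = Z := by
        field_simp

theorem counting2 (q : ℝ) (hq0 : 0 < q) (hq1 : q < 1) (N : ℕ) (hN : 20 ≤ N) :
    ∃ i J t₁ t₂ : ℕ, N ≤ 4 * i ∧ 4 * i ≤ 3 * N ∧ t₁ ≤ 12 * J + 6 ∧ t₂ ≤ 12 * J + 6 ∧
      Zn N q ≤ 288 * (N : ℝ) ^ 2 * ((J : ℝ) + 1) ^ 4 *
        (q ^ (4 * J ^ 2) * Zn (i + t₁) q * Zn (N - i + t₂) q) := by
  by_contra hcon
  push Not at hcon
  have hN0 : (20 : ℝ) ≤ N := by exact_mod_cast hN
  have hpos : 0 < Zn N q := by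
    have h0 := hcon (N / 2) 0 0 0 (by omega) (by omega) (by omega) (by omega)
    refine lt_of_le_of_lt ?_ h0
    have h1 := cut_Zn_nonneg q hq0 (N / 2 + 0)
    have h2 := cut_Zn_nonneg q hq0 (N - N / 2 + 0)
    positivity
  have hsum := cut_sum_le q hq0 hq1 N hN
  have hne : (cutIdx N).Nonempty := by
    rw [Finset.nonempty_iff_ne_empty]
    intro he
    rw [he, Finset.sum_empty] at hsum
    linarith
  have hlt : ∑ τ ∈ cutIdx N,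
      (q ^ (4 * τ.2.2.1 ^ 2) * Zn (τ.2.1 + τ.2.2.2.1) q * Zn (N - τ.2.1 + τ.2.2.2.2) q)
      < ∑ τ ∈ cutIdx N, Zn N q / (288 * (N : ℝ) ^ 2 * ((τ.2.2.1 : ℝ) + 1) ^ 4) := by
    refine Finset.sum_lt_sum_of_nonempty hne fun τ hτ => ?_
    rw [lt_div_iff₀ (by positivity), mul_comm]
    simp only [cutIdx, Finset.mem_filter] at hτ
    exact hcon τ.2.1 τ.2.2.1 τ.2.2.2.1 τ.2.2.2.2 hτ.2.1 hτ.2.2.1 hτ.2.2.2.1 hτ.2.2.2.2
  have hle := sum_idx (Zn N q) hpos.le N hN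
  linarith

end Pool.Agent.Helper2.QP
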