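import Pool.Agent.Helper2.QP.Arcs

/-!
# QP-GEO: the two cut paths as words

Paper proof.  L-paths `Lp p q` (horizontal, then vertical): `dsp = q - p`, length `l1 p q`, `verts p (Lp p q) ++ [q]` has no
duplicates and lies in `Bx p q`.
Let `d = l1 u w`, `J = (d - 1) / 2` (natural numbers).
* `J = 0` (`d ≤ 2`): `τ₁ = τ₂ = Lp w u ++ s ++ Lp u' w'`, `s` = the step from `u` to `u'` (empty if `u = u'`).  Length
  `≤ d + 1 + (d + 1) ≤ 6`.  No duplicates: the vertices of the first part are in `Bx u w`, those of the last in `Bx u' w'`; if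
  `u = u'` the only common point `u` is not in `verts w (Lp w u)`.  `τ₁ ++ rev τ₁` has `xdy = 0` and `wd = 0` (`psum_rev`).
* `J ≥ 1`: square `R = u + [-J, J]²`, `u' ∈ R`, `w, w' ∉ R`: points of `R` have `l1` distance `≤ 2J < d` from `u`; for `w'` use the
  hypothesis `hfree`.  `r`, `r'` = nearest points of `R` to `w`, `w'`
  (clamp both coordinates), on the boundary; `Bx w r ⊆ Bx u w`, `Bx w r ∩ R = {r}`, `r' ∈ Bx u' w'`, `Bx w' r' ∩ R = {r'}`.  `r ≠ r'`: otherwise
  `r = u` by `hdis`, but `u` is not on the boundary.  `α, ρ` from `arcs`;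
  `τ₁ = Lp w r ++ α ++ Lp r' w'`, `τ₂ = Lp w r ++ rev ρ ++ Lp r' w'`.  Lengths `≤ d + (d + 1) + 8J ≤ 12J + 5`.  `τ₁ ++ rev τ₂` is a conjugate
  of `α ++ ρ`: `xdy = ε (2J)²` and winding number `0` outside the square; the two cells at the first edge have the corner
  `w ∉ R`, so they are outside the square.
  Everything off the two rectangles is in `R`, at distance `≤ 2J < d` from `u`.
-/

set_option autoImplicit false

namespace Pool.Agent.Helper2.QP

private theorem dsp_replicate (k : ℕ) (a : Fin 4) :
    dsp (List.replicate k a) = ((k : ℤ) * (stp a).1, (k : ℤ) * (stp a).2) := by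
  induction k with
  | zero => simp [dsp]; rfl
  | succ k ih =>
    rw [List.replicate_succ, dsp, ih]
    ext
    · simp; ring
    · simp; ring

private theorem dsp_hs (n : ℤ) : dsp (hs n) = (n, 0) := by
  rw [hs, dsp_replicate]
  split_ifs with h
  · ext
    · simp [stp]; omega
    · simp [stp]
  · have h1 := abs_of_neg (not_le.1 h)
    ext
    · simp [stp]; omega
    · simp [stp]

private theorem dsp_vs (n : ℤ) : dsp (vs n) = (0, n) := by
  rw [vs, dsp_replicate]
  split_ifs with h
  · ext
    · simp [stp]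
    · simp [stp]; omega
  · have h1 := abs_of_neg (not_le.1 h)
    ext
    · simp [stp]
    · simp [stp]; omega

private theorem dsp_Lp (p q : V) : dsp (Lp p q) = q - p := by
  rw [Lp, dsp_append, dsp_hs, dsp_vs]
  ext
  · simp
  · simp

private theorem length_Lp (p q : V) : (Lp p q).length = l1 p q := by
  simp only [Lp, hs, vs, List.length_append, List.length_replicate, l1]
  omega

private theorem stp_l1 (a : Fin 4) : ((stp a).1).natAbs + ((stp a).2).natAbs = 1 := by
  fin_cases a <;> simp [stp]

private theorem l1_le_length (l : List (Fin 4)) (p q : V) (h : dsp l = q - p) :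
    l1 p q ≤ l.length := by
  induction l generalizing p with
  | nil =>
    have h1 : q - p = 0 := by rw [← h]; rfl
    have h2 : q = p := sub_eq_zero.1 h1
    subst h2
    simp [l1]
  | cons a l ih =>
    have h1 := ih (p + stp a) (by
      have h2 : stp a + dsp l = q - p := h
      have h3 : dsp l = q - p - stp a := by rw [← h2]; abel
      rw [h3]; abel)
    have h2 := stp_l1 a
    simp only [l1, Prod.fst_add, Prod.snd_add, List.length_cons] at h1 ⊢
    omega

/-- A word whose length is the distance of its end points: no repetitions, in the rectangle. -/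
private theorem geod (l : List (Fin 4)) (p q : V) (h : dsp l = q - p) (hl : l.length = l1 p q) :
    (verts p l ++ [q]).Nodup ∧ ∀ v ∈ verts p l, Bx p q v ∧ l1 v q ≤ l1 p q ∧ v ≠ q := by
  induction l generalizing p with
  | nil => simp [verts]
  | cons a l ih =>
    have h2 : stp a + dsp l = q - p := h
    have h3 : dsp l = q - (p + stp a) := by
      have h3 : dsp l = q - p - stp a := by rw [← h2]; abel
      rw [h3]; abel
    have h4 := l1_le_length l (p + stp a) q h3
    have h5 := stp_l1 a
    have h6 : l.length = l1 (p + stp a) q := by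
      simp only [l1, Prod.fst_add, Prod.snd_add, List.length_cons] at h4 hl ⊢
      omega
    obtain ⟨h7, h8⟩ := ih (p + stp a) h3 h6
    have h9 : l1 (p + stp a) q < l1 p q := by
      rw [← hl, ← h6]; simp
    have h10 : ∀ v ∈ verts (p + stp a) l, Bx p q v ∧ l1 v q < l1 p q ∧ v ≠ q := by
      intro v hv
      obtain ⟨h11, h12, h13⟩ := h8 v hv
      refine ⟨?_, by omega, h13⟩
      simp only [l1, Bx, Prod.fst_add, Prod.snd_add] at h11 h12 h9 ⊢
      omega
    have h14 : p ≠ q := by
      rintro rfl
      simp [l1] at hl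
    constructor
    · simp only [verts, List.cons_append, List.nodup_cons]
      refine ⟨?_, h7⟩
      intro hm
      rw [List.mem_append] at hm
      rcases hm with hm | hm
      · have h15 := (h10 p hm).2.1
        omega
      · exact h14 (by simpa using hm)
    · intro v hv
      simp only [verts, List.mem_cons] at hv
      rcases hv with rfl | hv
      · refine ⟨?_, le_refl _, h14⟩
        simp only [Bx]
        omega
      · obtain ⟨h11, h12, h13⟩ := h10 v hv
        exact ⟨h11, h12.le, h13⟩

private theorem nodup_Lp (p q : V) : (verts p (Lp p q) ++ [q]).Nodup :=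
  (geod (Lp p q) p q (dsp_Lp p q) (length_Lp p q)).1

private theorem box_Lp (p q v : V) (hv : v ∈ verts p (Lp p q)) : Bx p q v ∧ v ≠ q := by
  have h := (geod (Lp p q) p q (dsp_Lp p q) (length_Lp p q)).2 v hv
  exact ⟨h.1, h.2.2⟩

/-- The first step of the L-path. -/
private theorem head_Lp (p q : V) (h : p ≠ q) :
    ∃ (a : Fin 4) (l : List (Fin 4)), Lp p q = a :: l ∧ Bx p q (p + stp a) := by
  have h0 : dsp (Lp p q) = q - p := dsp_Lp p q
  have hl := length_Lp p q
  generalize Lp p q = L at h0 hl
  cases L with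
  | nil =>
    exfalso
    have h1 : q - p = 0 := by rw [← h0]; rfl
    exact h (sub_eq_zero.1 h1).symm
  | cons a l =>
    refine ⟨a, l, rfl, ?_⟩
    have h2 : stp a + dsp l = q - p := h0
    have h3 : dsp l = q - (p + stp a) := by
      have h3 : dsp l = q - p - stp a := by rw [← h2]; abel
      rw [h3]; abel
    have h4 := l1_le_length l (p + stp a) q h3
    have h5 := stp_l1 a
    simp only [l1, Bx, Prod.fst_add, Prod.snd_add, List.length_cons] at h4 hl ⊢
    omega

private theorem step_exists (u u' : V) (h : l1 u u' = 1) : ∃ b : Fin 4, u + stp b = u' := by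
  obtain ⟨x, y⟩ := u
  obtain ⟨x', y'⟩ := u'
  simp only [l1] at h
  have h1 : (x' = x + 1 ∧ y' = y) ∨ (x' = x ∧ y' = y + 1) ∨ (x' = x - 1 ∧ y' = y) ∨
      (x' = x ∧ y' = y - 1) := by omega
  rcases h1 with ⟨rfl, rfl⟩ | ⟨rfl, rfl⟩ | ⟨rfl, rfl⟩ | ⟨rfl, rfl⟩
  · exact ⟨0, by simp [stp]⟩
  · exact ⟨1, by simp [stp]⟩
  · exact ⟨2, by simp [stp]; ring⟩
  · exact ⟨3, by simp [stp]; ring⟩

/-- The integral of an antisymmetric edge function over the lens is the one over the middle part. -/
private theorem psum_lens (F : V → Fin 4 → ℤ) (hF : ∀ p a, F (p + stp a) (opp a) = - F p a)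
    (w : V) (L α ρ M : List (Fin 4)) (h : dsp α = - dsp ρ) :
    psum F w ((L ++ α ++ M) ++ rev (L ++ rev ρ ++ M)) = psum F (w + dsp L) (α ++ ρ) := by
  rw [rev_append, rev_append, rev_rev]
  simp only [psum_append, dsp_append, dsp_rev]
  have h1 := psum_rev F hF w L
  have h2 := psum_rev F hF (w + dsp L + dsp α) M
  have e1 : w + (dsp L + dsp α) = w + dsp L + dsp α := by abel
  have e2 : w + (dsp L + dsp α + dsp M) = w + dsp L + dsp α + dsp M := by abel
  have e3 : w + dsp L + dsp α + dsp M + -dsp M = w + dsp L + dsp α := by abel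
  have e4 : w + dsp L + dsp α + dsp ρ = w + dsp L := by rw [h]; abel
  rw [e1, e2, e3, e4, h1, h2]
  ring

private theorem psum_self (F : V → Fin 4 → ℤ) (hF : ∀ p a, F (p + stp a) (opp a) = - F p a)
    (w : V) (L : List (Fin 4)) : psum F w (L ++ rev L) = 0 := by
  rw [psum_append, psum_rev F hF w L]
  ring

private theorem crn_lft (w : V) (a : Fin 4) : Crn (lft w a) w := by
  obtain ⟨x, y⟩ := w
  fin_cases a <;> simp [Crn, lft]

private theorem crn_rgt (w : V) (a : Fin 4) : Crn (rgt w a) w := by
  obtain ⟨x, y⟩ := w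
  fin_cases a <;> simp [Crn, rgt]

/-- The nearest point of the square. -/
private def clp (u : V) (J : ℕ) (w : V) : V :=
  (max (u.1 - J) (min (u.1 + J) w.1), max (u.2 - J) (min (u.2 + J) w.2))

private theorem clp_box (u u' : V) (J : ℕ) (w : V) (h1 : |u'.1 - u.1| ≤ J) (h2 : |u'.2 - u.2| ≤ J) :
    Bx u' w (clp u J w) := by
  rw [abs_le] at h1 h2
  simp only [Bx, clp]
  omega

private theorem clp_bd (u : V) (J : ℕ) (w : V) (h : 2 * J < l1 u w) : Bd u J (clp u J w) := by
  simp only [Bd, clp, l1] at h ⊢
  omega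

private theorem clp_eq (u : V) (J : ℕ) (w v : V) (h : Bx w (clp u J w) v) (h1 : |v.1 - u.1| ≤ J)
    (h2 : |v.2 - u.2| ≤ J) : v = clp u J w := by
  obtain ⟨x, y⟩ := v
  rw [abs_le] at h1 h2
  simp only [Bx, clp] at h h1 h2 ⊢
  rw [Prod.mk.injEq]
  omega

private theorem bd_abs (u : V) (J : ℕ) (v : V) (h : Bd u J v) :
    |v.1 - u.1| ≤ J ∧ |v.2 - u.2| ≤ J := by
  simp only [Bd] at h
  rw [abs_le, abs_le]
  omega

private theorem bd_l1 (u : V) (J : ℕ) (v : V) (h : Bd u J v) : l1 u v ≤ 2 * J := by
  simp only [Bd, l1] at h ⊢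
  omega

/-- Concatenation of an L-path, a path on the boundary of the square, and an L-path. -/
private theorem three (u u' w w' : V) (J : ℕ) (hJ : 1 ≤ J) (huu : l1 u u' ≤ 1)
    (hdis : ∀ v, Bx u w v → Bx u' w' v → v = u ∧ v = u')
    (hw : 2 * J < l1 u w) (hw' : 2 * J < l1 u w') (β : List (Fin 4))
    (hβ : dsp β = clp u J w' - clp u J w) (hn : (verts (clp u J w) β ++ [clp u J w']).Nodup)
    (hb : ∀ v ∈ verts (clp u J w) β, Bd u J v) :
    (verts w (Lp w (clp u J w) ++ β ++ Lp (clp u J w') w') ++ [w']).Nodup ∧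
    (∀ v ∈ verts w (Lp w (clp u J w) ++ β ++ Lp (clp u J w') w'),
        v = w ∨ Bx u w v ∨ Bx u' w' v ∨ l1 u v < l1 u w) := by
  have hr := clp_box u u J w (by simp) (by simp)
  have hu1 : |u'.1 - u.1| ≤ J := by
    rw [abs_le]; simp only [l1] at huu; omega
  have hu2 : |u'.2 - u.2| ≤ J := by
    rw [abs_le]; simp only [l1] at huu; omega
  have hr' := clp_box u u' J w' hu1 hu2
  have hrb := clp_bd u J w hw
  have hrb' := clp_bd u J w' hw'
  have hce := clp_eq u J w
  have hce' := clp_eq u J w'
  have hur : u ≠ clp u J w := by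
    intro h
    rw [← h] at hrb
    simp only [Bd] at hrb
    omega
  generalize clp u J w = r at *
  generalize clp u J w' = r' at *
  have e1 : w + dsp (Lp w r) = r := by rw [dsp_Lp]; abel
  have e2 : w + dsp (Lp w r ++ β) = r' := by rw [dsp_append, dsp_Lp, hβ]; abel
  have hv : verts w (Lp w r ++ β ++ Lp r' w') = verts w (Lp w r) ++ verts r β ++ verts r' (Lp r' w') := by
    rw [verts_append, verts_append, e1, e2]
  rw [hv]
  have hA : ∀ v ∈ verts w (Lp w r), Bx w r v ∧ v ≠ r := box_Lp w r
  have hC : ∀ v ∈ verts r' (Lp r' w') ++ [w'], Bx r' w' v := by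
    intro v hv
    rw [List.mem_append] at hv
    rcases hv with hv | hv
    · exact (box_Lp r' w' v hv).1
    · have : v = w' := by simpa using hv
      subst this
      simp only [Bx]; omega
  have hB : ∀ v ∈ verts r β, |v.1 - u.1| ≤ J ∧ |v.2 - u.2| ≤ J := fun v hv => bd_abs u J v (hb v hv)
  constructor
  · rw [List.append_assoc, List.append_assoc]
    rw [List.nodup_append]
    refine ⟨?_, ?_, ?_⟩
    · exact (List.nodup_append.1 (nodup_Lp w r)).1
    · rw [List.nodup_append]
      refine ⟨(List.nodup_append.1 hn).1, nodup_Lp r' w', ?_⟩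
      intro v hv v' hv' hvv
      subst hvv
      have h1 := hB v hv
      have h2 := hC v hv'
      have h3 : v = r' := by
        apply hce' v _ h1.1 h1.2
        simp only [Bx] at h2 ⊢
        omega
      exact (List.nodup_append.1 hn).2.2 v hv r' (by simp) h3
    · intro v hv v' hv' hvv
      subst hvv
      have h1 := hA v hv
      rw [List.mem_append] at hv'
      rcases hv' with hv' | hv'
      · have h2 := hB v hv'
        exact h1.2 (hce v h1.1 h2.1 h2.2)
      · have h2 := hC v hv'
        have h3 : Bx u w v := by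
          have h4 := h1.1
          simp only [Bx] at h4 hr ⊢
          omega
        have h5 : Bx u' w' v := by
          simp only [Bx] at h2 hr' ⊢
          omega
        have h6 := (hdis v h3 h5).1
        subst h6
        exact hur (hce v h1.1 (by simp) (by simp))
  · intro v hv
    rw [List.mem_append, List.mem_append] at hv
    rcases hv with (hv | hv) | hv
    · right; left
      have h4 := (hA v hv).1
      simp only [Bx] at h4 hr ⊢
      omega
    · right; right; right
      exact lt_of_le_of_lt (bd_l1 u J v (hb v hv)) hw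
    · right; right; left
      have h2 := hC v (List.mem_append_left _ hv)
      simp only [Bx] at h2 hr' ⊢
      omega

theorem lens_words (ε : ℤ) (hε : ε = 1 ∨ ε = -1) (u u' w w' : V) (huu : l1 u u' ≤ 1) (hww : w ≠ w')
    (hdis : ∀ v, Bx u w v → Bx u' w' v → v = u ∧ v = u') (hd : l1 u' w' ≤ l1 u w + 1)
    (hwu : w = u → u' ≠ u) (hfree : l1 u w ≤ l1 u w') :
    ∃ (J : ℕ) (τ₁ τ₂ : List (Fin 4)) (a : Fin 4),
      τ₁.head? = some a ∧ τ₂.head? = some a ∧ dsp τ₁ = w' - w ∧ dsp τ₂ = w' - w ∧
      τ₁.length ≤ 12 * J + 6 ∧ τ₂.length ≤ 12 * J + 6 ∧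
      (verts w τ₁ ++ [w']).Nodup ∧ (verts w τ₂ ++ [w']).Nodup ∧
      (∀ v, v ∈ verts w τ₁ ∨ v ∈ verts w τ₂ →
        v = w ∨ Bx u w v ∨ Bx u' w' v ∨ l1 u v < l1 u w) ∧
      ((w ≠ u ∧ Bx u w (w + stp a)) ∨ (w = u ∧ w + stp a = u')) ∧
      psum xdyF w (τ₁ ++ rev τ₂) = ε * (2 * J) ^ 2 ∧
      wd w (τ₁ ++ rev τ₂) (lft w a) = 0 ∧ wd w (τ₁ ++ rev τ₂) (rgt w a) = 0 := by
  have _ := hww
  by_cases hd2 : l1 u w ≤ 2
  · -- the short case
    have key : ∃ s : List (Fin 4), dsp s = u' - u ∧ s.length ≤ 1 ∧ (verts w (Lp w u) ++ verts u s).Nodup ∧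
        (∀ v ∈ verts u s, v = u ∧ u ≠ u') ∧ (w = u → ∃ b, s = [b] ∧ w + stp b = u') := by
      by_cases huu' : u = u'
      · subst huu'
        refine ⟨[], by simp [dsp], by simp, ?_, by simp [verts], fun h => absurd rfl (hwu h)⟩
        simp only [verts, List.append_nil]
        exact (List.nodup_append.1 (nodup_Lp w u)).1
      · have h1 : l1 u u' = 1 := by
          have : l1 u u' ≠ 0 := by
            intro h
            apply huu'
            simp only [l1] at h
            ext
            · omega
            · omega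
          omega
        obtain ⟨b, hb⟩ := step_exists u u' h1
        refine ⟨[b], ?_, by simp, ?_, ?_, ?_⟩
        · simp [dsp, ← hb]
        · simpa [verts] using nodup_Lp w u
        · intro v hv
          exact ⟨by simpa [verts] using hv, huu'⟩
        · rintro rfl
          exact ⟨b, rfl, hb⟩
    obtain ⟨s, hs1, hs2, hs3, hs4, hs5⟩ := key
    have e1 : w + dsp (Lp w u) = u := by rw [dsp_Lp]; abel
    have e2 : w + dsp (Lp w u ++ s) = u' := by rw [dsp_append, dsp_Lp, hs1]; abel
    have hv : verts w (Lp w u ++ s ++ Lp u' w') = verts w (Lp w u) ++ verts u s ++ verts u' (Lp u' w') := by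
      rw [verts_append, verts_append, e1, e2]
    have hA : ∀ v ∈ verts w (Lp w u), Bx u w v ∧ v ≠ u := by
      intro v hv
      have h := box_Lp w u v hv
      refine ⟨?_, h.2⟩
      have h1 := h.1
      simp only [Bx] at h1 ⊢
      omega
    have hC : ∀ v ∈ verts u' (Lp u' w') ++ [w'], Bx u' w' v := by
      intro v hv
      rw [List.mem_append] at hv
      rcases hv with hv | hv
      · exact (box_Lp u' w' v hv).1
      · have : v = w' := by simpa using hv
        subst this
        simp only [Bx]; omega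
    have hbu : Bx u w u := by simp only [Bx]; omega
    have hnd : (verts w (Lp w u ++ s ++ Lp u' w') ++ [w']).Nodup := by
      rw [hv, List.append_assoc, List.nodup_append]
      refine ⟨hs3, nodup_Lp u' w', ?_⟩
      intro v hv v' hv' hvv
      subst hvv
      have h2 := hC v hv'
      rw [List.mem_append] at hv
      rcases hv with hv | hv
      · have h1 := hA v hv
        exact h1.2 (hdis v h1.1 h2).1
      · obtain ⟨h1, h3⟩ := hs4 v hv
        subst h1
        exact h3 (hdis v hbu h2).2
    have hlen : (Lp w u ++ s ++ Lp u' w').length ≤ 12 * 0 + 6 := by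
      simp only [List.length_append, length_Lp]
      have : l1 w u = l1 u w := by simp only [l1]; omega
      omega
    have hdsp : dsp (Lp w u ++ s ++ Lp u' w') = w' - w := by
      rw [dsp_append, dsp_append, dsp_Lp, dsp_Lp, hs1]; abel
    have hloc : ∀ v ∈ verts w (Lp w u ++ s ++ Lp u' w'),
        v = w ∨ Bx u w v ∨ Bx u' w' v ∨ l1 u v < l1 u w := by
      intro v hv1
      rw [hv, List.mem_append, List.mem_append] at hv1
      rcases hv1 with (hv1 | hv1) | hv1
      · exact Or.inr (Or.inl (hA v hv1).1)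
      · right; left
        rw [(hs4 v hv1).1]
        exact hbu
      · right; right; left
        exact hC v (List.mem_append_left _ hv1)
    have hhead : ∃ a : Fin 4, (Lp w u ++ s ++ Lp u' w').head? = some a ∧
        ((w ≠ u ∧ Bx u w (w + stp a)) ∨ (w = u ∧ w + stp a = u')) := by
      by_cases hwu' : w = u
      · obtain ⟨b, hb1, hb2⟩ := hs5 hwu'
        refine ⟨b, ?_, Or.inr ⟨hwu', hb2⟩⟩
        have h1 : Lp w u = [] := by
          apply List.eq_nil_of_length_eq_zero
          rw [length_Lp, hwu']
          simp [l1]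
        rw [h1, hb1]
        rfl
      · obtain ⟨a, l, h1, h2⟩ := head_Lp w u hwu'
        refine ⟨a, ?_, Or.inl ⟨hwu', ?_⟩⟩
        · rw [h1]; rfl
        · simp only [Bx] at h2 ⊢
          omega
    obtain ⟨a, ha1, ha2⟩ := hhead
    refine ⟨0, Lp w u ++ s ++ Lp u' w', Lp w u ++ s ++ Lp u' w', a, ha1, ha1, hdsp, hdsp, hlen, hlen,
      hnd, hnd, ?_, ha2, ?_, ?_, ?_⟩
    · rintro v (hv | hv)
      · exact hloc v hv
      · exact hloc v hv
    · rw [psum_self xdyF xdyF_anti]
      simp
    · exact psum_self (wdF (lft w a)) (wdF_anti _) w _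
    · exact psum_self (wdF (rgt w a)) (wdF_anti _) w _
  · -- the long case
    obtain ⟨J, hJ1, hJ2, hJ3⟩ : ∃ J : ℕ, 1 ≤ J ∧ 2 * J < l1 u w ∧ l1 u w ≤ 2 * J + 2 :=
      ⟨(l1 u w - 1) / 2, by omega, by omega, by omega⟩
    have hJ2' : 2 * J < l1 u w' := by omega
    have hrb := clp_bd u J w hJ2
    have hrb' := clp_bd u J w' hJ2'
    have hr := clp_box u u J w (by simp) (by simp)
    have hu1 : |u'.1 - u.1| ≤ J := by
      rw [abs_le]; simp only [l1] at huu; omega
    have hu2 : |u'.2 - u.2| ≤ J := by
      rw [abs_le]; simp only [l1] at huu; omega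
    have hr' := clp_box u u' J w' hu1 hu2
    have hne : clp u J w ≠ clp u J w' := by
      intro h
      rw [← h] at hr'
      have h1 := (hdis _ hr hr').1
      rw [h1] at hrb
      simp only [Bd] at hrb
      omega
    obtain ⟨α, ρ, ha1, hp1, hlen, hnd, hbd, hx, hwd⟩ := arcs ε hε u (clp u J w) (clp u J w') J hJ1 hrb hrb' hne
    have hα : α ≠ [] := by
      rintro rfl
      apply hne
      have : clp u J w' - clp u J w = 0 := by rw [← ha1]; rfl
      exact (sub_eq_zero.1 this).symm
    have hρ : ρ ≠ [] := by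
      rintro rfl
      apply hne
      have : clp u J w - clp u J w' = 0 := by rw [← hp1]; rfl
      exact sub_eq_zero.1 this
    have hrα : clp u J w ∈ verts (clp u J w) α := by
      cases α with
      | nil => exact absurd rfl hα
      | cons a l => simp [verts]
    have hrρ : clp u J w' ∈ verts (clp u J w') ρ := by
      cases ρ with
      | nil => exact absurd rfl hρ
      | cons a l => simp [verts]
    have hnd' := List.nodup_append.1 hnd
    have t1 := three u u' w w' J hJ1 huu hdis hJ2 hJ2' α ha1 (by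
      rw [List.nodup_append]
      refine ⟨hnd'.1, by simp, ?_⟩
      intro v hv v' hv' hvv
      have : v' = clp u J w' := by simpa using hv'
      exact hnd'.2.2 v hv (clp u J w') hrρ (hvv.trans this)) (fun v hv => hbd v (Or.inl hv))
    have hrev : verts (clp u J w) (rev ρ) ++ [clp u J w'] = (verts (clp u J w') ρ ++ [clp u J w]).reverse := by
      have h := verts_rev (clp u J w') ρ
      have h1 : clp u J w' + dsp ρ = clp u J w := by rw [hp1]; abel
      rw [h1] at h
      exact h
    have t2 := three u u' w w' J hJ1 huu hdis hJ2 hJ2' (rev ρ) (by rw [dsp_rev, hp1]; abel) (by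
      rw [hrev, List.nodup_reverse, List.nodup_append]
      refine ⟨hnd'.2.1, by simp, ?_⟩
      intro v hv v' hv' hvv
      have : v' = clp u J w := by simpa using hv'
      exact hnd'.2.2 (clp u J w) hrα v hv (hvv.trans this).symm) (by
      intro v hv
      have h1 : v ∈ (verts (clp u J w') ρ ++ [clp u J w]).reverse := by
        rw [← hrev]
        exact List.mem_append_left _ hv
      rw [List.mem_reverse, List.mem_append] at h1
      rcases h1 with h1 | h1
      · exact hbd v (Or.inr h1)
      · have : v = clp u J w := by simpa using h1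
        rw [this]
        exact hrb)
    have hwr : w ≠ clp u J w := by
      intro h
      have := bd_l1 u J _ hrb
      rw [← h] at this
      omega
    obtain ⟨a, l, hl1, hl2⟩ := head_Lp w (clp u J w) hwr
    have hl3 : Bx u w (w + stp a) := by
      simp only [Bx] at hl2 hr ⊢
      omega
    have hd1 : l1 w (clp u J w) ≤ l1 u w := by
      simp only [Bx, l1] at hr ⊢
      omega
    have hd2 : l1 (clp u J w') w' ≤ l1 u' w' := by
      simp only [Bx, l1] at hr' ⊢
      omega
    have hwout : ¬ (u.1 - J ≤ w.1 ∧ w.1 ≤ u.1 + J ∧ u.2 - J ≤ w.2 ∧ w.2 ≤ u.2 + J) := by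
      intro h
      simp only [l1] at hJ2
      omega
    have hps : ∀ F : V → Fin 4 → ℤ, (∀ p a, F (p + stp a) (opp a) = - F p a) →
        psum F w ((Lp w (clp u J w) ++ α ++ Lp (clp u J w') w') ++
          rev (Lp w (clp u J w) ++ rev ρ ++ Lp (clp u J w') w')) = psum F (clp u J w) (α ++ ρ) := by
      intro F hF
      rw [psum_lens F hF w _ α ρ _ (by rw [ha1, hp1]; abel), dsp_Lp]
      congr 1
      abel
    refine ⟨J, Lp w (clp u J w) ++ α ++ Lp (clp u J w') w',
      Lp w (clp u J w) ++ rev ρ ++ Lp (clp u J w') w', a, ?_, ?_, ?_, ?_, ?_, ?_, t1.1, t2.1, ?_, ?_, ?_, ?_, ?_⟩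
    · rw [hl1]; rfl
    · rw [hl1]; rfl
    · rw [dsp_append, dsp_append, dsp_Lp, dsp_Lp, ha1]; abel
    · rw [dsp_append, dsp_append, dsp_Lp, dsp_Lp, dsp_rev, hp1]; abel
    · simp only [List.length_append, length_Lp]
      omega
    · simp only [List.length_append, length_Lp, length_rev]
      omega
    · rintro v (hv | hv)
      · exact t1.2 v hv
      · exact t2.2 v hv
    · left
      refine ⟨?_, hl3⟩
      rintro rfl
      simp [l1] at hJ2
    · rw [hps xdyF xdyF_anti]
      exact hx
    · show psum (wdF _) w _ = 0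
      rw [hps _ (wdF_anti _)]
      apply hwd
      intro h
      apply hwout
      have h1 := crn_lft w a
      simp only [Crn] at h1
      omega
    · show psum (wdF _) w _ = 0
      rw [hps _ (wdF_anti _)]
      apply hwd
      intro h
      apply hwout
      have h1 := crn_rgt w a
      simp only [Crn] at h1
      omega

end Pool.Agent.Helper2.QP
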