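import Pool.Agent.Helper2.QP.Path

/-!
# QP-MINCFG: minimal configurations

Paper proof.
`four`: if `v` is not on the polygon then the four cells around `v` have the same winding number (`wd_lft_rgt`,
`tr_eq_zero`).
`conn`: if `u` is a corner of an inside cell, `w = vtx l i` is nearest to `u` and `v` is in the rectangle `Bx u w`
then `v` is a corner of an inside cell.  Induction on `l1 u v`: for `v ≠ u` there is a neighbour `v'` of `v` in `Bx u v` with
`l1 u v' = l1 u v - 1 < l1 u w`; `v'` is not on the polygon (all polygon vertices have distance `≥ l1 u w`), it is a corner of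
an inside cell by induction, so all four cells around `v'` are inside by `four`, and one of them has `v` as a corner.
`min_cfg`: take a configuration (`exists_cfg`) with minimal `l1 u (vtx l i) + l1 u' (vtx l j) + l1 u u'`.  Suppose
`v ∈ Bx u w ∩ Bx u' w'`.  Then `(v, v, i, j)` is a configuration: `Near l v i` since for any vertex `z`,
`l1 v z ≥ l1 u z - l1 u v ≥ l1 u w - l1 u v = l1 v w`, same for `j`; `Cor l v v` by `conn`.  Its total is
`(l1 u w - l1 u v) + (l1 u' w' - l1 u' v) + 0`, so minimality gives `l1 u v = l1 u' v = 0` (and `u = u'`).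
`fst_edge`: the edge `(w, a)` has `tr = 0`: if `w + stp a` is not on the polygon by `tr_eq_zero` (at the other end:
`tr w a = - tr (w + stp a) (opp a)`, or directly), this is the case if `w ≠ u` (then `w + stp a ∈ Bx u w`, it is `≠ w`, so it is
closer to `u` than `w`), and then it is a corner of an inside cell by `conn`, so the four cells around it are inside, among them
`lft w a` and `rgt w a`.  If `w = u`, `w + stp a = u'`: the cell in `Cor l u u'` is `lft w a` or
`rgt w a`, and `tr = 0`: clear if `u'` is not on the polygon; else `u' = vtx l j` (distance `0`) and `j ≠ i ± 1 mod N`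
because `N ≤ 4 |i - j| ≤ 3 N` and `N ≥ 5` (`tr_vtx`, `vtx_inj`).
-/

set_option autoImplicit false

namespace Pool.Agent.Helper2.QP

theorem four (l : List (Fin 4)) (h : dsp l = 0) (v : V) (hv : v ∉ verts 0 l) (c c' : V)
    (hc : Crn c v) (hc' : Crn c' v) : wd 0 l c = wd 0 l c' := by
  have key : ∀ c, Crn c v → wd 0 l c = wd 0 l (v + (0, 0)) := by
    intro c hc
    obtain ⟨h1, h2, h3, h4⟩ := hc
    have e0 := wd_lft_rgt 0 l h v 0
    have e1 := wd_lft_rgt 0 l h v 1
    have e2 := wd_lft_rgt 0 l h v 2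
    rw [tr_eq_zero 0 l h v _ hv] at e0 e1 e2
    simp only [lft, rgt] at e0 e1 e2
    have f0 : wd 0 l (v + (0, 0)) - wd 0 l (v + (0, -1)) = 0 := e0
    have f1 : wd 0 l (v + (-1, 0)) - wd 0 l (v + (0, 0)) = 0 := e1
    have f2 : wd 0 l (v + (-1, -1)) - wd 0 l (v + (-1, 0)) = 0 := e2
    have h5 : c = v + (0, 0) ∨ c = v + (0, -1) ∨ c = v + (-1, 0) ∨ c = v + (-1, -1) := by
      rcases (by omega : c.1 = v.1 ∨ c.1 = v.1 - 1) with h6 | h6 <;>
      rcases (by omega : c.2 = v.2 ∨ c.2 = v.2 - 1) with h7 | h7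
      · left; ext <;> simp [h6, h7]
      · right; left; ext <;> simp [h6, h7, sub_eq_add_neg]
      · right; right; left; ext <;> simp [h6, h7, sub_eq_add_neg]
      · right; right; right; ext <;> simp [h6, h7, sub_eq_add_neg]
    rcases h5 with rfl | rfl | rfl | rfl
    · rfl
    · linarith
    · linarith
    · linarith
  rw [key c hc, key c' hc']

theorem l1_comm (u v : V) : l1 u v = l1 v u := by
  unfold l1
  omega

theorem l1_triangle (u v w : V) : l1 u w ≤ l1 u v + l1 v w := by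
  unfold l1
  omega

theorem l1_eq_zero {u v : V} (h : l1 u v = 0) : u = v := by
  unfold l1 at h
  ext <;> omega

theorem l1_self (u : V) : l1 u u = 0 := by
  unfold l1
  omega

theorem l1_bx {u w v : V} (h : Bx u w v) : l1 u w = l1 u v + l1 v w := by
  obtain ⟨⟨h1, h2⟩, h3, h4⟩ := h
  unfold l1
  omega

theorem bx_left (u w : V) : Bx u w u := by
  refine ⟨⟨?_, ?_⟩, ?_, ?_⟩ <;> omega

theorem bx_right (u w : V) : Bx u w w := by
  refine ⟨⟨?_, ?_⟩, ?_, ?_⟩ <;> omega

theorem not_mem_of_near {l : List (Fin 4)} {u : V} {i : ℕ} (hn : Near l u i) {v : V}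
    (hv : l1 u v < l1 u (vtx l i)) : v ∉ verts 0 l := by
  rw [mem_verts_zero]
  rintro ⟨k, hk, rfl⟩
  exact absurd (hn.2 k hk) (by omega)

theorem not_mem_of_bx {l : List (Fin 4)} {u : V} {i : ℕ} (hn : Near l u i) {v : V}
    (hv : Bx u (vtx l i) v) (hne : v ≠ vtx l i) : v ∉ verts 0 l := by
  apply not_mem_of_near hn
  have h1 := l1_bx hv
  have h2 : l1 v (vtx l i) ≠ 0 := fun h => hne (l1_eq_zero h)
  omega

theorem near_of_bx {l : List (Fin 4)} {u : V} {i : ℕ} (hn : Near l u i) {v : V}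
    (hv : Bx u (vtx l i) v) : Near l v i := by
  refine ⟨hn.1, fun k hk => ?_⟩
  have h1 := l1_bx hv
  have h2 := l1_triangle u v (vtx l k)
  have h3 := hn.2 k hk
  omega

theorem cor_of_not_mem {l : List (Fin 4)} (h : dsp l = 0) {v v' : V} (hv : v' ∉ verts 0 l)
    (hc : Cor l v' v') (c : V) (hc' : Crn c v') : wd 0 l c ≠ 0 := by
  obtain ⟨c₀, h1, h2, h3⟩ := hc
  rw [four l h v' hv c c₀ hc' h2]
  exact h1

theorem exists_closer (u v : V) (hne : v ≠ u) : ∃ v' : V, Bx u v v' ∧ l1 u v' + 1 = l1 u v ∧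
    ∃ c : V, Crn c v ∧ Crn c v' := by
  by_cases h1 : v.1 = u.1
  · have h2 : v.2 ≠ u.2 := fun h => hne (Prod.ext h1 h)
    rcases lt_or_gt_of_ne h2 with h3 | h3
    · refine ⟨(v.1, v.2 + 1), ⟨⟨?_, ?_⟩, ?_, ?_⟩, ?_, (v.1, v.2), ⟨?_, ?_, ?_, ?_⟩, ?_, ?_, ?_, ?_⟩ <;>
        simp only [l1] <;> omega
    · refine ⟨(v.1, v.2 - 1), ⟨⟨?_, ?_⟩, ?_, ?_⟩, ?_, (v.1, v.2 - 1), ⟨?_, ?_, ?_, ?_⟩, ?_, ?_, ?_, ?_⟩ <;>
        simp only [l1] <;> omega
  · rcases lt_or_gt_of_ne h1 with h3 | h3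
    · refine ⟨(v.1 + 1, v.2), ⟨⟨?_, ?_⟩, ?_, ?_⟩, ?_, (v.1, v.2), ⟨?_, ?_, ?_, ?_⟩, ?_, ?_, ?_, ?_⟩ <;>
        simp only [l1] <;> omega
    · refine ⟨(v.1 - 1, v.2), ⟨⟨?_, ?_⟩, ?_, ?_⟩, ?_, (v.1 - 1, v.2), ⟨?_, ?_, ?_, ?_⟩, ?_, ?_, ?_, ?_⟩ <;>
        simp only [l1] <;> omega

theorem conn (l : List (Fin 4)) (h : IsSAP l) (u : V) (i : ℕ) (hn : Near l u i) (hc : Cor l u u)
    (v : V) (hv : Bx u (vtx l i) v) : Cor l v v := by
  obtain ⟨n, hn'⟩ : ∃ n, n = l1 u v := ⟨_, rfl⟩
  induction n generalizing v with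
  | zero =>
    rw [← l1_eq_zero hn'.symm]
    exact hc
  | succ n ih =>
    have hne : v ≠ u := by
      rintro rfl
      rw [l1_self] at hn'
      omega
    obtain ⟨v', h1, h2, c, h3, h4⟩ := exists_closer u v hne
    have h5 : Bx u (vtx l i) v' := by
      obtain ⟨⟨a1, a2⟩, a3, a4⟩ := h1
      obtain ⟨⟨b1, b2⟩, b3, b4⟩ := hv
      refine ⟨⟨?_, ?_⟩, ?_, ?_⟩ <;> omega
    have h6 := ih v' h5 (by omega)
    have h7 : v' ∉ verts 0 l := by
      apply not_mem_of_near hn
      have h8 := l1_bx hv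
      omega
    exact ⟨c, cor_of_not_mem (v := v) h.1 h7 h6 c h4, h3, h3⟩

theorem min_cfg (l : List (Fin 4)) (h : IsSAP l) (h5 : 5 ≤ l.length) :
    ∃ (u u' : V) (i j : ℕ), Cfg l u u' i j ∧
      ∀ v, Bx u (vtx l i) v → Bx u' (vtx l j) v → v = u ∧ v = u' := by
  classical
  let S : Set ℕ := {n | ∃ (u u' : V) (i j : ℕ), Cfg l u u' i j ∧
    n = l1 u (vtx l i) + l1 u' (vtx l j) + l1 u u'}
  have hS : S.Nonempty := by
    obtain ⟨u, u', i, j, hc⟩ := exists_cfg l h (by omega)
    exact ⟨_, u, u', i, j, hc, rfl⟩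
  obtain ⟨u, u', i, j, hc, hn⟩ := Nat.sInf_mem hS
  refine ⟨u, u', i, j, hc, fun v hv hv' => ?_⟩
  obtain ⟨h1, ⟨c, hc1, hc2, hc3⟩, h3, h4, h6, h7⟩ := hc
  have hcv : Cor l v v := conn l h u i h3 ⟨c, hc1, hc2, hc2⟩ v hv
  have hcfg : Cfg l v v i j :=
    ⟨by rw [l1_self]; omega, hcv, near_of_bx h3 hv, near_of_bx h4 hv', h6, h7⟩
  have hmem : l1 v (vtx l i) + l1 v (vtx l j) + l1 v v ∈ S := ⟨v, v, i, j, hcfg, rfl⟩
  have h8 := Nat.sInf_le hmem
  rw [hn, l1_self] at h8
  have h9 := l1_bx hv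
  have h10 := l1_bx hv'
  have h11 : l1 u v = 0 := by omega
  have h12 : l1 u' v = 0 := by omega
  exact ⟨(l1_eq_zero h11).symm, (l1_eq_zero h12).symm⟩

theorem crn_lft_end (u : V) (a : Fin 4) : Crn (lft u a) (u + stp a) := by
  fin_cases a <;> simp [Crn, lft, stp]

theorem crn_rgt_end (u : V) (a : Fin 4) : Crn (rgt u a) (u + stp a) := by
  fin_cases a <;> simp [Crn, rgt, stp]

theorem crn_lft_start (u : V) (a : Fin 4) : Crn (lft u a) u := by
  fin_cases a <;> simp [Crn, lft]

theorem crn_rgt_start (u : V) (a : Fin 4) : Crn (rgt u a) u := by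
  fin_cases a <;> simp [Crn, rgt]

theorem crn_edge (u : V) (a : Fin 4) (c : V) (h1 : Crn c u) (h2 : Crn c (u + stp a)) :
    c = lft u a ∨ c = rgt u a := by
  obtain ⟨x, y⟩ := u
  obtain ⟨cx, cy⟩ := c
  fin_cases a <;> simp [Crn, lft, rgt, stp, Prod.ext_iff] at * <;> omega

theorem fst_edge (l : List (Fin 4)) (h : IsSAP l) (h5 : 5 ≤ l.length) (u u' : V) (i j : ℕ)
    (hc : Cfg l u u' i j) (a : Fin 4)
    (ha : (vtx l i ≠ u ∧ Bx u (vtx l i) (vtx l i + stp a)) ∨ (vtx l i = u ∧ vtx l i + stp a = u')) :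
    wd 0 l (lft (vtx l i) a) = wd 0 l (rgt (vtx l i) a) ∧ wd 0 l (lft (vtx l i) a) ≠ 0 := by
  obtain ⟨h1, ⟨c, hc1, hc2, hc3⟩, h3, h4, h6, h7⟩ := hc
  rcases ha with ⟨ha1, ha2⟩ | ⟨ha1, ha2⟩
  · have hne : vtx l i + stp a ≠ vtx l i := by
      intro h8
      exact stp_ne_zero a (by simpa using h8)
    have hnm := not_mem_of_bx h3 ha2 hne
    have hcv : Cor l (vtx l i + stp a) (vtx l i + stp a) := conn l h u i h3 ⟨c, hc1, hc2, hc2⟩ _ ha2
    refine ⟨four l h.1 _ hnm _ _ (crn_lft_end _ _) (crn_rgt_end _ _), ?_⟩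
    exact cor_of_not_mem (v := vtx l i + stp a) h.1 hnm hcv _ (crn_lft_end _ _)
  · have htr : tr 0 l (vtx l i) a = 0 := by
      have hi := h3.1
      have hj := h4.1
      have hN : 0 < l.length := by omega
      have key : ∀ k, k < l.length → 4 * ((i : ℤ) - k).natAbs < l.length ∨
          3 * l.length < 4 * ((i : ℤ) - k).natAbs → vtx l i + stp a ≠ vtx l k := by
        intro k hk hk2 he
        have h8 : u' ∈ verts 0 l := by
          rw [mem_verts_zero]
          exact ⟨k, hk, by rw [← he, ha2]⟩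
        have h9 : l1 u' (vtx l j) = 0 := by
          have h10 := h4.2 k hk
          rw [← he, ha2, l1_self] at h10
          omega
        have h10 : vtx l k = vtx l j := by
          rw [← he, ha2]
          exact l1_eq_zero h9
        have h11 := vtx_inj l h hk hj h10
        subst h11
        omega
      rw [tr_vtx l h (by omega) i hi a]
      rw [if_neg, if_neg]
      · simp
      · apply key _ (Nat.mod_lt _ hN)
        by_cases h0 : i = 0
        · subst h0
          rw [Nat.zero_add, Nat.mod_eq_of_lt (by omega)]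
          right
          omega
        · have : (i + l.length - 1) % l.length = i - 1 := by
            rw [show i + l.length - 1 = (i - 1) + l.length by omega, Nat.add_mod_right,
              Nat.mod_eq_of_lt (by omega)]
          rw [this]
          left
          omega
      · apply key _ (Nat.mod_lt _ hN)
        by_cases h0 : i + 1 = l.length
        · rw [h0, Nat.mod_self]
          right
          omega
        · rw [Nat.mod_eq_of_lt (by omega)]
          left
          omega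
    have h8 := wd_lft_rgt 0 l h.1 (vtx l i) a
    rw [htr] at h8
    have h9 : wd 0 l (lft (vtx l i) a) = wd 0 l (rgt (vtx l i) a) := by linarith
    refine ⟨h9, ?_⟩
    rcases crn_edge (vtx l i) a c (by rw [ha1]; exact hc2) (by rw [ha2]; exact hc3) with rfl | rfl
    · exact hc1
    · rw [h9]
      exact hc1

end Pool.Agent.Helper2.QP
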