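import Pool.Agent.Helper2.QP.Lens
import Pool.Agent.Helper2.QP.MinCfg
import Pool.Agent.Helper2.QP.Geo

/-!
# QP-CUT: the surgery

Paper proof.  `min_cfg` gives `(u, u', i, j)`; `w = vtx l i`, `w' = vtx l j`.  `ε` := common winding number of `fst_edge`
(`jordan`).  `lens_words` gives `τ₁, τ₂`.  `k = i`, `l.rotate i = A ++ B` with `A.length = (j + N - i) % N`.  Translate by `-w`.
-/

set_option autoImplicit false

namespace Pool.Agent.Helper2.QP

theorem vtx_rotate (l : List (Fin 4)) (h : dsp l = 0) (i n : ℕ) (hi : i < l.length)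
    (hn : n < l.length) :
    vtx l i + vtx (l.rotate i) n = vtx l ((i + n) % l.length) := by
  rw [List.rotate_eq_drop_append_take hi.le]
  unfold vtx
  by_cases h1 : i + n < l.length
  · rw [Nat.mod_eq_of_lt h1, List.take_append_of_le_length (by simp; omega), ← dsp_append,
      ← List.take_add]
  · have h2 : (i + n) % l.length = i + n - l.length := by
      rw [Nat.mod_eq_sub_mod (by omega), Nat.mod_eq_of_lt (by omega)]
    rw [h2, List.take_append]
    have h3 : (List.drop i l).take n = List.drop i l := by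
      apply List.take_of_length_le
      simp
      omega
    rw [h3, dsp_append, ← add_assoc, ← dsp_append, List.take_append_drop, h, zero_add,
      List.length_drop, List.take_take]
    congr 2
    omega

theorem rev_verts_facts (p : V) (l : List (Fin 4)) (h : (verts p l ++ [p + dsp l]).Nodup) :
    (verts (p + dsp l) (rev l)).Nodup ∧
      ∀ v ∈ verts (p + dsp l) (rev l), (v ∈ verts p l ∨ v = p + dsp l) ∧ v ≠ p := by
  have h1 := verts_rev p l
  have h2 : (verts (p + dsp l) (rev l) ++ [p]).Nodup := by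
    rw [h1]
    exact List.nodup_reverse.2 h
  rw [List.nodup_append] at h2
  refine ⟨h2.1, fun v hv => ⟨?_, fun h3 => ?_⟩⟩
  · have h3 : v ∈ verts (p + dsp l) (rev l) ++ [p] := List.mem_append_left _ hv
    rw [h1, List.mem_reverse, List.mem_append, List.mem_singleton] at h3
    exact h3
  · exact h2.2.2 v hv p (by simp) h3

theorem cut (l : List (Fin 4)) (h : IsSAP l) (hN : 20 ≤ l.length) :
    ∃ (k J : ℕ) (A B τ₁ τ₂ : List (Fin 4)), k < l.length ∧ l.rotate k = A ++ B ∧
      l.length ≤ 4 * A.length ∧ l.length ≤ 4 * B.length ∧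
      τ₁.length ≤ 12 * J + 6 ∧ τ₂.length ≤ 12 * J + 6 ∧ J ≤ l.length ∧
      IsSAP (A ++ rev τ₁) ∧ IsSAP (τ₂ ++ B) ∧
      area (A ++ rev τ₁) + area (τ₂ ++ B) + 4 * J ^ 2 ≤ area l := by
  obtain ⟨u, u', i, j, hc, hdis⟩ := min_cfg l h (by omega)
  obtain ⟨ε, hε, hw, har⟩ := jordan l h (by omega)
  have hfe := fst_edge l h (by omega) u u' i j hc
  obtain ⟨hc1, hc2, hc3, hc4, hc5, hc6⟩ := hc
  have hi := hc3.1
  have hj := hc4.1
  obtain ⟨w, hwd⟩ : ∃ w, w = vtx l i := ⟨_, rfl⟩
  obtain ⟨w', hwd'⟩ : ∃ w', w' = vtx l j := ⟨_, rfl⟩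
  have hww : w ≠ w' := by
    rw [hwd, hwd']
    intro h1
    have := vtx_inj l h hi hj h1
    subst this
    omega
  have hd : l1 u' w' ≤ l1 u w + 1 := by
    have h1 := hc4.2 i hi
    have h2 := l1_triangle u' u (vtx l i)
    have h3 := l1_comm u u'
    rw [hwd, hwd']
    omega
  have hwu : w = u → u' ≠ u := by
    intro h1 h2
    have h3 := hc4.2 i hi
    rw [← hwd, ← hwd', h2, h1, l1_self] at h3
    have h4 := l1_eq_zero (Nat.le_zero.1 h3)
    exact hww (h1.trans h4)
  have hfree : l1 u w ≤ l1 u w' := by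
    rw [hwd, hwd']
    exact hc3.2 j hj
  obtain ⟨J, τ₁, τ₂, a, ha1, ha2, hd1, hd2, hl1, hl2, hn1, hn2, hoff, hfst, hX, hL', hR'⟩ :=
    lens_words ε hε u u' w w' hc1 hww (by rw [hwd, hwd']; exact hdis) hd hwu hfree
  have hfe2 := hfe a (by
    rcases hfst with ⟨h1, h2⟩ | ⟨h1, h2⟩
    · left
      rw [← hwd]
      exact ⟨h1, h2⟩
    · right
      rw [← hwd]
      exact ⟨h1, h2⟩)
  rw [← hwd] at hfe2
  have hLw : wd 0 l (lft w a) = ε := (hw _).resolve_left hfe2.2
  have hRw : wd 0 l (rgt w a) = ε := by rw [← hfe2.1]; exact hLw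
  -- the rotated word
  obtain ⟨n, hn⟩ : ∃ n, n = (j + l.length - i) % l.length := ⟨_, rfl⟩
  have hnv : n = (if i ≤ j then j - i else j + l.length - i) := by
    rw [hn]
    split_ifs with h1
    · rw [Nat.mod_eq_sub_mod (by omega), Nat.mod_eq_of_lt (by omega)]
      omega
    · rw [Nat.mod_eq_of_lt (by omega)]
  have hn4 : l.length ≤ 4 * n ∧ 4 * n ≤ 3 * l.length := by
    rw [hnv]
    split_ifs with h1 <;> omega
  have hnlt : n < l.length := by omega
  obtain ⟨A, hA⟩ : ∃ A, A = (l.rotate i).take n := ⟨_, rfl⟩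
  obtain ⟨B, hB⟩ : ∃ B, B = (l.rotate i).drop n := ⟨_, rfl⟩
  have hAB : l.rotate i = A ++ B := by rw [hA, hB, List.take_append_drop]
  have hAl : A.length = n := by rw [hA]; simp; omega
  have hBl : B.length = l.length - n := by rw [hB]; simp
  have hrot : l.rotate i = l.drop i ++ l.take i := List.rotate_eq_drop_append_take hi.le
  have hSAP : IsSAP (A ++ B) := by rw [← hAB]; exact h.rotate i hi.le
  have hw0 : (0 : V) + dsp (l.take i) = w := by rw [zero_add, hwd]; rfl
  have htd : dsp (l.take i ++ l.drop i) = 0 := by rw [List.take_append_drop]; exact h.1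
  have hperm : (verts w (A ++ B)).Perm (verts 0 l) := by
    rw [← hAB, hrot]
    have h1 := verts_rotate_perm 0 (l.take i) (l.drop i) htd
    rw [hw0, List.take_append_drop] at h1
    exact h1
  have hwdrot : ∀ c, wd w (A ++ B) c = wd 0 l c := by
    intro c
    rw [← hAB, hrot]
    have h1 := psum_rotate (wdF c) 0 (l.take i) (l.drop i) htd
    rw [hw0, List.take_append_drop] at h1
    exact h1
  have hdA : dsp A = w' - w := by
    have h1 := vtx_rotate l h.1 i n hi hnlt
    have h2 : (i + n) % l.length = j := by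
      rw [hnv]
      split_ifs with h3
      · rw [Nat.mod_eq_of_lt (by omega)]
        omega
      · rw [Nat.mod_eq_sub_mod (by omega), Nat.mod_eq_of_lt (by omega)]
        omega
    rw [h2, ← hwd, ← hwd'] at h1
    have h3 : dsp A = vtx (l.rotate i) n := by rw [hA]; rfl
    rw [h3, ← h1]
    abel
  have hwA : w + dsp A = w' := by rw [hdA]; abel
  have hwt1 : w + dsp τ₁ = w' := by rw [hd1]; abel
  have hwt2 : w + dsp τ₂ = w' := by rw [hd2]; abel
  have hnodP : (verts w (A ++ B)).Nodup := hSAP.nodup _ w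
  have hnodP2 : (verts w A ++ verts w' B).Nodup := by
    rw [verts_append, hwA] at hnodP
    exact hnodP
  rw [List.nodup_append] at hnodP2
  obtain ⟨hPA, hPB, hPAB⟩ := hnodP2
  have honP : ∀ v, v ∈ verts w A ∨ v ∈ verts w' B → v ∈ verts 0 l := by
    intro v hv
    apply hperm.mem_iff.1
    rw [verts_append, hwA, List.mem_append]
    exact hv
  have hwA' : w ∈ verts w A := by
    cases hA2 : A with
    | nil => rw [hA2] at hAl; simp at hAl; omega
    | cons b t => simp [verts]
  have hwB' : w' ∈ verts w' B := by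
    cases hB2 : B with
    | nil => rw [hB2] at hBl; simp at hBl; omega
    | cons b t => simp [verts]
  have hoffP : ∀ v, v ∈ verts w τ₁ ∨ v ∈ verts w τ₂ → v ≠ w → v ≠ w' → v ∉ verts 0 l := by
    intro v hv h1 h2
    rcases hoff v hv with h3 | h3 | h3 | h3
    · exact absurd h3 h1
    · rw [hwd] at h3 h1
      exact not_mem_of_bx hc3 h3 h1
    · rw [hwd'] at h3 h2
      exact not_mem_of_bx hc4 h3 h2
    · rw [hwd] at h3
      exact not_mem_of_near hc3 h3
  have hr1 := rev_verts_facts w τ₁ (by rw [hwt1]; exact hn1)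
  rw [hwt1] at hr1
  have hP1 : IsSAP (A ++ rev τ₁) := by
    refine isSAP_of_nodup w _ ?_ ?_
    · rw [dsp_append, dsp_rev, hd1, hdA]
      abel
    · rw [verts_append, hwA, List.nodup_append]
      refine ⟨hPA, hr1.1, fun v hv v' hv' he => ?_⟩
      subst he
      obtain ⟨h1, h2⟩ := hr1.2 v hv'
      have h3 : v ≠ w' := by
        intro h4
        exact hPAB v hv w' hwB' h4
      rcases h1 with h1 | h1
      · exact hoffP v (Or.inl h1) h2 h3 (honP v (Or.inl hv))
      · exact h3 h1
  have hn2' := hn2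
  rw [List.nodup_append] at hn2'
  have hP2 : IsSAP (τ₂ ++ B) := by
    refine isSAP_of_nodup w _ ?_ ?_
    · rw [dsp_append, hd2, ← hdA, ← dsp_append]
      exact hSAP.1
    · rw [verts_append, hwt2, List.nodup_append]
      refine ⟨hn2'.1, hPB, fun v hv v' hv' he => ?_⟩
      subst he
      have h3 : v ≠ w' := fun h4 => hn2'.2.2 v hv w' (by simp) h4
      have h4 : v ≠ w := by
        intro h5
        subst h5
        exact hPAB v hwA' v hv' rfl
      exact hoffP v (Or.inr hv) h4 h3 (honP v (Or.inr hv'))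
  have hfin := lens ε hε A B τ₁ τ₂ a hSAP hP1 hP2 (by omega) (by omega) ha1 ha2
    (hd1.trans hdA.symm) (hd2.trans hdA.symm)
    (by
      rw [← wd_add 0 w, ← lft_add, zero_add, hwdrot]
      exact hLw)
    (by
      rw [← wd_add 0 w, ← rgt_add, zero_add, hwdrot]
      exact hRw)
    (by rw [← wd_add 0 w, ← lft_add, zero_add]; exact hL')
    (by rw [← wd_add 0 w, ← rgt_add, zero_add]; exact hR')
    (4 * J ^ 2)
    (by
      have h0 : dsp (τ₁ ++ rev τ₂) = 0 := by
        rw [dsp_append, dsp_rev, hd1, hd2]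
        abel
      rw [← psum_xdy_closed w _ h0, hX]
      push_cast
      ring)
  have harea : area (A ++ B) = area l := by
    rw [← hAB]
    exact area_rotate l h.1 i hi.le
  rw [harea] at hfin
  refine ⟨i, J, A, B, τ₁, τ₂, hi, hAB, by omega, by omega, hl1, hl2, ?_, hP1, hP2, hfin.le⟩
  have h1 := area_le l
  by_contra h2
  push_neg at h2
  have h3 : l.length ^ 2 < J ^ 2 := Nat.pow_lt_pow_left h2 (by norm_num)
  omega

end Pool.Agent.Helper2.QP
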