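import Mathlib

/-!
# Quasi-polynomial corrections for area-weighted self-avoiding polygons: definitions

Words over `Fin 4` (steps right, up, left, down) describe lattice walks in `ℤ × ℤ`.
-/

set_option autoImplicit false

namespace Pool.Agent.Helper2.QP

/-- Lattice points; also used for cells: the cell `(x, y)` is the unit square `[x, x+1] × [y, y+1]`. -/
abbrev V := ℤ × ℤ

/-- The four unit steps: right, up, left, down. -/
def stp : Fin 4 → V := ![((1 : ℤ), (0 : ℤ)), ((0 : ℤ), (1 : ℤ)), ((-1 : ℤ), (0 : ℤ)), ((0 : ℤ), (-1 : ℤ))]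

/-- The opposite step. -/
def opp : Fin 4 → Fin 4 := ![2, 3, 0, 1]

/-- Displacement of a word. -/
def dsp : List (Fin 4) → V
  | [] => 0
  | a :: l => stp a + dsp l

/-- The starting points of the steps of the word `l` started at `p`
(so the end point is not in the list). -/
def verts : V → List (Fin 4) → List V
  | _, [] => []
  | p, a :: l => p :: verts (p + stp a) l

/-- The reversed walk: from the end point back to the start. -/
def rev (l : List (Fin 4)) : List (Fin 4) := (l.map opp).reverse

/-- A rooted oriented self-avoiding polygon: closed, all vertices distinct. -/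
def IsSAP (l : List (Fin 4)) : Prop := dsp l = 0 ∧ (verts 0 l).Nodup

/-- The sum of a function of directed edges along a walk started at `p`. -/
def psum (F : V → Fin 4 → ℤ) : V → List (Fin 4) → ℤ
  | _, [] => 0
  | p, a :: l => F p a + psum F (p + stp a) l

/-- The one-form `x dy`. -/
def xdyF : V → Fin 4 → ℤ := fun p a => p.1 * (stp a).2

/-- The integral of `x dy` along the walk started at the origin; twice this is the shoelace sum of a
closed word. -/
def xdy (l : List (Fin 4)) : ℤ := psum xdyF 0 l

/-- The enclosed area. -/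
def area (l : List (Fin 4)) : ℕ := (xdy l).natAbs

/-- The contribution of one step to the winding number of the cell `c`: vertical steps strictly to the
right of the cell, in its row. -/
def wdF (c : V) : V → Fin 4 → ℤ := fun p a =>
  if a = 1 ∧ c.2 = p.2 ∧ c.1 < p.1 then 1
  else if a = 3 ∧ c.2 = p.2 - 1 ∧ c.1 < p.1 then -1 else 0

/-- The winding number of the cell `c` with respect to the walk `l` started at `p`. -/
def wd (p : V) (l : List (Fin 4)) (c : V) : ℤ := psum (wdF c) p l

/-- The contribution of one step to the net number of traversals of the directed edge `(u, b)`. -/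
def trF (u : V) (b : Fin 4) : V → Fin 4 → ℤ := fun p a =>
  if p = u ∧ a = b then 1
  else if p = u + stp b ∧ a = opp b then -1 else 0

/-- The net number of traversals of the directed edge from `u` to `u + stp b`. -/
def tr (p : V) (l : List (Fin 4)) (u : V) (b : Fin 4) : ℤ := psum (trF u b) p l

/-- The cell to the left of the directed edge `(u, a)`. -/
def lft (u : V) (a : Fin 4) : V := u + (![((0 : ℤ), (0 : ℤ)), ((-1 : ℤ), (0 : ℤ)), ((-1 : ℤ), (-1 : ℤ)), ((0 : ℤ), (-1 : ℤ))] : Fin 4 → V) a

/-- The cell to the right of the directed edge `(u, a)`. -/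
def rgt (u : V) (a : Fin 4) : V := u + (![((0 : ℤ), (-1 : ℤ)), ((0 : ℤ), (0 : ℤ)), ((-1 : ℤ), (0 : ℤ)), ((-1 : ℤ), (-1 : ℤ))] : Fin 4 → V) a

/-- The curl of an edge function around the cell `c` (counterclockwise). -/
def curl (F : V → Fin 4 → ℤ) (c : V) : ℤ :=
  F c 0 + F (c + (1, 0)) 1 - F (c + (0, 1)) 0 - F c 1

/-- The `ℓ¹` distance. -/
def l1 (u v : V) : ℕ := (u.1 - v.1).natAbs + (u.2 - v.2).natAbs

/-- The `i`-th vertex of the word `l` started at the origin. -/
def vtx (l : List (Fin 4)) (i : ℕ) : V := dsp (l.take i)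

/-- Vertex number `i` is a vertex of the polygon nearest to `u`. -/
def Near (l : List (Fin 4)) (u : V) (i : ℕ) : Prop :=
  i < l.length ∧ ∀ k < l.length, l1 u (vtx l i) ≤ l1 u (vtx l k)

/-- `u` is a corner of the cell `c`. -/
def Crn (c u : V) : Prop := c.1 ≤ u.1 ∧ u.1 ≤ c.1 + 1 ∧ c.2 ≤ u.2 ∧ u.2 ≤ c.2 + 1

/-- Some cell with nonzero winding number has both `u` and `u'` as corners. -/
def Cor (l : List (Fin 4)) (u u' : V) : Prop := ∃ c, wd 0 l c ≠ 0 ∧ Crn c u ∧ Crn c u'

/-- A cut configuration: `u, u'` equal or adjacent, both corners of one inside cell, with nearest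
polygon vertices number `i` and `j` which are far apart along the polygon. -/
def Cfg (l : List (Fin 4)) (u u' : V) (i j : ℕ) : Prop :=
  l1 u u' ≤ 1 ∧ Cor l u u' ∧ Near l u i ∧ Near l u' j ∧
    l.length ≤ 4 * ((i : ℤ) - j).natAbs ∧ 4 * ((i : ℤ) - j).natAbs ≤ 3 * l.length

/-- `v` lies in the rectangle with opposite corners `u` and `w`. -/
def Bx (u w v : V) : Prop :=
  (min u.1 w.1 ≤ v.1 ∧ v.1 ≤ max u.1 w.1) ∧ (min u.2 w.2 ≤ v.2 ∧ v.2 ≤ max u.2 w.2)

/-- A horizontal segment. -/
def hs (n : ℤ) : List (Fin 4) := List.replicate n.natAbs (if 0 ≤ n then 0 else 2)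

/-- A vertical segment. -/
def vs (n : ℤ) : List (Fin 4) := List.replicate n.natAbs (if 0 ≤ n then 1 else 3)

/-- The L-shaped path from `p` to `q`: first horizontal, then vertical. -/
def Lp (p q : V) : List (Fin 4) := hs (q.1 - p.1) ++ vs (q.2 - p.2)

/-- `v` is on the boundary of the square with centre `u` and half-side `J`. -/
def Bd (u : V) (J : ℕ) (v : V) : Prop := max (v.1 - u.1).natAbs (v.2 - u.2).natAbs = J

open Classical in
/-- The rooted oriented self-avoiding polygons with `n` steps. -/
noncomputable def sap (n : ℕ) : Finset (List (Fin 4)) :=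
  ((Finset.univ : Finset (Fin n → Fin 4)).image List.ofFn).filter IsSAP

/-- The partition function of rooted oriented self-avoiding polygons with `n` steps. -/
noncomputable def Zn (n : ℕ) (q : ℝ) : ℝ := ∑ l ∈ sap n, q ^ area l

end Pool.Agent.Helper2.QP
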