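import Mathlib

/-!
# QP-FEKETE2: the upper bound from exact supermultiplicativity

Paper proof.  `V k = f (k+1) / (4 (k+1))` satisfies `V j * V k ≤ V (j + k)` for `j, k ≥ 1`, so `V k ^ j ≤ V (j k)` and
`f (j k + 1) ≥ 4 (j k + 1) (V k)^j ≥ (V k)^j`; along `m = j k + 1`, `f m ^ (1/m) ≥ (V k)^(j/(j k + 1)) → (V k)^(1/k)`.  The limsup of the bounded
sequence `f m ^ (1/m) ≤ 16` is therefore `≥ (V k)^(1/k)`, i.e. `V k ≤ Λ^k`.
-/

set_option autoImplicit false

namespace Pool.Agent.Helper2.QP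

open Filter Topology

private theorem fek_pow (f : ℕ → ℝ) (h2 : ∀ m, 0 ≤ f m)
    (h4 : ∀ m n : ℕ, 2 ≤ m → 2 ≤ n → ((m : ℝ) + n - 1) * (f m * f n) ≤ 4 * m * n * f (m + n - 1))
    (m : ℕ) (hm : 2 ≤ m) (j : ℕ) (hj : 1 ≤ j) :
    (f m / (4 * (m : ℝ))) ^ j ≤ f (j * (m - 1) + 1) / (4 * ((j * (m - 1) + 1 : ℕ) : ℝ)) := by
  induction j, hj using Nat.le_induction with
  | base =>
    have : 1 * (m - 1) + 1 = m := by omega
    rw [this, pow_one]
  | succ j hj ih =>
    have hm0 : (0 : ℝ) < m := by exact_mod_cast (by omega : 0 < m)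
    set M : ℕ := j * (m - 1) + 1 with hM
    have hM2 : 2 ≤ M := by
      have : 1 * 1 ≤ j * (m - 1) := Nat.mul_le_mul hj (by omega)
      omega
    have hN : m + M - 1 = (j + 1) * (m - 1) + 1 := by
      rw [Nat.add_mul]
      omega
    have hM0 : (0 : ℝ) < M := by exact_mod_cast (by omega : 0 < M)
    have h := h4 m M hm hM2
    rw [hN] at h
    have hNr : ((m : ℝ) + M - 1) = (((j + 1) * (m - 1) + 1 : ℕ) : ℝ) := by
      rw [← hN, Nat.cast_sub (by omega)]
      push_cast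
      ring
    rw [hNr] at h
    set N : ℕ := (j + 1) * (m - 1) + 1 with hNdef
    have hN0 : (0 : ℝ) < N := by exact_mod_cast (by omega : 0 < N)
    have hv : 0 ≤ f m / (4 * (m : ℝ)) := div_nonneg (h2 m) (by positivity)
    calc (f m / (4 * (m : ℝ))) ^ (j + 1) = (f m / (4 * (m : ℝ))) ^ j * (f m / (4 * (m : ℝ))) := pow_succ _ _
      _ ≤ f M / (4 * (M : ℝ)) * (f m / (4 * (m : ℝ))) := mul_le_mul_of_nonneg_right ih hv
      _ ≤ f N / (4 * (N : ℝ)) := by
        rw [div_mul_div_comm, div_le_div_iff₀ (by positivity) (by positivity)]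
        nlinarith

theorem fekete2 (f : ℕ → ℝ) (h1 : ∀ m, 2 ≤ m → 0 < f m) (h2 : ∀ m, 0 ≤ f m)
    (h3 : ∀ m, f m ≤ 16 ^ m)
    (h4 : ∀ m n : ℕ, 2 ≤ m → 2 ≤ n → ((m : ℝ) + n - 1) * (f m * f n) ≤ 4 * m * n * f (m + n - 1)) :
    ∀ m : ℕ, 2 ≤ m →
      f m ≤ 4 * (m : ℝ) * (limsup (fun m : ℕ => (f m) ^ ((1 : ℝ) / m)) atTop) ^ (m - 1) := by
  set g : ℕ → ℝ := fun m : ℕ => (f m) ^ ((1 : ℝ) / m) with hg
  set Λ := limsup g atTop with hΛ
  have hg0 : ∀ m, 0 ≤ g m := fun m => Real.rpow_nonneg (h2 m) _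
  have hgm : ∀ m : ℕ, 1 ≤ m → (g m) ^ m = f m := by
    intro m hm
    have hm0 : (m : ℝ) ≠ 0 := by exact_mod_cast (by omega : m ≠ 0)
    simp only [hg]
    rw [← Real.rpow_natCast, ← Real.rpow_mul (h2 m), one_div_mul_cancel hm0, Real.rpow_one]
  have hg16 : ∀ m, g m ≤ 16 := by
    intro m
    rcases Nat.eq_zero_or_pos m with rfl | hm
    · simp [hg]
    · have h := h3 m
      rw [← hgm m hm] at h
      exact le_of_pow_le_pow_left₀ (by omega) (by norm_num) h
  have hbd : IsBoundedUnder (· ≤ ·) atTop g := isBoundedUnder_of ⟨16, hg16⟩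
  have hbd' : IsBoundedUnder (· ≥ ·) atTop g := isBoundedUnder_of ⟨0, hg0⟩
  have hcb : IsCoboundedUnder (· ≤ ·) atTop g := hbd'.isCoboundedUnder_le
  have hΛ0 : 0 ≤ Λ := by
    refine le_limsup_of_frequently_le ?_ hbd
    exact Eventually.frequently (Eventually.of_forall hg0)
  intro m hm
  have hm0 : (0 : ℝ) < m := by exact_mod_cast (by omega : 0 < m)
  set h0 : ℝ := f m / (4 * (m : ℝ)) with hh0
  have key : ∀ L : ℝ, Λ < L → h0 ≤ L ^ (m - 1) := by
    intro L hL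
    have hL0 : 0 < L := hΛ0.trans_lt hL
    have hev : ∀ᶠ n in atTop, g n < L := eventually_lt_of_limsup_lt hL hbd
    have htend : Tendsto (fun k : ℕ => k * (m - 1) + 1) atTop atTop := by
      refine tendsto_atTop_mono (fun k => ?_) tendsto_id
      have h7 : k * 1 ≤ k * (m - 1) := Nat.mul_le_mul_left _ (by omega)
      simp only [id]; omega
    have hev' := htend.eventually hev
    by_contra hcon
    push Not at hcon
    have hr : 1 < h0 / L ^ (m - 1) := by rwa [one_lt_div (by positivity)]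
    have hinf : Tendsto (fun k : ℕ => (h0 / L ^ (m - 1)) ^ k) atTop atTop :=
      tendsto_pow_atTop_atTop_of_one_lt hr
    have hev2 : ∀ᶠ k : ℕ in atTop, L + 1 ≤ (h0 / L ^ (m - 1)) ^ k := hinf.eventually_ge_atTop _
    obtain ⟨k, ⟨hk1, hk2⟩, hk3⟩ := ((hev'.and hev2).and (eventually_ge_atTop 1)).exists
    have hd := fek_pow f h2 h4 m hm k hk3
    have hfM : f (k * (m - 1) + 1) ≤ L ^ (k * (m - 1) + 1) := by
      rw [← hgm (k * (m - 1) + 1) (by omega)]
      exact pow_le_pow_left₀ (hg0 _) hk1.le _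
    have hle : h0 ^ k ≤ L ^ (k * (m - 1) + 1) := by
      refine hd.trans (le_trans ?_ hfM)
      refine div_le_self (h2 _) ?_
      have h8 : (1 : ℝ) ≤ ((k * (m - 1) + 1 : ℕ) : ℝ) := by exact_mod_cast (by omega : 1 ≤ k * (m - 1) + 1)
      linarith
    rw [div_pow, ← pow_mul, le_div_iff₀ (by positivity)] at hk2
    have : L ^ (k * (m - 1) + 1) = L ^ ((m - 1) * k) * L := by
      rw [pow_succ, Nat.mul_comm]
    rw [this] at hle
    have hp : 0 < L ^ ((m - 1) * k) := by positivity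
    nlinarith
  have hlim : Tendsto (fun L : ℝ => L ^ (m - 1)) (𝓝[>] Λ) (𝓝 (Λ ^ (m - 1))) :=
    ((continuous_pow (m - 1)).tendsto Λ).mono_left nhdsWithin_le_nhds
  have hfin : h0 ≤ Λ ^ (m - 1) := by
    refine ge_of_tendsto hlim ?_
    filter_upwards [self_mem_nhdsWithin] with L hL using key L hL
  rw [hh0, div_le_iff₀ (by positivity)] at hfin
  linarith

end Pool.Agent.Helper2.QP
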