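import Pool.Agent.Helper2.QP.Basic

/-!
# QP-SUPER: lossy supermultiplicativity and crude bounds

Paper proof.  `A n` := words in `sap n` with all vertices lexicographically `≤ 0` (`v.1 < 0 ∨ v.1 = 0 ∧ v.2 ≤ 0`) and last step up (`1`);
`B n` := words in `sap n` with all vertices lexicographically `≥ 0` and last step down (`3`).
* `Zn n ≤ 2 n · ∑_{A n} q^area` for `n ≥ 3`: rotate `l` to its lex-maximal vertex (index `k`); the two polygon edges at that vertex
  are the left and the down edge (its other neighbours are lex-larger), so either the last step is `1` (up) and we have a word of `A n`,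
  or the last step is `0` (right) and the first step is `3` (down), and then the reversed word has last step `opp 3 = 1` and is in `A n`.
  `l ↦ (orientation bit, k, word)` is injective and preserves the area (`area_rotate`, `area_rev`).  Same for `B n` with the lex-minimal vertex
  (edges right and up; last step down `3`, or last step left `2` and first step up `1`, reversed: last step `opp 1 = 3`).
* `(∑_{A n₁}) (∑_{B n₂}) ≤ Zn (n₁ + n₂ - 2)`: `(a, b) ↦ a.dropLast ++ b.dropLast`: `a = a' ++ [1]`, `b = b' ++ [3]`; `dsp a' = (0,-1)`, `dsp b' = (0, 1)`;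
  vertices of `a'` from `0`: those of `a` except `(0,-1)`; of `b'` from `(0,-1)`: those of `b` translated by `(0,-1)`,
  except `(0, 0)`; common points would have `x = 0` and `-1 ≤ y ≤ 0`; so the new word is a SAP.  `xdy (a' ++ b') = xdy a + xdy b`, so
  `area ≤ area a + area b` and `q ^ area ≥ q ^ area a * q ^ area b`.  Injective for fixed `n₁`.
* `Zn_lower`: the bar word `0^{m-1} 1 2^{m-1} 3` of area `m - 1`.
* `Zn_odd`: `dsp l = 0` forces even length.  `Zn_upper`: at most `4^n` words, each weight `≤ 1`.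
-/

set_option autoImplicit false

namespace Pool.Agent.Helper2.QP

/-- Lexicographically at most the origin. -/
def LexLe (v : V) : Prop := v.1 < 0 ∨ (v.1 = 0 ∧ v.2 ≤ 0)

/-- Lexicographically at least the origin. -/
def LexGe (v : V) : Prop := 0 < v.1 ∨ (v.1 = 0 ∧ 0 ≤ v.2)

open Classical in
/-- Polygons rooted at the lexicographically maximal vertex, with last step up. -/
noncomputable def An (n : ℕ) : Finset (List (Fin 4)) :=
  (sap n).filter (fun l => (∀ v ∈ verts 0 l, LexLe v) ∧ l.getLast? = some 1)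

open Classical in
/-- Polygons rooted at the lexicographically minimal vertex, with last step down. -/
noncomputable def Bn (n : ℕ) : Finset (List (Fin 4)) :=
  (sap n).filter (fun l => (∀ v ∈ verts 0 l, LexGe v) ∧ l.getLast? = some 3)

theorem Zn_nonneg (q : ℝ) (hq0 : 0 < q) (n : ℕ) : 0 ≤ Zn n q :=
  Finset.sum_nonneg fun _ _ => pow_nonneg hq0.le _

theorem dsp_map_opp (l : List (Fin 4)) : dsp (l.map opp) = - dsp l := by
  induction l with
  | nil => simp [dsp]
  | cons a l ih =>
    simp only [List.map_cons, dsp, ih, stp_opp]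
    abel

theorem verts_map_opp (p : V) (l : List (Fin 4)) :
    verts (-p) (l.map opp) = (verts p l).map (fun v => -v) := by
  induction l generalizing p with
  | nil => simp [verts]
  | cons a l ih =>
    simp only [List.map_cons, verts, stp_opp]
    rw [← ih (p + stp a)]
    congr 2
    abel

theorem xdy_map_opp (p : V) (l : List (Fin 4)) :
    psum xdyF (-p) (l.map opp) = psum xdyF p l := by
  induction l generalizing p with
  | nil => simp [psum]
  | cons a l ih =>
    simp only [List.map_cons, psum, stp_opp]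
    rw [← ih (p + stp a)]
    congr 1
    · simp only [xdyF, stp_opp, Prod.fst_neg, Prod.snd_neg]
      ring
    · congr 1
      abel

theorem area_map_opp (l : List (Fin 4)) : area (l.map opp) = area l := by
  have h := xdy_map_opp 0 l
  rw [neg_zero] at h
  unfold area xdy
  rw [h]

theorem isSAP_map_opp (l : List (Fin 4)) (h : IsSAP l) : IsSAP (l.map opp) := by
  refine ⟨by rw [dsp_map_opp, h.1, neg_zero], ?_⟩
  have h1 := verts_map_opp 0 l
  rw [neg_zero] at h1
  rw [h1]
  exact h.2.map neg_injective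

theorem sum_A_le_B (q : ℝ) (hq0 : 0 < q) (n : ℕ) :
    ∑ l ∈ An n, q ^ area l ≤ ∑ l ∈ Bn n, q ^ area l := by
  classical
  have hinj : Function.Injective (fun l : List (Fin 4) => l.map opp) :=
    List.map_injective_iff.2 (fun a b h => by rw [← opp_opp a, h, opp_opp])
  calc ∑ l ∈ An n, q ^ area l = ∑ l ∈ An n, q ^ area (l.map opp) := by
        simp only [area_map_opp]
    _ = ∑ l ∈ (An n).image (fun l => l.map opp), q ^ area l := by
        rw [Finset.sum_image (fun a _ b _ h => hinj h)]
    _ ≤ ∑ l ∈ Bn n, q ^ area l := by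
        apply Finset.sum_le_sum_of_subset_of_nonneg
        · intro l hl
          rw [Finset.mem_image] at hl
          obtain ⟨l, hl, rfl⟩ := hl
          simp only [An, Bn, Finset.mem_filter, mem_sap] at hl ⊢
          obtain ⟨⟨h1, h2⟩, h3, h4⟩ := hl
          refine ⟨⟨by simpa using h1, isSAP_map_opp l h2⟩, ?_, ?_⟩
          · intro v hv
            have h5 := verts_map_opp 0 l
            rw [neg_zero] at h5
            rw [h5, List.mem_map] at hv
            obtain ⟨v, hv, rfl⟩ := hv
            have h6 := h3 v hv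
            simp only [LexLe, LexGe, Prod.fst_neg, Prod.snd_neg] at h6 ⊢
            omega
          · rw [List.getLast?_map, h4]
            rfl
        · intro i _ _
          exact pow_nonneg hq0.le _

theorem exists_lexmax (l : List (Fin 4)) (h : 0 < l.length) :
    ∃ k < l.length, ∀ j < l.length, LexLe (vtx l j - vtx l k) := by
  obtain ⟨k, hk, hmax⟩ := Finset.exists_max_image (Finset.range l.length)
    (fun i => toLex (vtx l i)) ⟨0, by simpa using h⟩
  rw [Finset.mem_range] at hk
  refine ⟨k, hk, fun j hj => ?_⟩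
  have h1 := hmax j (by simpa using hj)
  rw [Prod.Lex.toLex_le_toLex] at h1
  simp only [LexLe, Prod.fst_sub, Prod.snd_sub]
  omega

theorem rotate_lexmax (l : List (Fin 4)) (h : IsSAP l) (k : ℕ) (hk : k < l.length)
    (hmax : ∀ j < l.length, LexLe (vtx l j - vtx l k)) :
    ∀ v ∈ verts 0 (l.rotate k), LexLe v := by
  intro v hv
  have h1 : dsp (l.take k ++ l.drop k) = 0 := by rw [List.take_append_drop]; exact h.1
  have h2 := verts_rotate_perm 0 (l.take k) (l.drop k) h1
  rw [List.take_append_drop, ← List.rotate_eq_drop_append_take hk.le, verts_add] at h2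
  have h3 : v + dsp (l.take k) ∈ (verts 0 (l.rotate k)).map (· + dsp (l.take k)) :=
    List.mem_map.2 ⟨v, hv, rfl⟩
  have h4 := h2.mem_iff.1 h3
  rw [mem_verts_zero] at h4
  obtain ⟨j, hj, hj2⟩ := h4
  have h5 := hmax j hj
  have h6 : vtx l j - vtx l k = v := by
    rw [hj2]
    simp [vtx]
  rwa [h6] at h5

theorem last_cases (l : List (Fin 4)) (h : IsSAP l) (h3 : 3 ≤ l.length)
    (hv : ∀ v ∈ verts 0 l, LexLe v) :
    l.getLast? = some 1 ∨ (l.getLast? ≠ some 1 ∧ (rev l).getLast? = some 1) := by
  obtain ⟨t, b, hb⟩ : ∃ t b, l = t ++ [b] := by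
    rcases List.eq_nil_or_concat l with h1 | ⟨t, b, h1⟩
    · rw [h1] at h3
      simp at h3
    · exact ⟨t, b, by simpa using h1⟩
  obtain ⟨a, s, ha⟩ : ∃ a s, l = a :: s := by
    cases l with
    | nil => simp at h3
    | cons a s => exact ⟨a, s, rfl⟩
  have hlen : l.length = t.length + 1 := by rw [hb]; simp
  have hvb : vtx l (l.length - 1) = - stp b := by
    have h6 : l.take (l.length - 1) = t := by
      rw [hb]
      simp
    have h7 := h.1
    rw [hb, dsp_append] at h7
    simp only [dsp, add_zero] at h7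
    rw [vtx, h6]
    exact eq_neg_of_add_eq_zero_left h7
  have hva : vtx l 1 = stp a := by rw [ha]; simp [vtx, dsp]
  have h8 : LexLe (- stp b) := by
    apply hv
    rw [mem_verts_zero]
    exact ⟨l.length - 1, by omega, hvb⟩
  have h9 : LexLe (stp a) := by
    apply hv
    rw [mem_verts_zero]
    exact ⟨1, by omega, hva⟩
  have h10 : stp a ≠ - stp b := by
    rw [← hva, ← hvb]
    intro h11
    have := vtx_inj l h (by omega) (by omega) h11
    omega
  have h11 : l.getLast? = some b := by rw [hb]; simp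
  have h12 : (rev l).getLast? = some (opp a) := by
    rw [ha, rev_cons]
    simp
  rw [h11, h12]
  revert h8 h9 h10
  fin_cases a <;> fin_cases b <;> simp [LexLe, stp, opp]

theorem Zn_le_A (q : ℝ) (hq0 : 0 < q) (n : ℕ) (hn : 3 ≤ n) :
    Zn n q ≤ 2 * n * ∑ l ∈ An n, q ^ area l := by
  classical
  have hch : ∀ l : List (Fin 4), ∃ k : ℕ, l ∈ sap n → k < n ∧ ∀ v ∈ verts 0 (l.rotate k), LexLe v := by
    intro l
    by_cases hl : l ∈ sap n
    · rw [mem_sap] at hl
      obtain ⟨k, hk, hk2⟩ := exists_lexmax l (by omega)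
      exact ⟨k, fun _ => ⟨by omega, rotate_lexmax l hl.2 k hk hk2⟩⟩
    · exact ⟨0, fun h => absurd h hl⟩
  choose κ hκ using hch
  let W : List (Fin 4) → List (Fin 4) := fun l =>
    if (l.rotate (κ l)).getLast? = some 1 then l.rotate (κ l) else rev (l.rotate (κ l))
  let g : List (Fin 4) → (ℕ × Bool) × List (Fin 4) := fun l =>
    ((κ l, decide ((l.rotate (κ l)).getLast? = some 1)), W l)
  have hWA : ∀ l ∈ sap n, W l ∈ An n ∧ area (W l) = area l := by
    intro l hl
    obtain ⟨hk, hv⟩ := hκ l hl
    rw [mem_sap] at hl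
    have hs : IsSAP (l.rotate (κ l)) := hl.2.rotate _ (by omega)
    have hln : (l.rotate (κ l)).length = n := by rw [List.length_rotate, hl.1]
    have har : area (l.rotate (κ l)) = area l := area_rotate l hl.2.1 _ (by omega)
    rcases last_cases _ hs (by omega) hv with h1 | ⟨h1, h2⟩
    · have hW : W l = l.rotate (κ l) := if_pos h1
      rw [hW]
      refine ⟨?_, har⟩
      simp only [An, Finset.mem_filter, mem_sap]
      exact ⟨⟨hln, hs⟩, hv, h1⟩
    · have hW : W l = rev (l.rotate (κ l)) := if_neg h1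
      rw [hW]
      refine ⟨?_, by rw [area_rev _ hs.1, har]⟩
      simp only [An, Finset.mem_filter, mem_sap]
      refine ⟨⟨by rw [length_rev, hln], hs.rev⟩, ?_, h2⟩
      intro v hv'
      have h3 := verts_rev 0 (l.rotate (κ l))
      rw [hs.1, add_zero] at h3
      have h4 : v ∈ verts 0 (rev (l.rotate (κ l))) ++ [(0 : V)] := List.mem_append_left _ hv'
      rw [h3, List.mem_reverse, List.mem_append] at h4
      rcases h4 with h4 | h4
      · exact hv v h4
      · simp at h4
        rw [h4]
        right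
        simp
  have hinj : Set.InjOn g (sap n : Set (List (Fin 4))) := by
    intro l hl l' hl' he
    have hl := hl
    have hl' := hl'
    rw [Finset.mem_coe] at hl hl'
    obtain ⟨hk, -⟩ := hκ l hl
    obtain ⟨hk', -⟩ := hκ l' hl'
    rw [mem_sap] at hl hl'
    simp only [g, Prod.mk.injEq] at he
    obtain ⟨⟨e1, e2⟩, e3⟩ := he
    have e4 : l.rotate (κ l) = l'.rotate (κ l') := by
      by_cases h1 : (l.rotate (κ l)).getLast? = some 1
      · have h2 : (l'.rotate (κ l')).getLast? = some 1 := by simpa [h1] using e2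
        have hW : W l = l.rotate (κ l) := if_pos h1
        have hW' : W l' = l'.rotate (κ l') := if_pos h2
        rw [← hW, ← hW', e3]
      · have h2 : ¬ (l'.rotate (κ l')).getLast? = some 1 := by simpa [h1] using e2
        have hW : W l = rev (l.rotate (κ l)) := if_neg h1
        have hW' : W l' = rev (l'.rotate (κ l')) := if_neg h2
        rw [← rev_rev (l.rotate (κ l)), ← rev_rev (l'.rotate (κ l')), ← hW, ← hW', e3]
    rw [e1] at e4
    exact List.rotate_injective (κ l') e4
  calc Zn n q = ∑ l ∈ sap n, q ^ area (g l).2 := by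
        apply Finset.sum_congr rfl
        intro l hl
        rw [← (hWA l hl).2]
    _ = ∑ y ∈ (sap n).image g, q ^ area y.2 := by rw [Finset.sum_image hinj]
    _ ≤ ∑ y ∈ (Finset.range n ×ˢ (Finset.univ : Finset Bool)) ×ˢ An n, q ^ area y.2 := by
        apply Finset.sum_le_sum_of_subset_of_nonneg
        · intro y hy
          rw [Finset.mem_image] at hy
          obtain ⟨l, hl, rfl⟩ := hy
          rw [Finset.mem_product, Finset.mem_product, Finset.mem_range]
          exact ⟨⟨(hκ l hl).1, Finset.mem_univ _⟩, (hWA l hl).1⟩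
        · intro i _ _
          exact pow_nonneg hq0.le _
    _ = 2 * n * ∑ l ∈ An n, q ^ area l := by
        rw [Finset.sum_product]
        simp only [Finset.sum_const, Finset.card_product, Finset.card_range, Finset.card_univ,
          Fintype.card_bool, nsmul_eq_mul]
        push_cast
        ring

theorem glue_facts (a b : List (Fin 4)) (ha : IsSAP a) (hb : IsSAP b)
    (hva : ∀ v ∈ verts 0 a, LexLe v) (hvb : ∀ v ∈ verts 0 b, LexGe v)
    (a' b' : List (Fin 4)) (ha' : a = a' ++ [1]) (hb' : b = b' ++ [3]) :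
    IsSAP (a' ++ b') ∧ area (a' ++ b') ≤ area a + area b := by
  have hda : dsp a' = (0, -1) := by
    have h1 := ha.1
    rw [ha', dsp_append] at h1
    have h2 : dsp [(1 : Fin 4)] = (0, 1) := by simp [dsp, stp]
    rw [h2] at h1
    rw [eq_neg_of_add_eq_zero_left h1]
    simp
  have hdb : dsp b' = (0, 1) := by
    have h1 := hb.1
    rw [hb', dsp_append] at h1
    have h2 : dsp [(3 : Fin 4)] = (0, -1) := by simp [dsp, stp]
    rw [h2] at h1
    rw [eq_neg_of_add_eq_zero_left h1]
    simp
  have hA : verts 0 a = verts 0 a' ++ [((0 : ℤ), (-1 : ℤ))] := by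
    rw [ha', verts_append, hda, zero_add]
    rfl
  have hB : verts 0 b = verts 0 b' ++ [((0 : ℤ), (1 : ℤ))] := by
    rw [hb', verts_append, hdb, zero_add]
    rfl
  have hnA := ha.2
  have hnB := hb.2
  rw [hA, List.nodup_append] at hnA
  rw [hB, List.nodup_append] at hnB
  have htr : verts ((0 : ℤ), (-1 : ℤ)) b' = (verts 0 b').map (· + ((0 : ℤ), (-1 : ℤ))) := by
    rw [← verts_add, zero_add]
  constructor
  · refine ⟨?_, ?_⟩
    · rw [dsp_append, hda, hdb]
      simp
    · rw [verts_append, hda, zero_add, List.nodup_append]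
      refine ⟨hnA.1, ?_, ?_⟩
      · rw [htr]
        exact hnB.1.map (add_left_injective _)
      · intro v hv v' hv' he
        subst he
        rw [htr, List.mem_map] at hv'
        obtain ⟨w, hw, rfl⟩ := hv'
        have h1 := hva _ (by rw [hA]; exact List.mem_append_left _ hv)
        have h2 := hvb w (by rw [hB]; exact List.mem_append_left _ hw)
        have h3 : w + ((0 : ℤ), (-1 : ℤ)) ≠ ((0 : ℤ), (-1 : ℤ)) := hnA.2.2 _ hv _ (by simp)
        have h4 : w ≠ ((0 : ℤ), (1 : ℤ)) := hnB.2.2 _ hw _ (by simp)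
        obtain ⟨x, y⟩ := w
        simp only [LexLe, LexGe, Prod.mk_add_mk, ne_eq, Prod.mk.injEq] at h1 h2 h3 h4
        omega
  · have h1 : xdy (a' ++ b') = xdy a + xdy b := by
      have e1 : xdy a = xdy a' := by
        unfold xdy
        rw [ha', psum_append, hda]
        simp [psum, xdyF]
      have e2 : xdy b = xdy b' := by
        unfold xdy
        rw [hb', psum_append, hdb]
        simp [psum, xdyF]
      rw [e1, e2]
      unfold xdy
      rw [psum_append, psum_xdy_add, hda]
      simp
    unfold area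
    rw [h1]
    exact Int.natAbs_add_le _ _

theorem A_mul_B_le (q : ℝ) (hq0 : 0 < q) (hq1 : q ≤ 1) (n₁ n₂ : ℕ) (h1 : 1 ≤ n₁) (h2 : 1 ≤ n₂) :
    (∑ l ∈ An n₁, q ^ area l) * (∑ l ∈ Bn n₂, q ^ area l) ≤ Zn (n₁ + n₂ - 2) q := by
  classical
  have hspl : ∀ (l : List (Fin 4)) (c : Fin 4), l.getLast? = some c → l = l.dropLast ++ [c] := by
    intro l c hc
    have h3 : l ≠ [] := by
      rintro rfl
      simp at hc
    have h4 := List.dropLast_append_getLast h3
    rw [List.getLast?_eq_getLast_of_ne_nil h3] at hc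
    simp only [Option.some.injEq] at hc
    rw [hc] at h4
    exact h4.symm
  let g : List (Fin 4) × List (Fin 4) → List (Fin 4) := fun y => y.1.dropLast ++ y.2.dropLast
  have hg : ∀ y ∈ An n₁ ×ˢ Bn n₂, g y ∈ sap (n₁ + n₂ - 2) ∧ area (g y) ≤ area y.1 + area y.2 := by
    rintro ⟨a, b⟩ hy
    simp only [Finset.mem_product, An, Bn, Finset.mem_filter, mem_sap] at hy
    obtain ⟨⟨⟨ha1, ha2⟩, ha3, ha4⟩, ⟨hb1, hb2⟩, hb3, hb4⟩ := hy
    obtain ⟨h3, h4⟩ := glue_facts a b ha2 hb2 ha3 hb3 a.dropLast b.dropLast (hspl a 1 ha4)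
      (hspl b 3 hb4)
    refine ⟨?_, h4⟩
    rw [mem_sap]
    refine ⟨?_, h3⟩
    simp only [g, List.length_append, List.length_dropLast]
    omega
  have hinj : Set.InjOn g (An n₁ ×ˢ Bn n₂ : Finset _) := by
    rintro ⟨a, b⟩ hy ⟨a', b'⟩ hy' he
    rw [Finset.mem_coe] at hy hy'
    simp only [Finset.mem_product, An, Bn, Finset.mem_filter, mem_sap] at hy hy'
    obtain ⟨⟨⟨ha1, ha2⟩, ha3, ha4⟩, ⟨hb1, hb2⟩, hb3, hb4⟩ := hy
    obtain ⟨⟨⟨ha1', ha2'⟩, ha3', ha4'⟩, ⟨hb1', hb2'⟩, hb3', hb4'⟩ := hy'
    have h3 : a.dropLast.length = a'.dropLast.length := by simp [ha1, ha1']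
    obtain ⟨h4, h5⟩ := List.append_inj he h3
    simp only at h4 h5
    rw [hspl a 1 ha4, hspl a' 1 ha4', hspl b 3 hb4, hspl b' 3 hb4', h4, h5]
  calc (∑ l ∈ An n₁, q ^ area l) * (∑ l ∈ Bn n₂, q ^ area l)
      = ∑ y ∈ An n₁ ×ˢ Bn n₂, q ^ (area y.1 + area y.2) := by
        rw [Finset.sum_mul_sum, Finset.sum_product]
        simp only [pow_add]
    _ ≤ ∑ y ∈ An n₁ ×ˢ Bn n₂, q ^ area (g y) := by
        apply Finset.sum_le_sum
        intro y hy
        exact pow_le_pow_of_le_one hq0.le hq1 (hg y hy).2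
    _ = ∑ l ∈ (An n₁ ×ˢ Bn n₂).image g, q ^ area l := by rw [Finset.sum_image hinj]
    _ ≤ Zn (n₁ + n₂ - 2) q := by
        apply Finset.sum_le_sum_of_subset_of_nonneg
        · intro l hl
          rw [Finset.mem_image] at hl
          obtain ⟨y, hy, rfl⟩ := hl
          exact (hg y hy).1
        · intro i _ _
          exact pow_nonneg hq0.le _

theorem supermult (q : ℝ) (hq0 : 0 < q) (hq1 : q ≤ 1) (n₁ n₂ : ℕ) (h1 : 4 ≤ n₁) (h2 : 4 ≤ n₂) :
    Zn n₁ q * Zn n₂ q ≤ 4 * n₁ * n₂ * Zn (n₁ + n₂ - 2) q := by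
  have e1 := Zn_le_A q hq0 n₁ (by omega)
  have e2 := (Zn_le_A q hq0 n₂ (by omega)).trans
    (mul_le_mul_of_nonneg_left (sum_A_le_B q hq0 n₂) (by positivity))
  have e3 := A_mul_B_le q hq0 hq1 n₁ n₂ (by omega) (by omega)
  have p1 := Zn_nonneg q hq0 n₂
  have p2 : 0 ≤ ∑ l ∈ An n₁, q ^ area l := Finset.sum_nonneg fun _ _ => pow_nonneg hq0.le _
  calc Zn n₁ q * Zn n₂ q
      ≤ (2 * n₁ * ∑ l ∈ An n₁, q ^ area l) * (2 * n₂ * ∑ l ∈ Bn n₂, q ^ area l) :=
        mul_le_mul e1 e2 p1 (by positivity)
    _ = 4 * n₁ * n₂ * ((∑ l ∈ An n₁, q ^ area l) * ∑ l ∈ Bn n₂, q ^ area l) := by ring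
    _ ≤ 4 * n₁ * n₂ * Zn (n₁ + n₂ - 2) q := mul_le_mul_of_nonneg_left e3 (by positivity)

theorem dsp_replicate (n : ℕ) (a : Fin 4) : dsp (List.replicate n a) = n • stp a := by
  induction n with
  | zero => simp [dsp]
  | succ n ih => rw [List.replicate_succ, dsp, ih, succ_nsmul, add_comm]

theorem verts_replicate (p : V) (n : ℕ) (a : Fin 4) :
    verts p (List.replicate n a) = (List.range n).map (fun i : ℕ => p + i • stp a) := by
  induction n generalizing p with
  | zero => simp [verts]
  | succ n ih =>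
    rw [List.replicate_succ, verts, ih, List.range_succ_eq_map, List.map_cons, List.map_map]
    simp only [zero_nsmul, add_zero]
    congr 1
    apply List.map_congr_left
    intro i _
    simp only [Function.comp, succ_nsmul]
    abel

theorem psum_replicate_zero (F : V → Fin 4 → ℤ) (a : Fin 4) (hF : ∀ p, F p a = 0) (p : V) (n : ℕ) :
    psum F p (List.replicate n a) = 0 := by
  induction n generalizing p with
  | zero => rfl
  | succ n ih => rw [List.replicate_succ, psum, ih, hF, add_zero]

theorem Zn_lower (q : ℝ) (hq0 : 0 < q) (m : ℕ) (hm : 2 ≤ m) : q ^ (m - 1) ≤ Zn (2 * m) q := by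
  obtain ⟨k, rfl⟩ : ∃ k, m = k + 1 := ⟨m - 1, by omega⟩
  let l : List (Fin 4) := (List.replicate k 0 ++ [1]) ++ (List.replicate k 2 ++ [3])
  have e0 : stp 0 = ((1 : ℤ), (0 : ℤ)) := rfl
  have e1 : stp 1 = ((0 : ℤ), (1 : ℤ)) := rfl
  have e2 : stp 2 = ((-1 : ℤ), (0 : ℤ)) := rfl
  have e3 : stp 3 = ((0 : ℤ), (-1 : ℤ)) := rfl
  have hd1 : dsp (List.replicate k 0 ++ [(1 : Fin 4)]) = ((k : ℤ), (1 : ℤ)) := by
    rw [dsp_append, dsp_replicate, e0]
    simp [dsp, e1]
  have hmem : l ∈ sap (2 * (k + 1)) := by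
    rw [mem_sap]
    refine ⟨?_, ?_, ?_⟩
    · simp [l]
      omega
    · show dsp ((List.replicate k 0 ++ [1]) ++ (List.replicate k 2 ++ [3])) = 0
      rw [dsp_append, hd1, dsp_append, dsp_replicate, e2]
      simp [dsp, e3]
    · show (verts 0 ((List.replicate k 0 ++ [1]) ++ (List.replicate k 2 ++ [3]))).Nodup
      rw [verts_append, hd1, verts_append, verts_append, verts_replicate, verts_replicate,
        dsp_replicate, dsp_replicate]
      have hA : ((List.range k).map (fun i : ℕ => (0 : V) + i • stp 0) ++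
          verts (0 + k • stp 0) [(1 : Fin 4)]) =
          (List.range (k + 1)).map (fun i : ℕ => ((i : ℤ), (0 : ℤ))) := by
        rw [List.range_succ, List.map_append]
        simp [verts, e0]
      have hB : ((List.range k).map (fun i : ℕ => (0 : V) + ((k : ℤ), (1 : ℤ)) + i • stp 2) ++
          verts (0 + ((k : ℤ), (1 : ℤ)) + k • stp 2) [(3 : Fin 4)]) =
          (List.range (k + 1)).map (fun i : ℕ => ((k : ℤ) - i, (1 : ℤ))) := by
        rw [List.range_succ, List.map_append]
        simp [verts, e2, sub_eq_add_neg]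
      rw [hA, hB, List.nodup_append]
      refine ⟨?_, ?_, ?_⟩
      · refine (List.nodup_range).map ?_
        intro i j hij
        simpa using hij
      · refine (List.nodup_range).map ?_
        intro i j hij
        simpa using hij
      · intro v hv v' hv' he
        rw [List.mem_map] at hv hv'
        obtain ⟨i, -, rfl⟩ := hv
        obtain ⟨j, -, rfl⟩ := hv'
        simp at he
  have harea : area l = k := by
    show (xdy ((List.replicate k 0 ++ [1]) ++ (List.replicate k 2 ++ [3]))).natAbs = k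
    unfold xdy
    rw [psum_append, hd1, psum_append, psum_append, psum_replicate_zero, psum_replicate_zero,
      dsp_replicate, dsp_replicate, e0, e2]
    · simp [psum, xdyF, e1, e3]
    · intro p
      simp [xdyF, e2]
    · intro p
      simp [xdyF, e0]
  have h1 : q ^ area l ≤ Zn (2 * (k + 1)) q :=
    Finset.single_le_sum (f := fun l => q ^ area l) (fun _ _ => pow_nonneg hq0.le _) hmem
  rw [harea] at h1
  simpa using h1

theorem Zn_upper (q : ℝ) (hq0 : 0 < q) (hq1 : q ≤ 1) (n : ℕ) : Zn n q ≤ 4 ^ n := by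
  classical
  have h1 : Zn n q ≤ ∑ _l ∈ sap n, (1 : ℝ) :=
    Finset.sum_le_sum fun l _ => pow_le_one₀ hq0.le hq1
  have h2 : (sap n).card ≤ 4 ^ n := by
    refine (Finset.card_filter_le _ _).trans (Finset.card_image_le.trans ?_)
    simp
  rw [Finset.sum_const, nsmul_eq_mul, mul_one] at h1
  refine h1.trans ?_
  exact_mod_cast h2

theorem parity (l : List (Fin 4)) : ((dsp l).1 + (dsp l).2 - l.length) % 2 = 0 := by
  induction l with
  | nil => simp [dsp]
  | cons a l ih =>
    simp only [dsp, Prod.fst_add, Prod.snd_add, List.length_cons, Nat.cast_add, Nat.cast_one]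
    have h1 : (stp a).1 + (stp a).2 = 1 ∨ (stp a).1 + (stp a).2 = -1 := by
      fin_cases a <;> simp [stp]
    omega

theorem Zn_odd (q : ℝ) (k : ℕ) : Zn (2 * k + 1) q = 0 := by
  apply Finset.sum_eq_zero
  intro l hl
  exfalso
  rw [mem_sap] at hl
  have h1 := parity l
  rw [hl.1, hl.2.1] at h1
  simp at h1

end Pool.Agent.Helper2.QP
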