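import Pool.Agent.Helper2.QP.AnaMain
import Pool.Agent.Helper2.QP.Count
import Pool.Agent.Helper2.QP.Super

/-!
# QP-FINAL: the theorem in the notation of the frozen statement
-/

set_option autoImplicit false

namespace Pool.Agent.Helper2.QP

open Filter Topology

private theorem dsp_take_ofFn {n : ℕ} (s : Fin n → Fin 4) (k : ℕ) :
    dsp ((List.ofFn s).take k) = ∑ i ∈ Finset.univ.filter (fun i : Fin n => i.val < k), stp (s i) := by
  induction k with
  | zero => simp [dsp]
  | succ k ih =>
    by_cases hk : k < n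
    · have h1 : (List.ofFn s).take (k + 1) = (List.ofFn s).take k ++ [s ⟨k, hk⟩] := by
        rw [List.take_succ, List.getElem?_eq_getElem (by simpa using hk)]
        simp
      have h2 : Finset.univ.filter (fun i : Fin n => i.val < k + 1) =
          insert (⟨k, hk⟩ : Fin n) (Finset.univ.filter (fun i : Fin n => i.val < k)) := by
        ext i
        simp only [Finset.mem_filter, Finset.mem_univ, true_and, Finset.mem_insert, Fin.ext_iff]
        omega
      rw [h1, dsp_append, ih, h2, Finset.sum_insert (by simp)]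
      simp [dsp, add_comm]
    · have h1 : (List.ofFn s).take (k + 1) = (List.ofFn s).take k := by
        rw [List.take_of_length_le (by simp; omega), List.take_of_length_le (by simp; omega)]
      have h2 : Finset.univ.filter (fun i : Fin n => i.val < k + 1) =
          Finset.univ.filter (fun i : Fin n => i.val < k) := by
        ext i
        have := i.2
        simp only [Finset.mem_filter, Finset.mem_univ, true_and]
        omega
      rw [h1, h2, ih]

private theorem psum_ofFn (F : V → Fin 4 → ℤ) {n : ℕ} (s : Fin n → Fin 4) (p : V) :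
    psum F p (List.ofFn s) = ∑ k : Fin n, F (p + dsp ((List.ofFn s).take k.val)) (s k) := by
  induction n generalizing p with
  | zero => simp [psum]
  | succ n ih =>
    rw [List.ofFn_succ, psum, ih, Fin.sum_univ_succ]
    congr 1
    · simp [dsp]
    · refine Finset.sum_congr rfl fun k _ => ?_
      simp only [Fin.val_succ, List.take_succ_cons, dsp, add_assoc]

private theorem psum_telescope (p : V) (l : List (Fin 4)) :
    psum (fun p a => p.1 * (stp a).2 + p.2 * (stp a).1) p l =
      (p + dsp l).1 * (p + dsp l).2 - p.1 * p.2 := by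
  induction l generalizing p with
  | nil => simp [psum, dsp]
  | cons a l ih =>
    have h0 : (stp a).1 * (stp a).2 = 0 := by fin_cases a <;> simp [stp]
    rw [psum, ih, dsp]
    simp only [Prod.fst_add, Prod.snd_add]
    linear_combination -h0

private theorem psum_add_fun (F G : V → Fin 4 → ℤ) (p : V) (l : List (Fin 4)) :
    psum (fun p a => F p a + G p a) p l = psum F p l + psum G p l := by
  induction l generalizing p with
  | nil => simp [psum]
  | cons a l ih => simp only [psum, ih]; ring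

private theorem shoelace (l : List (Fin 4)) (h : dsp l = 0) :
    psum (fun p a => p.1 * (stp a).2 - (stp a).1 * p.2) 0 l = 2 * xdy l := by
  have h1 := psum_telescope 0 l
  rw [h] at h1
  have h2 := psum_add_fun (fun p a => p.1 * (stp a).2 - (stp a).1 * p.2)
    (fun p a => p.1 * (stp a).2 + p.2 * (stp a).1) 0 l
  have h3 := psum_add_fun xdyF xdyF 0 l
  have h4 : (fun (p : V) (a : Fin 4) => (p.1 * (stp a).2 - (stp a).1 * p.2) +
      (p.1 * (stp a).2 + p.2 * (stp a).1)) = fun p a => xdyF p a + xdyF p a := by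
    funext p a; simp only [xdyF]; ring
  rw [h4, h3, h1] at h2
  simp only [xdy]
  have h5 : ((0 : V) + 0).1 * ((0 : V) + 0).2 - (0 : V).1 * (0 : V).2 = 0 := by simp
  rw [h5] at h2
  linarith

/-- Translation of the frozen partition function into words. -/
theorem frozen_eq (P : (m : ℕ) → (Fin (2*m) → Fin 4) → ℕ → ℤ × ℤ)
    (hP : ∀ m s k, P m s k = ∑ i ∈ Finset.univ.filter (fun i : Fin (2*m) => i.val < k),
        (![((1:ℤ), (0:ℤ)), ((0:ℤ), (1:ℤ)), ((-1:ℤ), (0:ℤ)), ((0:ℤ), (-1:ℤ))] : Fin 4 → ℤ × ℤ) (s i))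
    (Z : ℕ → ℝ → ℝ)
    (hZ : ∀ m q, Z m q = ∑ s ∈ Finset.univ.filter (fun s : Fin (2*m) → Fin 4 =>
          P m s (2*m) = 0 ∧ ∀ j k : Fin (2*m), P m s j.val = P m s k.val → j = k),
        q ^ ((((|∑ k : Fin (2*m), ((P m s k.val).1 * (P m s (k.val+1)).2
              - (P m s (k.val+1)).1 * (P m s k.val).2)| : ℤ) : ℝ)) / 2))
    (m : ℕ) (q : ℝ) (hq : 0 < q) : Z m q = Zn (2 * m) q := by
  classical
  have hPd : ∀ (s : Fin (2 * m) → Fin 4) (k : ℕ), P m s k = dsp ((List.ofFn s).take k) := by
    intro s k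
    rw [hP, dsp_take_ofFn]
    rfl
  have hsap : ∀ s : Fin (2 * m) → Fin 4, IsSAP (List.ofFn s) ↔
      (P m s (2*m) = 0 ∧ ∀ j k : Fin (2*m), P m s j.val = P m s k.val → j = k) := by
    intro s
    have hlen : (List.ofFn s).length = 2 * m := List.length_ofFn
    have h0 : P m s (2 * m) = dsp (List.ofFn s) := by
      rw [hPd, List.take_of_length_le (by rw [hlen])]
    constructor
    · intro h
      refine ⟨by rw [h0]; exact h.1, fun j k hjk => ?_⟩
      rw [hPd, hPd] at hjk
      exact Fin.ext (vtx_inj (List.ofFn s) h (by rw [hlen]; exact j.2) (by rw [hlen]; exact k.2) hjk)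
    · rintro ⟨h1, h2⟩
      refine ⟨by rw [← h0]; exact h1, ?_⟩
      rw [List.nodup_iff_injective_getElem]
      rintro ⟨i, hi⟩ ⟨j, hj⟩ hij
      rw [length_verts, hlen] at hi hj
      have hij' : (verts 0 (List.ofFn s))[i]'(by rw [length_verts, hlen]; exact hi) =
        (verts 0 (List.ofFn s))[j]'(by rw [length_verts, hlen]; exact hj) := hij
      rw [verts_getElem, verts_getElem, zero_add, zero_add] at hij'
      have := h2 ⟨i, hi⟩ ⟨j, hj⟩ (by rw [hPd, hPd]; exact hij')
      simpa using this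
  rw [hZ, Zn, sap]
  rw [Finset.filter_image, Finset.sum_image (fun x _ y _ h => List.ofFn_injective h)]
  refine Finset.sum_congr ?_ ?_
  · ext s
    simp only [Finset.mem_filter, Finset.mem_univ, true_and]
    rw [hsap]
  · intro s hs
    have hs' : IsSAP (List.ofFn s) := by
      simp only [Finset.mem_filter, Finset.mem_univ, true_and] at hs
      first | exact hs | exact (hsap s).2 hs
    have hsum : ∑ k : Fin (2*m), ((P m s k.val).1 * (P m s (k.val+1)).2
              - (P m s (k.val+1)).1 * (P m s k.val).2) = 2 * xdy (List.ofFn s) := by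
      rw [← shoelace _ hs'.1, psum_ofFn]
      refine Finset.sum_congr rfl fun k _ => ?_
      have hk1 : P m s (k.val + 1) = P m s k.val + stp (s k) := by
        rw [hPd, hPd]
        have h1 : (List.ofFn s).take (k.val + 1) = (List.ofFn s).take k.val ++ [s k] := by
          rw [List.take_succ, List.getElem?_eq_getElem (by simp)]
          simp
        rw [h1, dsp_append]
        simp [dsp]
      rw [hk1, zero_add, ← hPd]
      simp only [Prod.fst_add, Prod.snd_add]
      ring
    rw [hsum]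
    have habs : (((|2 * xdy (List.ofFn s)| : ℤ) : ℝ)) / 2 = ((area (List.ofFn s) : ℕ) : ℝ) := by
      rw [area, abs_mul, Int.abs_eq_natAbs (xdy (List.ofFn s))]
      push_cast
      simp
    rw [habs, Real.rpow_natCast]

theorem words_main (a b : ℝ) (ha : 0 < a) (hab : a ≤ b) (hb : b < 1) : ∃ K : ℝ, 1 ≤ K ∧
    ∀ q : ℝ, a ≤ q → q ≤ b →
    ∀ Λ : ℝ, Λ = limsup (fun m : ℕ => (Zn (2 * m) q) ^ ((1 : ℝ) / m)) atTop →
      0 < Λ ∧
      (∀ m : ℕ, 2 ≤ m → Real.exp (-K * (Real.log m) ^ 2) * Λ ^ m ≤ Zn (2 * m) q ∧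
        Zn (2 * m) q ≤ K * (m : ℝ) ^ 2 * Λ ^ m) ∧
      (∀ n : ℕ, 2 ≤ n → ∃ j : ℕ, 2 ≤ j ∧ n ≤ 16 * j ∧ j ≤ n ∧
        Real.exp (-K * Real.log j) * Λ ^ j ≤ Zn (2 * j) q) := by
  obtain ⟨K, hK1, hK⟩ := ana_main a b ha hab hb
  refine ⟨K, hK1, fun q hqa hqb Λ hΛ => ?_⟩
  have hq0 : 0 < q := lt_of_lt_of_le ha hqa
  have hq1 : q < 1 := lt_of_le_of_lt hqb hb
  refine hK q hqa hqb (fun m => Zn (2 * m) q) (fun m hm => Zn_lower q hq0 m hm)
    (fun m => Zn_nonneg q hq0 _) (fun m => ?_) (fun m n hm hn => ?_) (fun m hm => ?_) Λ hΛ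
  · refine (Zn_upper q hq0 hq1.le (2 * m)).trans (le_of_eq ?_)
    rw [pow_mul]; norm_num
  · have h := supermult q hq0 hq1.le (2 * m) (2 * n) (by omega) (by omega)
    have e : 2 * m + 2 * n - 2 = 2 * (m + n - 1) := by omega
    rw [e] at h
    refine h.trans (le_of_eq ?_)
    push_cast; ring
  · obtain ⟨i, J, t₁, t₂, h1, h2, h3, h4, h5⟩ := counting q hq0 hq1 (2 * m) (by omega)
    have hpos : 0 < Zn (2 * m) q := lt_of_lt_of_le (by positivity) (Zn_lower q hq0 m (by omega))
    have hne : ∀ x y c d : ℝ, 0 < x → x ≤ y * (c * d) → d ≠ 0 := by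
      rintro x y c d hx hle rfl; simp at hle; linarith
    have hB : Zn (2 * m - i + t₂) q ≠ 0 := hne _ _ _ _ hpos h5
    have hA : Zn (i + t₁) q ≠ 0 := by
      intro h0
      rw [h0] at h5
      simp at h5
      linarith
    have hAe : ∃ m₁, i + t₁ = 2 * m₁ := by
      rcases Nat.even_or_odd' (i + t₁) with ⟨k, hk | hk⟩
      · exact ⟨k, hk⟩
      · exact absurd (by rw [hk]; exact Zn_odd q k) hA
    have hBe : ∃ m₂, 2 * m - i + t₂ = 2 * m₂ := by
      rcases Nat.even_or_odd' (2 * m - i + t₂) with ⟨k, hk | hk⟩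
      · exact ⟨k, hk⟩
      · exact absurd (by rw [hk]; exact Zn_odd q k) hB
    obtain ⟨m₁, hm₁⟩ := hAe
    obtain ⟨m₂, hm₂⟩ := hBe
    refine ⟨m₁, m₂, J, by omega, by omega, by omega, by omega, ?_⟩
    rw [hm₁, hm₂] at h5
    refine h5.trans (le_of_eq ?_)
    push_cast
    ring

end Pool.Agent.Helper2.QP
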