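import Pool.Agent.Helper2.QP.Basic

/-!
# QP-GREEN: discrete Green formula and jump of the winding number

Paper proof.  `green`: fix `F` and the box `[-M, M]²`.  Let `H X y = ∑ x ∈ Ico (-M) X, F (x, y) 0`,
`K y = ∑ t ∈ Ico (-M) y, F (-M, t) 1`, `Φ (X, y) = H X y + K y`.  For a step `(p, a)` with both ends in the
box, `F p a - ∑ c, wdF c p a * curl F c = Φ (p + stp a) - Φ p`: for `a = 0` all `wdF` vanish and the left side
is `F p 0 = H (X+1) y - H X y`; for `a = 1` the sum is over cells `(x, y)`, `-M ≤ x < X`, and telescopes: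
`∑ curl = F (X, y) 1 - F (-M, y) 1 + H X y - H X (y+1)`; `a = 2, 3` follow by antisymmetry.  Sum over the
walk; closed walks kill `Φ`.
`wd_lft_rgt`, vertical edges: `wdF (x-1, y) p a - wdF (x, y) p a = trF (x, y) 1 p a` for every step (no
closedness needed); horizontal edges: for a step `(p, a)`,
`wdF (x, y) p a - wdF (x, y-1) p a - trF (x, y) 0 p a = G (p + stp a) - G p` with
`G v = -1 if v.2 = y and x < v.1, else 0` (up to sign, check), so it vanishes for closed walks; directions
`2, 3` from `0, 1` by `lft u 2 = rgt (u + stp 2) 0` etc.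
-/

set_option autoImplicit false

namespace Pool.Agent.Helper2.QP

/-- Telescoping along a walk inside a region `B`. -/
theorem gr_psum_tel (F : V → Fin 4 → ℤ) (Φ : V → ℤ) (B : V → Prop)
    (hB : ∀ v, B v → ∀ a, B (v + stp a) → F v a = Φ (v + stp a) - Φ v) (p : V)
    (l : List (Fin 4)) (hv : ∀ v ∈ verts p l, B v) (he : B (p + dsp l)) :
    psum F p l = Φ (p + dsp l) - Φ p := by
  induction l generalizing p with
  | nil => simp [psum, dsp]
  | cons a l ih =>
    have h1 : B p := hv p (by simp [verts])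
    have h3 : p + stp a + dsp l = p + dsp (a :: l) := by simp [dsp, add_assoc]
    have h2 : B (p + stp a) := by
      cases l with
      | nil => simpa [dsp] using he
      | cons b l => exact hv _ (by simp [verts])
    have h4 := ih (p + stp a) (fun v hv' => hv v (by simp [verts, hv'])) (by rw [h3]; exact he)
    rw [h3] at h4
    simp only [psum]
    rw [h4, hB p h1 a h2]
    ring

/-- Telescoping along a closed walk inside a region `B`. -/
theorem gr_psum_tel_closed (F : V → Fin 4 → ℤ) (Φ : V → ℤ) (B : V → Prop)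
    (hB : ∀ v, B v → ∀ a, B (v + stp a) → F v a = Φ (v + stp a) - Φ v) (p : V)
    (l : List (Fin 4)) (hl : dsp l = 0) (hv : ∀ v ∈ verts p l, B v) : psum F p l = 0 := by
  cases l with
  | nil => rfl
  | cons a l =>
    have h1 : B (p + dsp (a :: l)) := by
      rw [hl, add_zero]
      exact hv p (by simp [verts])
    have h2 := gr_psum_tel F Φ B hB p (a :: l) hv h1
    rw [h2, hl, add_zero, sub_self]

theorem gr_psum_sub (F G : V → Fin 4 → ℤ) (p : V) (l : List (Fin 4)) :
    psum (fun v a => F v a - G v a) p l = psum F p l - psum G p l := by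
  induction l generalizing p with
  | nil => simp [psum]
  | cons a l ih =>
    simp only [psum]
    rw [ih]
    ring

theorem gr_psum_neg (F : V → Fin 4 → ℤ) (p : V) (l : List (Fin 4)) :
    psum (fun v a => - F v a) p l = - psum F p l := by
  induction l generalizing p with
  | nil => simp [psum]
  | cons a l ih =>
    simp only [psum]
    rw [ih]
    ring

theorem gr_psum_sum (S : Finset V) (W : V → V → Fin 4 → ℤ) (k : V → ℤ) (p : V) (l : List (Fin 4)) :
    psum (fun v a => ∑ c ∈ S, W c v a * k c) p l = ∑ c ∈ S, psum (W c) p l * k c := by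
  induction l generalizing p with
  | nil => simp [psum]
  | cons a l ih =>
    simp only [psum]
    rw [ih, ← Finset.sum_add_distrib]
    refine Finset.sum_congr rfl fun c _ => ?_
    ring

/-- The potential of the discrete Green formula. -/
noncomputable def gr_gpot (F : V → Fin 4 → ℤ) (M : ℤ) (v : V) : ℤ :=
  ∑ x ∈ Finset.Ico (-M) v.1, F (x, v.2) 0 + ∑ t ∈ Finset.Ico (-M) v.2, F (-M, t) 1

theorem gr_sum_Ico_succ (f : ℤ → ℤ) (a b : ℤ) (h : a ≤ b) :
    ∑ x ∈ Finset.Ico a (b + 1), f x = ∑ x ∈ Finset.Ico a b, f x + f b := by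
  have h1 : Finset.Ico a (b + 1) = insert b (Finset.Ico a b) := by
    ext x
    simp only [Finset.mem_Ico, Finset.mem_insert]
    omega
  rw [h1, Finset.sum_insert (by simp), add_comm]

theorem gr_sum_Ico_tel (f : ℤ → ℤ) (a b : ℤ) (h : a ≤ b) :
    ∑ x ∈ Finset.Ico a b, (f (x + 1) - f x) = f b - f a := by
  obtain ⟨n, rfl⟩ : ∃ n : ℕ, b = a + n := ⟨(b - a).toNat, by omega⟩
  clear h
  induction n with
  | zero => simp
  | succ n ih =>
    have h1 : a + ((n + 1 : ℕ) : ℤ) = a + n + 1 := by push_cast; ring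
    rw [h1, gr_sum_Ico_succ _ _ _ (by omega), ih]
    ring

theorem gr_green_step0 (F : V → Fin 4 → ℤ) (M : ℤ) (v : V) (hv : |v.1| ≤ M ∧ |v.2| ≤ M) :
    F v 0 - ∑ c ∈ Finset.Icc (-M) M ×ˢ Finset.Icc (-M) M, wdF c v 0 * curl F c =
      gr_gpot F M (v + stp 0) - gr_gpot F M v := by
  obtain ⟨X, y⟩ := v
  have h1 : ∀ c, wdF c (X, y) 0 = 0 := by
    intro c
    simp [wdF]
  have h2 : (X, y) + stp 0 = (X + 1, y) := by simp [stp]
  simp only [h1, zero_mul, Finset.sum_const_zero, sub_zero, h2, gr_gpot]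
  have h3 : -M ≤ X := (abs_le.1 hv.1).1
  rw [gr_sum_Ico_succ _ _ _ h3]
  ring

theorem gr_green_step1 (F : V → Fin 4 → ℤ) (M : ℤ) (v : V) (hv : |v.1| ≤ M ∧ |v.2| ≤ M) :
    F v 1 - ∑ c ∈ Finset.Icc (-M) M ×ˢ Finset.Icc (-M) M, wdF c v 1 * curl F c =
      gr_gpot F M (v + stp 1) - gr_gpot F M v := by
  obtain ⟨X, y⟩ := v
  have hX := abs_le.1 hv.1
  have hy := abs_le.1 hv.2
  simp only at hX hy
  have h2 : (X, y) + stp 1 = (X, y + 1) := by simp [stp]
  have h3 : ∑ c ∈ Finset.Icc (-M) M ×ˢ Finset.Icc (-M) M, wdF c (X, y) 1 * curl F c =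
      ∑ x ∈ Finset.Ico (-M) X, curl F (x, y) := by
    rw [Finset.sum_product]
    have h4 : ∀ x ∈ Finset.Icc (-M) M, ∑ z ∈ Finset.Icc (-M) M, wdF (x, z) (X, y) 1 * curl F (x, z) =
        if x < X then curl F (x, y) else 0 := by
      intro x _
      rw [Finset.sum_eq_single y]
      · by_cases hx : x < X
        · have h8 : wdF (x, y) (X, y) 1 = 1 := by simp [wdF, hx]
          rw [h8, one_mul, if_pos hx]
        · have h8 : wdF (x, y) (X, y) 1 = 0 := by simp [wdF, hx]
          rw [h8, zero_mul, if_neg hx]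
      · intro z _ hz
        have h7 : wdF (x, z) (X, y) 1 = 0 := by simp [wdF, hz]
        rw [h7, zero_mul]
      · intro hn
        exact absurd (Finset.mem_Icc.2 hy) hn
    rw [Finset.sum_congr rfl h4, ← Finset.sum_filter]
    refine Finset.sum_congr ?_ fun _ _ => rfl
    ext x
    simp only [Finset.mem_filter, Finset.mem_Icc, Finset.mem_Ico]
    omega
  rw [h3, h2]
  have h5 : ∀ x, curl F (x, y) = F (x, y) 0 - F (x, y + 1) 0 + (F (x + 1, y) 1 - F (x, y) 1) := by
    intro x
    simp only [curl, Prod.mk_add_mk, add_zero]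
    ring
  simp only [h5, Finset.sum_add_distrib, gr_gpot]
  rw [gr_sum_Ico_tel (fun x => F (x, y) 1) (-M) X hX.1, gr_sum_Ico_succ _ _ _ hy.1,
    Finset.sum_sub_distrib]
  ring

/-- Discrete Green formula for closed walks. -/
theorem green (F : V → Fin 4 → ℤ) (hF : ∀ p a, F (p + stp a) (opp a) = - F p a) (p : V)
    (l : List (Fin 4)) (hl : dsp l = 0) (M : ℕ) (hM : ∀ v ∈ verts p l, |v.1| ≤ M ∧ |v.2| ≤ M) :
    psum F p l = ∑ c ∈ Finset.Icc (-(M : ℤ)) M ×ˢ Finset.Icc (-(M : ℤ)) M, wd p l c * curl F c := by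
  set S := Finset.Icc (-(M : ℤ)) M ×ˢ Finset.Icc (-(M : ℤ)) M with hS
  have hD : ∀ (v : V) (a : Fin 4), (F (v + stp a) (opp a) - ∑ c ∈ S, wdF c (v + stp a) (opp a) * curl F c) =
      - (F v a - ∑ c ∈ S, wdF c v a * curl F c) := by
    intro v a
    rw [hF, neg_sub, sub_eq_add_neg, add_comm, ← Finset.sum_neg_distrib, sub_eq_add_neg]
    congr 1
    refine Finset.sum_congr rfl fun c _ => ?_
    rw [wdF_anti]
    ring
  have hB : ∀ v : V, (|v.1| ≤ (M : ℤ) ∧ |v.2| ≤ (M : ℤ)) → ∀ a, (|(v + stp a).1| ≤ (M : ℤ) ∧ |(v + stp a).2| ≤ (M : ℤ)) →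
      (fun v a => F v a - ∑ c ∈ S, wdF c v a * curl F c) v a = gr_gpot F M (v + stp a) - gr_gpot F M v := by
    intro v hv a ha
    have key : ∀ b : Fin 4, opp b = a → (F (v + stp a) b - ∑ c ∈ S, wdF c (v + stp a) b * curl F c =
        gr_gpot F M (v + stp a + stp b) - gr_gpot F M (v + stp a)) →
        F v a - ∑ c ∈ S, wdF c v a * curl F c = gr_gpot F M (v + stp a) - gr_gpot F M v := by
      intro b hb h1
      have h2 : opp a = b := by rw [← hb, opp_opp]
      have h3 := hD v a
      rw [h2] at h3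
      have h4 : v + stp a + stp b = v := by rw [← h2, stp_opp]; abel
      rw [h4] at h1
      rw [h3] at h1
      linarith
    fin_cases a
    · exact gr_green_step0 F M v hv
    · exact gr_green_step1 F M v hv
    · exact key 0 rfl (gr_green_step0 F M _ ha)
    · exact key 1 rfl (gr_green_step1 F M _ ha)
  have h1 := gr_psum_tel_closed (fun v a => F v a - ∑ c ∈ S, wdF c v a * curl F c) (gr_gpot F M)
    (fun v => |v.1| ≤ (M : ℤ) ∧ |v.2| ≤ (M : ℤ)) hB p l hl hM
  rw [gr_psum_sub, gr_psum_sum] at h1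
  unfold wd
  linarith

theorem gr_wd_lft_rgt1 (p : V) (l : List (Fin 4)) (u : V) :
    wd p l (lft u 1) - wd p l (rgt u 1) = tr p l u 1 := by
  unfold wd tr
  rw [← gr_psum_sub]
  congr 1
  funext v b
  obtain ⟨x, y⟩ := u
  obtain ⟨X, Y⟩ := v
  fin_cases b <;> simp [wdF, trF, lft, rgt, stp, opp] <;> grind

theorem gr_wd_lft_rgt0 (p : V) (l : List (Fin 4)) (hl : dsp l = 0) (u : V) :
    wd p l (lft u 0) - wd p l (rgt u 0) = tr p l u 0 := by
  rw [← sub_eq_zero]
  unfold wd tr
  rw [← gr_psum_sub, ← gr_psum_sub]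
  obtain ⟨x, y⟩ := u
  apply gr_psum_tel_closed _ (fun v => if v.2 = y ∧ x < v.1 then -1 else 0) (fun _ => True) _ p l hl
    (fun _ _ => trivial)
  rintro ⟨X, Y⟩ _ b _
  fin_cases b <;> simp [wdF, trF, lft, rgt, stp, opp] <;> grind

theorem gr_tr_neg (p : V) (l : List (Fin 4)) (u : V) (a : Fin 4) :
    tr p l u a = - tr p l (u + stp a) (opp a) := by
  unfold tr
  rw [← gr_psum_neg]
  congr 1
  funext v b
  have h1 : u + stp a + stp (opp a) = u := by rw [stp_opp]; abel
  have h2 : u ≠ u + stp a := by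
    intro h
    exact stp_ne_zero a (by simpa using h.symm)
  simp only [trF, h1, opp_opp]
  split_ifs <;> simp_all

/-- The winding number jumps by the net number of traversals when an edge is crossed. -/
theorem wd_lft_rgt (p : V) (l : List (Fin 4)) (hl : dsp l = 0) (u : V) (a : Fin 4) :
    wd p l (lft u a) - wd p l (rgt u a) = tr p l u a := by
  fin_cases a
  · exact gr_wd_lft_rgt0 p l hl u
  · exact gr_wd_lft_rgt1 p l u
  · have h1 := gr_wd_lft_rgt0 p l hl (u + stp 2)
    have h2 := gr_tr_neg p l u 2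
    have h3 : lft (u + stp 2) 0 = rgt u 2 := by
      ext <;> simp [lft, rgt, stp]
    have h4 : rgt (u + stp 2) 0 = lft u 2 := by
      ext <;> simp [lft, rgt, stp]
    rw [h3, h4] at h1
    change wd p l (lft u 2) - wd p l (rgt u 2) = tr p l u 2
    have h5 : opp 2 = 0 := rfl
    rw [h5] at h2
    linarith
  · have h1 := gr_wd_lft_rgt1 p l (u + stp 3)
    have h2 := gr_tr_neg p l u 3
    have h3 : lft (u + stp 3) 1 = rgt u 3 := by
      ext <;> simp [lft, rgt, stp]
    have h4 : rgt (u + stp 3) 1 = lft u 3 := by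
      ext <;> simp [lft, rgt, stp]
    rw [h3, h4] at h1
    change wd p l (lft u 3) - wd p l (rgt u 3) = tr p l u 3
    have h5 : opp 3 = 1 := rfl
    rw [h5] at h2
    linarith

/-- Far to the right the winding number is zero. -/
theorem wd_far (p : V) (l : List (Fin 4)) (c : V) (h : ∀ v ∈ verts p l, v.1 ≤ c.1) : wd p l c = 0 := by
  unfold wd
  induction l generalizing p with
  | nil => rfl
  | cons a l ih =>
    have h1 := ih (p + stp a) (fun v hv => h v (by simp [verts, hv]))
    have h2 := h p (by simp [verts])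
    simp only [psum]
    rw [h1, add_zero]
    have h3 : ¬ c.1 < p.1 := by omega
    simp [wdF, h3]

theorem gr_verts_bound' (l : List (Fin 4)) (v : V) (h : v ∈ verts 0 l) :
    |v.1| + 1 ≤ l.length ∧ |v.2| + 1 ≤ l.length := by
  rw [mem_verts_zero] at h
  obtain ⟨i, hi, rfl⟩ := h
  have h1 := dsp_bound (l.take i)
  have h2 : ((l.take i).length : ℤ) + 1 ≤ l.length := by
    rw [List.length_take]
    have : min i l.length = i := by omega
    rw [this]
    omega
  unfold vtx
  exact ⟨by linarith [h1.1], by linarith [h1.2]⟩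

/-- Outside the box the winding number of a closed walk is zero. -/
theorem wd_eq_zero_of_large (l : List (Fin 4)) (hl : dsp l = 0) (c : V)
    (h : (l.length : ℤ) ≤ |c.1| ∨ (l.length : ℤ) + 1 ≤ |c.2|) : wd 0 l c = 0 := by
  by_cases hA : ∀ v ∈ verts 0 l, v.1 ≤ c.1
  · exact wd_far 0 l c hA
  push Not at hA
  obtain ⟨v0, hv0, hc0⟩ := hA
  have hb0 := gr_verts_bound' l v0 hv0
  unfold wd
  apply gr_psum_tel_closed _ (fun v => if c.2 < v.2 then 1 else 0)
    (fun v => v ∈ verts 0 l) _ 0 l hl (fun _ hv => hv)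
  intro v hv b hvb
  have hb := gr_verts_bound' l v hv
  have hb2 := gr_verts_bound' l (v + stp b) hvb
  rcases h with h | h
  · have h1 : c.1 < v.1 := by
      rcases abs_cases c.1 with ⟨h5, h6⟩ | ⟨h5, h6⟩
      · have := abs_le.1 (show |v0.1| ≤ (l.length : ℤ) - 1 by linarith [hb0.1])
        omega
      · have := abs_le.1 (show |v.1| ≤ (l.length : ℤ) - 1 by linarith [hb.1])
        omega
    fin_cases b <;> simp [wdF, h1, stp] <;> grind
  · have hv2 := abs_le.1 (show |v.2| ≤ (l.length : ℤ) - 1 by linarith [hb.2])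
    have hw2 := abs_le.1 (show |(v + stp b).2| ≤ (l.length : ℤ) - 1 by linarith [hb2.2])
    have h1 : ¬ (c.2 = v.2) := by
      intro h7
      rcases abs_cases c.2 with ⟨h5, h6⟩ | ⟨h5, h6⟩ <;> omega
    have h2 : ¬ (c.2 = v.2 - 1) := by
      intro h7
      rcases abs_cases c.2 with ⟨h5, h6⟩ | ⟨h5, h6⟩ <;> omega
    have h3 : c.2 < v.2 ↔ c.2 < (v + stp b).2 := by
      rcases abs_cases c.2 with ⟨h5, h6⟩ | ⟨h5, h6⟩ <;> omega
    simp only [wdF, h1, h2, h3, false_and, and_false, if_false, sub_self]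

/-- An edge at a lattice point which is not on the closed walk is not traversed. -/
theorem tr_eq_zero (p : V) (l : List (Fin 4)) (hl : dsp l = 0) (u : V) (a : Fin 4)
    (hu : u ∉ verts p l) : tr p l u a = 0 := by
  unfold tr
  apply gr_psum_tel_closed _ (fun _ => 0) (fun v => v ≠ u) _ p l hl
    (fun v hv h => hu (h ▸ hv))
  intro v hv b hvb
  simp only [trF, sub_self]
  rw [if_neg (fun h => hv h.1), if_neg]
  rintro ⟨h1, h2⟩
  apply hvb
  rw [h1, h2, stp_opp]
  abel

theorem gr_psum_eq_sum (F : V → Fin 4 → ℤ) (p : V) (l : List (Fin 4)) :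
    psum F p l = ∑ k : Fin l.length, F (p + dsp (l.take k)) (l[k]) := by
  induction l generalizing p with
  | nil => rfl
  | cons a l ih =>
    simp only [psum, List.length_cons]
    rw [Fin.sum_univ_succ, ih]
    simp [dsp, add_assoc]

theorem gr_stp_inj {a b : Fin 4} (h : stp a = stp b) : a = b := by
  revert h
  fin_cases a <;> fin_cases b <;> simp [stp]

theorem gr_vtx_succ (l : List (Fin 4)) (hl : dsp l = 0) (k : ℕ) (hk : k < l.length) :
    vtx l ((k + 1) % l.length) = vtx l k + stp (l[k]) := by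
  have h1 : vtx l (k + 1) = vtx l k + stp (l[k]) := by
    unfold vtx
    rw [List.take_succ_eq_append_getElem hk, dsp_append]
    simp [dsp]
  by_cases h2 : k + 1 < l.length
  · rw [Nat.mod_eq_of_lt h2, h1]
  · have h3 : k + 1 = l.length := by omega
    rw [← h1, h3, Nat.mod_self]
    simp [vtx, hl, dsp]

/-- In a self-avoiding polygon with at least 3 steps, the edges at vertex number `i`. -/
theorem tr_vtx (l : List (Fin 4)) (h : IsSAP l) (h3 : 3 ≤ l.length) (i : ℕ) (hi : i < l.length)
    (b : Fin 4) :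
    tr 0 l (vtx l i) b =
      (if vtx l i + stp b = vtx l ((i + 1) % l.length) then 1 else 0) -
      (if vtx l i + stp b = vtx l ((i + l.length - 1) % l.length) then 1 else 0) := by
  unfold tr
  rw [gr_psum_eq_sum]
  set j := (i + l.length - 1) % l.length with hj
  have hjl : j < l.length := Nat.mod_lt _ (by omega)
  have hji : (j + 1) % l.length = i := by
    rw [hj, Nat.mod_add_mod]
    have : i + l.length - 1 + 1 = i + l.length := by omega
    rw [this, Nat.add_mod_right, Nat.mod_eq_of_lt hi]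
  have hval : ∀ k : Fin l.length, trF (vtx l i) b (0 + dsp (l.take k)) (l[k]) =
      (if k = ⟨i, hi⟩ then (if vtx l i + stp b = vtx l ((i + 1) % l.length) then 1 else 0) else 0) -
      (if k = ⟨j, hjl⟩ then (if vtx l i + stp b = vtx l j then 1 else 0) else 0) := by
    intro k
    have hk : (0 : V) + dsp (l.take k) = vtx l k := by simp [vtx]
    rw [hk]
    have hs := gr_vtx_succ l h.1 k k.2
    have hsi := gr_vtx_succ l h.1 i hi
    have hne : vtx l i ≠ vtx l i + stp b := by
      intro h'
      exact stp_ne_zero b (by simpa using h'.symm)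
    have e1 : (vtx l k = vtx l i ∧ l[k] = b) ↔
        (k = ⟨i, hi⟩ ∧ vtx l i + stp b = vtx l ((i + 1) % l.length)) := by
      constructor
      · rintro ⟨h1, h2⟩
        have h4 : (k : ℕ) = i := vtx_inj l h k.2 hi h1
        have h5 : k = ⟨i, hi⟩ := Fin.ext h4
        refine ⟨h5, ?_⟩
        subst h5
        rw [hsi, ← h2]
        rfl
      · rintro ⟨rfl, h2⟩
        refine ⟨rfl, ?_⟩
        rw [hsi] at h2
        exact (gr_stp_inj (add_left_cancel h2)).symm
    have e2 : (vtx l k = vtx l i + stp b ∧ l[k] = opp b) ↔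
        (k = ⟨j, hjl⟩ ∧ vtx l i + stp b = vtx l j) := by
      constructor
      · rintro ⟨h1, h2⟩
        have h2' : l[(k : ℕ)] = opp b := h2
        have h4 : vtx l (((k : ℕ) + 1) % l.length) = vtx l i := by
          rw [hs, h1, h2', stp_opp]
          abel
        have h5 : ((k : ℕ) + 1) % l.length = i := vtx_inj l h (Nat.mod_lt _ (by omega)) hi h4
        have h6 : (k : ℕ) = j := by
          rw [hj, ← h5]
          have hk2 := k.2
          by_cases h7 : (k : ℕ) + 1 < l.length
          · rw [Nat.mod_eq_of_lt h7]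
            have : (k : ℕ) + 1 + l.length - 1 = k + l.length := by omega
            rw [this, Nat.add_mod_right, Nat.mod_eq_of_lt hk2]
          · have h8 : (k : ℕ) + 1 = l.length := by omega
            rw [h8, Nat.mod_self, Nat.zero_add, Nat.mod_eq_of_lt (by omega)]
            omega
        have h7 : k = ⟨j, hjl⟩ := Fin.ext h6
        refine ⟨h7, ?_⟩
        rw [← h1, h6]
      · rintro ⟨rfl, h2⟩
        refine ⟨h2.symm, ?_⟩
        have h4 : vtx l i = vtx l j + stp (l[j]) := by
          rw [← gr_vtx_succ l h.1 j hjl, hji]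
        have h5 : stp (l[j]) = stp (opp b) := by
          rw [stp_opp]
          rw [← h2] at h4
          have h6 : stp b + stp (l[j]) = 0 := by
            have h7 : vtx l i + 0 = vtx l i + (stp b + stp (l[j])) := by
              rw [add_zero, ← add_assoc]
              exact h4
            exact (add_left_cancel h7).symm
          exact (neg_eq_of_add_eq_zero_right h6).symm
        exact gr_stp_inj h5
    simp only [trF]
    have e3 : ¬ ((vtx l k = vtx l i ∧ l[k] = b) ∧ (vtx l k = vtx l i + stp b ∧ l[k] = opp b)) := by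
      rintro ⟨⟨h1, _⟩, ⟨h2, _⟩⟩
      exact hne (h1.symm.trans h2)
    have e4 : (if k = ⟨i, hi⟩ then (if vtx l i + stp b = vtx l ((i + 1) % l.length) then (1 : ℤ) else 0) else 0) =
        if (vtx l k = vtx l i ∧ l[k] = b) then 1 else 0 := by
      rw [← ite_and]
      exact if_congr e1.symm rfl rfl
    have e5 : (if k = ⟨j, hjl⟩ then (if vtx l i + stp b = vtx l j then (1 : ℤ) else 0) else 0) =
        if (vtx l k = vtx l i + stp b ∧ l[k] = opp b) then 1 else 0 := by
      rw [← ite_and]
      exact if_congr e2.symm rfl rfl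
    rw [e4, e5]
    by_cases hA : vtx l k = vtx l i ∧ l[k] = b
    · rw [if_pos hA, if_pos hA, if_neg (fun hB => e3 ⟨hA, hB⟩), sub_zero]
    · rw [if_neg hA, if_neg hA, zero_sub]
      by_cases hB : vtx l k = vtx l i + stp b ∧ l[k] = opp b
      · rw [if_pos hB, if_pos hB]
      · rw [if_neg hB, if_neg hB, neg_zero]
  rw [Finset.sum_congr rfl (fun k _ => hval k), Finset.sum_sub_distrib, Finset.sum_ite_eq',
    Finset.sum_ite_eq']
  simp

end Pool.Agent.Helper2.QP
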