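import Pool.Agent.Helper2.QP.Green

/-!
# QP-JORDAN: winding numbers of a self-avoiding polygon take only the values `0` and `ε`

Paper proof.  Let `(p_i, a_i)` be the edges of the polygon `l`, `L_i = lft p_i a_i`, `R_i = rgt p_i a_i`.
`wd L_i - wd R_i = tr = 1` (`wd_lft_rgt`, `tr_vtx`).  At the vertex `p_{i+1}` only two edges have `tr ≠ 0`, the incoming
and the outgoing one; turning on the left side from `L_i` to `L_{i+1}` around `p_{i+1}` one crosses only other
edges, so `wd L_i = wd L_{i+1}` (cases: straight: the two left cells share the edge `(p_{i+1}, left direction)`;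
left turn: `L_i = L_{i+1}`; right turn: two edges are crossed).  Hence `wd L_i = W`, `wd R_i = W - 1` for all `i`.
For any cell `c` walk to the right from `c`: as long as the vertical edge crossed is not an edge of `l` the value
stays; it is `0` far away (`wd_far`), or an edge of `l` is met and then `c` has the value of some `L_i` or `R_i`.  So every value is
in `{0, W, W-1}`.  A rightmost vertical edge (take a vertex with maximal `x`; one of its two edges is
vertical) has value `0` on its right, so `0 ∈ {W, W-1}`: take `ε = 1` if `W = 1` and `ε = -1` if `W = 0`.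
Finally `xdy l = ∑ wd` by `green` with `xdyF` (`curl xdyF = 1`), so `ε * xdy l = ∑ |wd| ≥ 0`.
-/

set_option autoImplicit false

namespace Pool.Agent.Helper2.QP

theorem stp_inj {a b : Fin 4} (h : stp a = stp b) : a = b := by
  revert h
  fin_cases a <;> fin_cases b <;> simp [stp]

theorem lft_eq_rgt (v : V) (d : Fin 4) : rgt v d = lft v (d + 3) := by
  fin_cases d <;> simp [rgt, lft]

theorem lft_in (v : V) (a : Fin 4) : lft v a = lft (v + stp a) (a + 1) := by
  fin_cases a <;> simp [lft, stp, add_assoc]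

theorem opp_eq (a : Fin 4) : opp a = a + 2 := by fin_cases a <;> rfl

theorem vtx_zero (l : List (Fin 4)) : vtx l 0 = 0 := by simp [vtx, dsp]

theorem vtx_length (l : List (Fin 4)) (h : dsp l = 0) : vtx l l.length = 0 := by
  simp [vtx, h]

theorem vtx_succ (l : List (Fin 4)) (i : ℕ) (hi : i < l.length) :
    vtx l (i + 1) = vtx l i + stp l[i] := by
  unfold vtx
  rw [List.take_succ_eq_append_getElem hi, dsp_append]
  simp [dsp]

theorem vtx_succ_mod (l : List (Fin 4)) (h : dsp l = 0) (i : ℕ) (hi : i < l.length) :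
    vtx l ((i + 1) % l.length) = vtx l i + stp l[i] := by
  rw [← vtx_succ l i hi]
  rcases Nat.lt_or_ge (i + 1) l.length with h1 | h1
  · rw [Nat.mod_eq_of_lt h1]
  · have h2 : i + 1 = l.length := by omega
    rw [h2, Nat.mod_self, vtx_zero, vtx_length l h]

private theorem mod_ne (N i : ℕ) (h3 : 3 ≤ N) (hi : i < N) : (i + 1) % N ≠ (i + N - 1) % N := by
  rcases Nat.lt_or_ge (i + 1) N with h1 | h1
  · rw [Nat.mod_eq_of_lt h1]
    rcases Nat.eq_zero_or_pos i with h0 | h0
    · subst h0
      rw [Nat.mod_eq_of_lt (by omega)]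
      omega
    · have h2 : i + N - 1 = (i - 1) + N := by omega
      rw [h2, Nat.add_mod_right, Nat.mod_eq_of_lt (by omega)]
      omega
  · have h2 : i + 1 = N := by omega
    rw [h2, Nat.mod_self]
    have h3 : i + N - 1 = (i - 1) + N := by omega
    rw [h3, Nat.add_mod_right, Nat.mod_eq_of_lt (by omega)]
    omega

/-- net traversal of a polygon edge is one -/
theorem tr_edge (l : List (Fin 4)) (h : IsSAP l) (h3 : 3 ≤ l.length) (i : ℕ) (hi : i < l.length) :
    tr 0 l (vtx l i) l[i] = 1 := by
  rw [tr_vtx l h h3 i hi, ← vtx_succ_mod l h.1 i hi, if_pos rfl, if_neg, sub_zero]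
  intro h1
  have h2 := vtx_inj l h (Nat.mod_lt _ (by omega)) (Nat.mod_lt _ (by omega)) h1
  exact mod_ne _ i h3 hi h2

/-- no traversal in the two other directions -/
theorem tr_other (l : List (Fin 4)) (h : IsSAP l) (h3 : 3 ≤ l.length) (i : ℕ) (hi : i < l.length)
    (j : ℕ) (hj : j < l.length) (hij : j = (i + 1) % l.length) (b : Fin 4) (hb : b ≠ l[j])
    (hb' : b ≠ l[i] + 2) : tr 0 l (vtx l j) b = 0 := by
  have h1 : vtx l i = vtx l j + stp (l[i] + 2) := by
    rw [hij, vtx_succ_mod l h.1 i hi, ← opp_eq, stp_opp]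
    abel
  have h2 : (j + l.length - 1) % l.length = i := by
    rw [hij]
    rcases Nat.lt_or_ge (i + 1) l.length with h5 | h5
    · rw [Nat.mod_eq_of_lt h5]
      have h6 : i + 1 + l.length - 1 = i + l.length := by omega
      rw [h6, Nat.add_mod_right, Nat.mod_eq_of_lt hi]
    · have h6 : i + 1 = l.length := by omega
      rw [h6, Nat.mod_self, Nat.zero_add, Nat.mod_eq_of_lt (by omega)]
      omega
  rw [tr_vtx l h h3 j hj, h2, vtx_succ_mod l h.1 j hj, h1, if_neg, if_neg, sub_zero]
  · intro h5
    exact hb' (stp_inj (add_left_cancel h5))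
  · intro h5
    exact hb (stp_inj (add_left_cancel h5))

/-- no immediate reversal -/
theorem no_rev (l : List (Fin 4)) (h : IsSAP l) (h3 : 3 ≤ l.length) (i : ℕ) (hi : i < l.length)
    (j : ℕ) (hj : j < l.length) (hij : j = (i + 1) % l.length) : l[j] ≠ l[i] + 2 := by
  intro h1
  have h2 : vtx l ((j + 1) % l.length) = vtx l i := by
    rw [vtx_succ_mod l h.1 j hj, h1, ← opp_eq, stp_opp, hij, vtx_succ_mod l h.1 i hi]
    abel
  have h4 := vtx_inj l h (Nat.mod_lt _ (by omega)) hi h2
  rw [hij] at h4
  rcases Nat.lt_or_ge (i + 1) l.length with h5 | h5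
  · rw [Nat.mod_eq_of_lt h5] at h4
    rcases Nat.lt_or_ge (i + 2) l.length with h6 | h6
    · rw [Nat.mod_eq_of_lt (by omega)] at h4
      omega
    · have h7 : i + 1 + 1 = l.length := by omega
      rw [h7, Nat.mod_self] at h4
      omega
  · have h7 : i + 1 = l.length := by omega
    rw [h7, Nat.mod_self, Nat.zero_add, Nat.mod_eq_of_lt (by omega)] at h4
    omega

theorem wd_turn (p : V) (l : List (Fin 4)) (hl : dsp l = 0) (v : V) (d : Fin 4) :
    wd p l (lft v d) = wd p l (lft v (d + 3)) + tr p l v d := by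
  have h1 := wd_lft_rgt p l hl v d
  rw [lft_eq_rgt] at h1
  omega

private theorem f1 : ∀ a : Fin 4, a + 1 ≠ a := by decide
private theorem f2 : ∀ a : Fin 4, a + 1 ≠ a + 2 := by decide
private theorem f3 : ∀ a : Fin 4, a + 1 + 3 = a := by decide
private theorem f4 : ∀ a : Fin 4, a + 1 ≠ a + 3 := by decide
private theorem f5 : ∀ a : Fin 4, a ≠ a + 3 := by decide
private theorem f6 : ∀ a : Fin 4, a ≠ a + 2 := by decide
private theorem f7 : ∀ a b : Fin 4, b ≠ a + 2 → b = a + 1 ∨ b = a ∨ b = a + 3 := by decide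

/-- the left cells of consecutive edges -/
theorem wd_left_succ (l : List (Fin 4)) (h : IsSAP l) (h3 : 3 ≤ l.length) (i : ℕ)
    (hi : i < l.length) (j : ℕ) (hj : j < l.length) (hij : j = (i + 1) % l.length) :
    wd 0 l (lft (vtx l j) l[j]) = wd 0 l (lft (vtx l i) l[i]) := by
  have h1 : lft (vtx l i) l[i] = lft (vtx l j) (l[i] + 1) := by
    rw [lft_in, ← vtx_succ_mod l h.1 i hi, ← hij]
  rw [h1]
  have h2 := no_rev l h h3 i hi j hj hij
  have h4 := tr_other l h h3 i hi j hj hij
  generalize l[j] = b at *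
  generalize l[i] = a at *
  generalize vtx l j = v at *
  rcases f7 a b h2 with rfl | rfl | rfl
  · rfl
  · have h6 := wd_turn 0 l h.1 v (b + 1)
    rw [h4 (b + 1) (f1 b) (f2 b), f3 b] at h6
    omega
  · have h6 := wd_turn 0 l h.1 v (a + 1)
    rw [h4 (a + 1) (f4 a) (f2 a), f3 a] at h6
    have h8 := wd_turn 0 l h.1 v a
    rw [h4 a (f5 a) (f6 a)] at h8
    omega

theorem wd_left (l : List (Fin 4)) (h : IsSAP l) (h3 : 3 ≤ l.length) (i : ℕ)
    (hi : i < l.length) :
    wd 0 l (lft (vtx l i) l[i]) = wd 0 l (lft (vtx l 0) (l[0]'(by omega))) := by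
  induction i with
  | zero => rfl
  | succ i ih =>
    rw [← ih (by omega)]
    exact wd_left_succ l h h3 i (by omega) (i + 1) hi (Nat.mod_eq_of_lt hi).symm

theorem wd_right (l : List (Fin 4)) (h : IsSAP l) (h3 : 3 ≤ l.length) (i : ℕ)
    (hi : i < l.length) :
    wd 0 l (rgt (vtx l i) l[i]) = wd 0 l (lft (vtx l 0) (l[0]'(by omega))) - 1 := by
  have h1 := wd_lft_rgt 0 l h.1 (vtx l i) l[i]
  rw [tr_edge l h h3 i hi, wd_left l h h3 i hi] at h1
  omega

/-- a traversed edge is an edge of the polygon, in one of the two directions -/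
theorem edge_of_tr (l : List (Fin 4)) (h : IsSAP l) (h3 : 3 ≤ l.length) (u : V) (b : Fin 4)
    (ht : tr 0 l u b ≠ 0) :
    (∃ (i : ℕ) (hi : i < l.length), vtx l i = u ∧ l[i] = b) ∨
      (∃ (i : ℕ) (hi : i < l.length), vtx l i = u + stp b ∧ l[i] = b + 2) := by
  by_cases hu : u ∈ verts 0 l
  · obtain ⟨i, hi, rfl⟩ := (mem_verts_zero l u).1 hu
    have h1 := tr_vtx l h h3 i hi b
    by_cases ha : vtx l i + stp b = vtx l ((i + 1) % l.length)
    · left
      refine ⟨i, hi, rfl, ?_⟩
      rw [vtx_succ_mod l h.1 i hi] at ha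
      exact (stp_inj (add_left_cancel ha)).symm
    · right
      rw [if_neg ha] at h1
      by_cases hb : vtx l i + stp b = vtx l ((i + l.length - 1) % l.length)
      · have hlt : (i + l.length - 1) % l.length < l.length := Nat.mod_lt _ (by omega)
        refine ⟨(i + l.length - 1) % l.length, hlt, hb.symm, ?_⟩
        have h4 := vtx_succ_mod l h.1 _ hlt
        have h5 : ((i + l.length - 1) % l.length + 1) % l.length = i := by
          rcases Nat.eq_zero_or_pos i with h0 | h0
          · subst h0
            rw [Nat.zero_add, Nat.mod_eq_of_lt (by omega : l.length - 1 < l.length)]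
            rw [Nat.sub_add_cancel (by omega), Nat.mod_self]
          · have h6 : i + l.length - 1 = (i - 1) + l.length := by omega
            rw [h6, Nat.add_mod_right, Nat.mod_eq_of_lt (by omega : i - 1 < l.length)]
            rw [Nat.sub_add_cancel h0, Nat.mod_eq_of_lt hi]
        rw [h5, ← hb, add_assoc] at h4
        have h7 : stp b + stp (l[(i + l.length - 1) % l.length]) = 0 := by
          have := h4.symm
          rwa [add_eq_left] at this
        have h8 : stp (l[(i + l.length - 1) % l.length]) = stp (opp b) := by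
          rw [stp_opp]
          exact (neg_eq_of_add_eq_zero_right h7).symm
        rw [stp_inj h8, opp_eq]
      · rw [if_neg hb] at h1
        exact absurd h1 (by simpa using ht)
  · exact absurd (tr_eq_zero 0 l h.1 u b hu) ht

theorem wd_values (l : List (Fin 4)) (h : IsSAP l) (h3 : 3 ≤ l.length) (c : V) :
    wd 0 l c = 0 ∨ wd 0 l c = wd 0 l (lft (vtx l 0) (l[0]'(by omega))) ∨
      wd 0 l c = wd 0 l (lft (vtx l 0) (l[0]'(by omega))) - 1 := by
  have key : ∀ (k : ℕ) (c : V), (l.length : ℤ) ≤ c.1 + k →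
      wd 0 l c = 0 ∨ wd 0 l c = wd 0 l (lft (vtx l 0) (l[0]'(by omega))) ∨
      wd 0 l c = wd 0 l (lft (vtx l 0) (l[0]'(by omega))) - 1 := by
    intro k
    induction k with
    | zero =>
      intro c hc
      left
      refine wd_far 0 l c fun v hv => ?_
      have h1 := (abs_le.1 (verts_bound l v hv).1).2
      push_cast at hc
      linarith
    | succ k ih =>
      intro c hc
      have h1 := wd_lft_rgt 0 l h.1 (c + (1, 0)) 1
      have h2 : lft (c + (1, 0)) 1 = c := by
        simp [lft, add_assoc]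
      have h4 : rgt (c + (1, 0)) 1 = c + (1, 0) := by
        simp [rgt]
      by_cases ht : tr 0 l (c + (1, 0)) 1 = 0
      · rw [h2, h4, ht] at h1
        have h5 : wd 0 l c = wd 0 l (c + (1, 0)) := by omega
        rw [h5]
        refine ih _ ?_
        push_cast at hc
        simp only [Prod.fst_add]
        linarith
      · rcases edge_of_tr l h h3 _ _ ht with ⟨i, hi, h5, h6⟩ | ⟨i, hi, h5, h6⟩
        · right; left
          rw [← wd_left l h h3 i hi, h5, h6, h2]
        · right; right
          rw [← wd_right l h h3 i hi, h5, h6]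
          congr 1
          simp [rgt, stp, add_assoc]
  refine key ((l.length : ℤ) - c.1).toNat c ?_
  have := Int.self_le_toNat ((l.length : ℤ) - c.1)
  linarith

/-- a vertical edge on the right boundary -/
theorem zero_mem (l : List (Fin 4)) (h : IsSAP l) (h3 : 3 ≤ l.length) :
    wd 0 l (lft (vtx l 0) (l[0]'(by omega))) = 0 ∨
      wd 0 l (lft (vtx l 0) (l[0]'(by omega))) = 1 := by
  obtain ⟨i, hi, hmax⟩ := Finset.exists_max_image (Finset.range l.length)
    (fun i => (vtx l i).1) ⟨0, by simp; omega⟩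
  rw [Finset.mem_range] at hi
  have hmax' : ∀ k < l.length, (vtx l k).1 ≤ (vtx l i).1 := fun k hk =>
    hmax k (Finset.mem_range.2 hk)
  have hfar : ∀ c : V, c.1 = (vtx l i).1 → wd 0 l c = 0 := by
    intro c hc
    refine wd_far 0 l c fun v hv => ?_
    obtain ⟨k, hk, rfl⟩ := (mem_verts_zero l v).1 hv
    rw [hc]
    exact hmax' k hk
  -- a vertical edge in the column
  have hvert : ∀ (k : ℕ) (hk : k < l.length), (vtx l k).1 = (vtx l i).1 → (l[k] = 1 ∨ l[k] = 3) →
      wd 0 l (lft (vtx l 0) (l[0]'(by omega))) = 0 ∨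
      wd 0 l (lft (vtx l 0) (l[0]'(by omega))) = 1 := by
    intro k hk h5 h6
    rcases h6 with h6 | h6
    · right
      have h7 := wd_right l h h3 k hk
      rw [h6, hfar] at h7
      · omega
      · simp [rgt, h5]
    · left
      have h7 := wd_left l h h3 k hk
      rw [h6, hfar] at h7
      · omega
      · simp [lft, h5]
  have h4 := vtx_succ_mod l h.1 i hi
  have h5 := hmax' ((i + 1) % l.length) (Nat.mod_lt _ (by omega))
  by_cases ha : l[i] = 1 ∨ l[i] = 3
  · exact hvert i hi rfl ha
  · -- then `l[i] = 2`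
    have h6 : l[i] = 2 := by
      rw [h4] at h5
      generalize l[i] = a at *
      fin_cases a
      · simp [stp] at h5
      · simp at ha
      · rfl
      · simp at ha
    set k := (i + l.length - 1) % l.length with hkdef
    have hk : k < l.length := Nat.mod_lt _ (by omega)
    have h7 : (k + 1) % l.length = i := by
      rcases Nat.eq_zero_or_pos i with h0 | h0
      · subst h0
        rw [hkdef, Nat.zero_add, Nat.mod_eq_of_lt (by omega : l.length - 1 < l.length)]
        rw [Nat.sub_add_cancel (by omega), Nat.mod_self]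
      · have h6 : i + l.length - 1 = (i - 1) + l.length := by omega
        rw [hkdef, h6, Nat.add_mod_right, Nat.mod_eq_of_lt (by omega : i - 1 < l.length)]
        rw [Nat.sub_add_cancel h0, Nat.mod_eq_of_lt hi]
    have h8 := vtx_succ_mod l h.1 k hk
    rw [h7] at h8
    have h9 := no_rev l h h3 k hk i hi h7.symm
    have h10 := hmax' k hk
    have h11 : l[k] = 1 ∨ l[k] = 3 := by
      rw [h8] at h10
      rw [h6] at h9
      generalize l[k] = a at *
      fin_cases a
      · simp at h9
      · simp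
      · simp [stp] at h10
      · simp
    refine hvert k hk ?_ h11
    rw [h8]
    rcases h11 with h11 | h11 <;> simp [h11, stp]

theorem curl_xdy (c : V) : curl xdyF c = 1 := by
  simp [curl, xdyF, stp]

theorem jordan (l : List (Fin 4)) (h : IsSAP l) (h4 : 4 ≤ l.length) :
    ∃ ε : ℤ, (ε = 1 ∨ ε = -1) ∧ (∀ c, wd 0 l c = 0 ∨ wd 0 l c = ε) ∧ (area l : ℤ) = ε * xdy l := by
  have h3 : 3 ≤ l.length := by omega
  have hval := wd_values l h h3
  have hz := zero_mem l h h3
  set W := wd 0 l (lft (vtx l 0) (l[0]'(by omega))) with hW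
  have hex : ∃ ε : ℤ, (ε = 1 ∨ ε = -1) ∧ ∀ c, wd 0 l c = 0 ∨ wd 0 l c = ε := by
    rcases hz with hz | hz
    · refine ⟨-1, Or.inr rfl, fun c => ?_⟩
      rcases hval c with h1 | h1 | h1 <;> omega
    · refine ⟨1, Or.inl rfl, fun c => ?_⟩
      rcases hval c with h1 | h1 | h1 <;> omega
  obtain ⟨ε, hε, hc⟩ := hex
  refine ⟨ε, hε, hc, ?_⟩
  have hg := green xdyF xdyF_anti 0 l h.1 l.length (verts_bound l)
  have hx : xdy l = ∑ c ∈ Finset.Icc (-(l.length : ℤ)) l.length ×ˢ
      Finset.Icc (-(l.length : ℤ)) l.length, wd 0 l c := by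
    rw [xdy, hg]
    refine Finset.sum_congr rfl fun c _ => ?_
    rw [curl_xdy, mul_one]
  have h5 : 0 ≤ ε * xdy l := by
    rw [hx, Finset.mul_sum]
    refine Finset.sum_nonneg fun c _ => ?_
    rcases hc c with h1 | h1 <;> rcases hε with h2 | h2 <;> rw [h1] <;> simp [h2]
  have h6 : |ε * xdy l| = |xdy l| := by
    rcases hε with h2 | h2 <;> simp [h2]
  rw [area, Int.natCast_natAbs, ← h6, abs_of_nonneg h5]

end Pool.Agent.Helper2.QP
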