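import Pool.Agent.Helper2.QP.Jordan

/-!
# QP-LENS: additivity of the area under the surgery

Paper proof.  `wd` is additive: `wd (A ++ B) = wd (A ++ rev τ₁) + wd (τ₂ ++ B) + wd (τ₁ ++ rev τ₂)` and
`xdy (A ++ B) = xdy (A ++ rev τ₁) + xdy (τ₂ ++ B) + xdy (τ₁ ++ rev τ₂)` (all base points `0`, `dsp τ₁ = dsp τ₂ = dsp A`).
Let `e = (0, a)`, `L = lft 0 a`, `R = rgt 0 a`.  By `jordan` all values of `P, P₁, P₂` are in `{0, ε}`, `{0, ε₁}`,
`{0, ε₂}`.  The last step of `P₁` is the reversed edge `e` and the first step of `P₂` is `e`, so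
`wd P₁ L - wd P₁ R = -1`, `wd P₂ L - wd P₂ R = 1` (`wd_lft_rgt`, `tr_vtx` with `i = 0`; the lengths are `≥ 4`).
At `L` and `R`: `wd P₁ + wd P₂ = ε`.  If `ε = 1`: `ε₁ = -1` gives `wd P₁ L = -1`, `wd P₂ L = 2`, impossible;
`ε₂ = -1` gives `wd P₂ R = -1`, `wd P₁ R = 2`, impossible.  Similarly for `ε = -1`.  So `ε₁ = ε₂ = ε` and
`area = ε * xdy` for all three.
-/

set_option autoImplicit false

namespace Pool.Agent.Helper2.QP

theorem psum_split (F : V → Fin 4 → ℤ) (hF : ∀ p a, F (p + stp a) (opp a) = - F p a)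
    (A B τ₁ τ₂ : List (Fin 4)) (hd1 : dsp τ₁ = dsp A) (hd2 : dsp τ₂ = dsp A) :
    psum F 0 (A ++ B) = psum F 0 (A ++ rev τ₁) + psum F 0 (τ₂ ++ B) + psum F 0 (τ₁ ++ rev τ₂) := by
  have h1 := psum_rev F hF 0 τ₁
  have h2 := psum_rev F hF 0 τ₂
  rw [hd1] at h1
  rw [hd2] at h2
  rw [psum_append, psum_append F 0 A (rev τ₁), psum_append F 0 τ₂, psum_append F 0 τ₁, hd1, hd2,
    h1, h2]
  ring

theorem tr_first {l : List (Fin 4)} (h : IsSAP l) (h3 : 3 ≤ l.length) (a : Fin 4) (t : List (Fin 4))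
    (hl : l = a :: t) : tr 0 l 0 a = 1 := by
  have h1 := tr_vtx l h h3 0 (by omega) a
  have h2 : vtx l 0 = 0 := rfl
  have h4 : vtx l 1 = stp a := by rw [hl]; simp [vtx, dsp]
  rw [h2, zero_add, zero_add, zero_add, Nat.mod_eq_of_lt (by omega), Nat.mod_eq_of_lt (by omega),
    if_pos h4.symm, if_neg] at h1
  · simpa using h1
  · rw [← h4]
    intro h5
    have := vtx_inj l h (by omega) (by omega) h5
    omega

theorem tr_last {l : List (Fin 4)} (h : IsSAP l) (h3 : 3 ≤ l.length) (a : Fin 4) (t : List (Fin 4))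
    (hl : l = t ++ [opp a]) : tr 0 l 0 a = -1 := by
  have h1 := tr_vtx l h h3 0 (by omega) a
  have h2 : vtx l 0 = 0 := rfl
  have h4 : vtx l (l.length - 1) = stp a := by
    have h6 : l.take (l.length - 1) = t := by
      rw [hl]
      simp
    have h7 := h.1
    rw [hl, dsp_append] at h7
    simp only [dsp, add_zero, stp_opp] at h7
    rw [vtx, h6]
    exact add_neg_eq_zero.1 h7
  rw [h2, zero_add, zero_add, zero_add, Nat.mod_eq_of_lt (by omega), Nat.mod_eq_of_lt (by omega),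
    if_pos h4.symm, if_neg] at h1
  · simpa using h1
  · rw [← h4]
    intro h5
    have := vtx_inj l h (by omega) (by omega) h5
    omega

theorem lens (ε : ℤ) (hε : ε = 1 ∨ ε = -1) (A B τ₁ τ₂ : List (Fin 4)) (a : Fin 4)
    (hP : IsSAP (A ++ B)) (h1 : IsSAP (A ++ rev τ₁)) (h2 : IsSAP (τ₂ ++ B))
    (hA : 4 ≤ A.length) (hB : 4 ≤ B.length)
    (ha1 : τ₁.head? = some a) (ha2 : τ₂.head? = some a)
    (hd1 : dsp τ₁ = dsp A) (hd2 : dsp τ₂ = dsp A)
    (hL : wd 0 (A ++ B) (lft 0 a) = ε) (hR : wd 0 (A ++ B) (rgt 0 a) = ε)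
    (hL' : wd 0 (τ₁ ++ rev τ₂) (lft 0 a) = 0) (hR' : wd 0 (τ₁ ++ rev τ₂) (rgt 0 a) = 0)
    (S : ℕ) (hS : xdy (τ₁ ++ rev τ₂) = ε * S) :
    area (A ++ rev τ₁) + area (τ₂ ++ B) + S = area (A ++ B) := by
  obtain ⟨e0, he0, hw0, ha0⟩ := jordan _ hP (by simp; omega)
  obtain ⟨e1, he1, hw1, har1⟩ := jordan _ h1 (by simp; omega)
  obtain ⟨e2, he2, hw2, har2⟩ := jordan _ h2 (by simp; omega)
  obtain ⟨t₁, rfl⟩ : ∃ t, τ₁ = a :: t := by
    cases τ₁ with
    | nil => simp at ha1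
    | cons b t => exact ⟨t, by simp at ha1; rw [ha1]⟩
  obtain ⟨t₂, rfl⟩ : ∃ t, τ₂ = a :: t := by
    cases τ₂ with
    | nil => simp at ha2
    | cons b t => exact ⟨t, by simp at ha2; rw [ha2]⟩
  have hsL := psum_split (wdF (lft 0 a)) (wdF_anti _) A B (a :: t₁) (a :: t₂) hd1 hd2
  have hsR := psum_split (wdF (rgt 0 a)) (wdF_anti _) A B (a :: t₁) (a :: t₂) hd1 hd2
  have hsX := psum_split xdyF xdyF_anti A B (a :: t₁) (a :: t₂) hd1 hd2
  change wd 0 _ _ = wd 0 _ _ + wd 0 _ _ + wd 0 _ _ at hsL hsR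
  change xdy _ = xdy _ + xdy _ + xdy _ at hsX
  rw [hL, hL'] at hsL
  rw [hR, hR'] at hsR
  rw [hS] at hsX
  have hj1 := wd_lft_rgt 0 _ h1.1 0 a
  have hj2 := wd_lft_rgt 0 _ h2.1 0 a
  rw [tr_last h1 (by simp; omega) a (A ++ rev t₁) (by rw [rev_cons, List.append_assoc])] at hj1
  rw [tr_first h2 (by simp; omega) a (t₂ ++ B) rfl] at hj2
  have q0 := hw0 (lft 0 a)
  rw [hL] at q0
  have q1 := hw1 (lft 0 a)
  have q2 := hw1 (rgt 0 a)
  have q3 := hw2 (lft 0 a)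
  have q4 := hw2 (rgt 0 a)
  have r0 : e0 = ε := by omega
  have r1 : e1 = ε := by omega
  have r2 : e2 = ε := by omega
  subst r0 r1 r2
  have hfin : ((area (A ++ rev (a :: t₁)) + area ((a :: t₂) ++ B) + S : ℕ) : ℤ) =
      (area (A ++ B) : ℤ) := by
    push_cast
    rw [har1, har2, ha0, hsX]
    rcases hε with rfl | rfl <;> ring
  exact_mod_cast hfin

end Pool.Agent.Helper2.QP
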