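import Pool.Agent.Helper2.QP.Jordan

/-!
# QP-PATH: existence of a cut configuration

Paper proof.  Let `N = l.length`.  For every lattice point `v` choose an index `n v < N` of a polygon vertex nearest to `v`
(`Near l v (n v)`; for `v = vtx l i` it is `i`, by `vtx_inj`).  Let `f v b = ZMod.valMinAbs ((n (v + stp b) - n v : ZMod N))` for
`b = 0, 1` and `F p 0 = f p 0`, `F p 1 = f p 1`, `F p 2 = - f (p + stp 2) 0`, `F p 3 = - f (p + stp 3) 1` (antisymmetric).
Suppose every edge `(v, b)` of every cell `c` with `wd 0 l c ≠ 0` (`b = 0, 1`) has `4 * |f v b| < N`.  Then `curl F c` is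
`0` mod `N` and `|curl F c| < N`, so it is `0`; so `psum F 0 l = 0` by `green`.  But every step of `l` has
`F = 1` (a step from vertex `i` to vertex `i+1 mod N`: `valMinAbs 1 = 1`, `- valMinAbs (-1) = 1` as `N ≥ 4`), so `psum F 0 l = N`,
contradiction.  So some edge `(v, b)` of an inside cell has `4 * |f v b| ≥ N`; `u = v`, `u' = v + stp b`, `i = n u`, `j = n u'`:
`|i - j| mod N` has distance `≥ N/4` to the multiples of `N`, i.e. `N ≤ 4 |i - j| ≤ 3 N`.
-/

set_option autoImplicit false

namespace Pool.Agent.Helper2.QP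

theorem exists_near (l : List (Fin 4)) (h4 : 1 ≤ l.length) (v : V) : ∃ i, Near l v i := by
  obtain ⟨i, hi, hmin⟩ := Finset.exists_min_image (Finset.range l.length)
    (fun i => l1 v (vtx l i)) ⟨0, by simp; omega⟩
  exact ⟨i, Finset.mem_range.1 hi, fun k hk => hmin k (Finset.mem_range.2 hk)⟩

private theorem l1_eq_zero (u v : V) (h : l1 u v = 0) : u = v := by
  unfold l1 at h
  ext <;> omega

private theorem l1_self (u : V) : l1 u u = 0 := by simp [l1]

private theorem near_vtx (l : List (Fin 4)) (h : IsSAP l) (i j : ℕ) (hi : i < l.length)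
    (hj : Near l (vtx l i) j) : j = i := by
  have h1 := hj.2 i hi
  rw [l1_self] at h1
  have h2 := l1_eq_zero _ _ (Nat.le_zero.1 h1)
  exact (vtx_inj l h hi hj.1 h2).symm

/-- a walk all of whose steps contribute one -/
private theorem psum_ones (F : V → Fin 4 → ℤ) (l : List (Fin 4))
    (h : ∀ (i : ℕ) (hi : i < l.length), F (vtx l i) l[i] = 1) :
    psum F 0 l = l.length := by
  have key : ∀ (m k : ℕ), k + m = l.length → psum F (vtx l k) (l.drop k) = m := by
    intro m
    induction m with
    | zero =>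
      intro k hk
      have h1 : l.drop k = [] := List.drop_eq_nil_iff.2 (by omega)
      rw [h1]
      rfl
    | succ m ih =>
      intro k hk
      have hk' : k < l.length := by omega
      rw [List.drop_eq_getElem_cons hk']
      simp only [psum]
      rw [h k hk', ← vtx_succ l k hk', ih (k + 1) (by omega)]
      push_cast
      ring
  have h1 := key l.length 0 (by omega)
  rw [vtx_zero, List.drop_zero] at h1
  exact h1

private theorem vma_one (N : ℕ) (hN : 3 ≤ N) : (1 : ZMod N).valMinAbs = 1 := by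
  have : NeZero N := ⟨by omega⟩
  rw [ZMod.valMinAbs_spec]
  refine ⟨by simp, ?_, ?_⟩ <;> omega

private theorem vma_neg_one (N : ℕ) (hN : 3 ≤ N) : (-1 : ZMod N).valMinAbs = -1 := by
  have : NeZero N := ⟨by omega⟩
  rw [ZMod.valMinAbs_spec]
  refine ⟨by simp, ?_, ?_⟩ <;> omega

private theorem arith (N i j : ℕ) [NeZero N] (hi : i < N) (hj : j < N)
    (h : N ≤ 4 * ((j : ZMod N) - (i : ZMod N)).valMinAbs.natAbs) :
    N ≤ 4 * ((i : ℤ) - j).natAbs ∧ 4 * ((i : ℤ) - j).natAbs ≤ 3 * N := by
  have h1 := ZMod.natAbs_valMinAbs_le ((j : ZMod N) - (i : ZMod N))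
  have h2 := ZMod.coe_valMinAbs ((j : ZMod N) - (i : ZMod N))
  generalize ((j : ZMod N) - (i : ZMod N)).valMinAbs = x at *
  have h3 : (N : ℤ) ∣ x - (j - i) := by
    rw [← ZMod.intCast_zmod_eq_zero_iff_dvd]
    push_cast
    rw [h2, sub_self]
  obtain ⟨k, hk⟩ := h3
  have hN : 0 < N := by omega
  have hk1 : k < 2 := by
    by_contra hc
    have h5 : (N : ℤ) * 2 ≤ N * k := mul_le_mul_of_nonneg_left (by omega) (by omega)
    omega
  have hk2 : -2 < k := by
    by_contra hc
    have h5 : (N : ℤ) * k ≤ N * (-2) := mul_le_mul_of_nonneg_left (by omega) (by omega)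
    omega
  have hk3 : k = -1 ∨ k = 0 ∨ k = 1 := by omega
  rcases hk3 with rfl | rfl | rfl <;> omega

private theorem cast_dvd_lt (N : ℕ) (x : ℤ) (h : (x : ZMod N) = 0)
    (hx : x.natAbs < N) : x = 0 := by
  rw [ZMod.intCast_zmod_eq_zero_iff_dvd] at h
  exact Int.eq_zero_of_abs_lt_dvd h (by rw [Int.abs_eq_natAbs]; exact_mod_cast hx)

theorem exists_cfg (l : List (Fin 4)) (h : IsSAP l) (h4 : 4 ≤ l.length) :
    ∃ (u u' : V) (i j : ℕ), Cfg l u u' i j := by
  have : NeZero l.length := ⟨by omega⟩
  have h00 : ((0 : ℤ), (0 : ℤ)) = (0 : V) := rfl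
  choose n hn using exists_near l (by omega)
  set f : V → Fin 4 → ℤ := fun v b =>
    ZMod.valMinAbs ((n (v + stp b) : ZMod l.length) - (n v : ZMod l.length)) with hf
  set F : V → Fin 4 → ℤ := fun p a =>
    (![f p 0, f p 1, - f (p + stp 2) 0, - f (p + stp 3) 1] : Fin 4 → ℤ) a with hFdef
  have hF : ∀ p a, F (p + stp a) (opp a) = - F p a := by
    intro p a
    fin_cases a
    · simp [hFdef, opp, stp, add_assoc, h00]
    · simp [hFdef, opp, stp, add_assoc, h00]
    · simp [hFdef, opp]
    · simp [hFdef, opp]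
  by_contra hcon
  have hsmall : ∀ (v : V) (b : Fin 4) (c : V), (b = 0 ∨ b = 1) → wd 0 l c ≠ 0 → Crn c v →
      Crn c (v + stp b) → 4 * (f v b).natAbs < l.length := by
    intro v b c hb hc h1 h2
    by_contra h3
    refine hcon ⟨v, v + stp b, n v, n (v + stp b), ?_, ⟨c, hc, h1, h2⟩, hn v, hn _, ?_⟩
    · rcases hb with rfl | rfl <;> simp [l1, stp]
    · exact arith _ _ _ (hn v).1 (hn (v + stp b)).1 (not_lt.1 h3)
  have hcast : ∀ (v : V) (b : Fin 4), ((f v b : ℤ) : ZMod l.length) =
      (n (v + stp b) : ZMod l.length) - (n v : ZMod l.length) := fun v b =>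
    ZMod.coe_valMinAbs _
  have hcurl : ∀ c, wd 0 l c ≠ 0 → curl F c = 0 := by
    intro c hc
    have e1 := hsmall c 0 c (Or.inl rfl) hc ⟨by omega, by omega, by omega, by omega⟩
      (by simp [Crn, stp])
    have e2 := hsmall (c + (1, 0)) 1 c (Or.inr rfl) hc (by simp [Crn]) (by simp [Crn, stp])
    have e3 := hsmall (c + (0, 1)) 0 c (Or.inl rfl) hc (by simp [Crn]) (by simp [Crn, stp])
    have e4 := hsmall c 1 c (Or.inr rfl) hc ⟨by omega, by omega, by omega, by omega⟩
      (by simp [Crn, stp])
    have e5 : curl F c = f c 0 + f (c + (1, 0)) 1 - f (c + (0, 1)) 0 - f c 1 := by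
      simp [curl, hFdef]
    rw [e5]
    refine cast_dvd_lt l.length _ ?_ (by omega)
    push_cast
    rw [hcast, hcast, hcast, hcast]
    have e6 : c + (1, 0) + stp 1 = c + (0, 1) + stp 0 := by
      simp [stp, add_assoc]
    have e7 : c + stp 0 = c + (1, 0) := rfl
    have e8 : c + stp 1 = c + (0, 1) := rfl
    rw [e6, e7, e8]
    ring
  have hg := green F hF 0 l h.1 l.length (verts_bound l)
  have hzero : psum F 0 l = 0 := by
    rw [hg]
    refine Finset.sum_eq_zero fun c _ => ?_
    by_cases hc : wd 0 l c = 0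
    · rw [hc, zero_mul]
    · rw [hcurl c hc, mul_zero]
  have hone : psum F 0 l = l.length := by
    refine psum_ones F l fun i hi => ?_
    have hi' : (i + 1) % l.length < l.length := Nat.mod_lt _ (by omega)
    have e1 : n (vtx l i) = i := near_vtx l h i _ hi (hn _)
    have e2 : n (vtx l ((i + 1) % l.length)) = (i + 1) % l.length :=
      near_vtx l h _ _ hi' (hn _)
    have e3 := vtx_succ_mod l h.1 i hi
    rw [e3] at e2
    have e4 : (((i + 1) % l.length : ℕ) : ZMod l.length) = (i : ZMod l.length) + 1 := by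
      rw [ZMod.natCast_mod]
      push_cast
      rfl
    generalize l[i] = a at *
    generalize vtx l i = v at *
    fin_cases a
    · have e5 : F v 0 = f v 0 := rfl
      change F v 0 = 1
      rw [e5, hf]
      dsimp only
      rw [e1, show n (v + stp 0) = _ from e2, e4, add_sub_cancel_left]
      exact vma_one _ (by omega)
    · have e5 : F v 1 = f v 1 := rfl
      change F v 1 = 1
      rw [e5, hf]
      dsimp only
      rw [e1, show n (v + stp 1) = _ from e2, e4, add_sub_cancel_left]
      exact vma_one _ (by omega)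
    · have e5 : F v 2 = - f (v + stp 2) 0 := rfl
      change F v 2 = 1
      have e6 : v + stp 2 + stp 0 = v := by simp [stp, add_assoc, h00]
      rw [e5, hf]
      dsimp only
      rw [e6, e1, show n (v + stp 2) = _ from e2, e4]
      have e7 : (i : ZMod l.length) - ((i : ZMod l.length) + 1) = -1 := by ring
      rw [e7, vma_neg_one _ (by omega)]
      rfl
    · have e5 : F v 3 = - f (v + stp 3) 1 := rfl
      change F v 3 = 1
      have e6 : v + stp 3 + stp 1 = v := by simp [stp, add_assoc, h00]
      rw [e5, hf]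
      dsimp only
      rw [e6, e1, show n (v + stp 3) = _ from e2, e4]
      have e7 : (i : ZMod l.length) - ((i : ZMod l.length) + 1) = -1 := by ring
      rw [e7, vma_neg_one _ (by omega)]
      rfl
  rw [hzero] at hone
  omega

end Pool.Agent.Helper2.QP
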