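import Pool.Agent.Helper2.QP.Super

/-!
# QP-SUPER2: exact supermultiplicativity

Paper proof.  Let `n = n₁ + n₂ - 2` and for `a ∈ An n₁`, `b ∈ Bn n₂` let `G = a.dropLast ++ b.dropLast` (`glue_facts`: a SAP of length `n`, area at
most `area a + area b`).  The map `(bit, k, a, b) ↦ W = (G or rev G).rotate k`, `k < n`, into `sap n` is injective:
(1) the root `0` of `G` (and of `rev G`) has exactly `n₁ - 1` lexicographically smaller vertices: the vertices of `a` except `0` (those of
`a.dropLast` except `0`, and `(0,-1)`, the first vertex of the second part) are `< 0`, and all other vertices of the translated `b` are `> 0`.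
The number of lex-smaller vertices is invariant under rotation and translation, and distinct vertices have
distinct ranks, so the position of the root in `W`, hence `k`, is determined, and then `G or rev G = W.rotate (n - k)`.
(2) the first letter of `G` is `2` (the first letter of `a`: its vertex 1 is lex-smaller than `0` and not `(0,-1)`), the last letter of `G` is `2` or `3` (the
step of `b` that arrives at `(0, 1)`, coming from `(1, 1)` or `(0, 2)`), so the first letter of `rev G` is `0` or `1`: the bit is determined.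
(3) `a = G.take (n₁ - 1) ++ [1]`, `b = G.drop (n₁ - 1) ++ [3]`.
So `2 n · (∑ A)(∑ B) ≤ Zn n`, and `Zn n₁ ≤ 2 n₁ ∑ A` (`Zn_le_A`), `Zn n₂ ≤ 2 n₂ ∑ A ≤ 2 n₂ ∑ B` (`sum_A_le_B`).
-/

set_option autoImplicit false

namespace Pool.Agent.Helper2.QP

/-- Lexicographically less than the origin. -/
private def LexLt (v : V) : Prop := v.1 < 0 ∨ (v.1 = 0 ∧ v.2 < 0)

open Classical in
/-- The number of vertices lexicographically less than `w`. -/
private noncomputable def rk (l : List (Fin 4)) (w : V) : ℕ :=
  ((verts 0 l).toFinset.filter (fun v => LexLt (v - w))).card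

private theorem rk_rotate (l : List (Fin 4)) (h : dsp l = 0) (k : ℕ) (hk : k ≤ l.length) :
    rk (l.rotate k) 0 = rk l (vtx l k) := by
  classical
  unfold rk
  have h1 : dsp (l.take k ++ l.drop k) = 0 := by rw [List.take_append_drop]; exact h
  have h2 := verts_rotate_perm 0 (l.take k) (l.drop k) h1
  rw [List.take_append_drop, ← List.rotate_eq_drop_append_take hk, verts_add] at h2
  have h3 : ∀ v : V, v ∈ (verts 0 l).toFinset ↔ v - dsp (l.take k) ∈ (verts 0 (l.rotate k)).toFinset := by
    intro v
    rw [List.mem_toFinset, List.mem_toFinset, ← h2.mem_iff, List.mem_map]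
    constructor
    · rintro ⟨w, hw, rfl⟩
      rwa [add_sub_cancel_right]
    · intro h4
      exact ⟨_, h4, sub_add_cancel _ _⟩
  symm
  refine Finset.card_bij (fun v _ => v - dsp (l.take k)) ?_ ?_ ?_
  · intro v hv
    rw [Finset.mem_filter] at hv ⊢
    refine ⟨(h3 v).1 hv.1, ?_⟩
    rw [sub_zero]
    exact hv.2
  · intro v _ v' _ he
    exact sub_left_injective he
  · intro w hw
    rw [Finset.mem_filter] at hw
    refine ⟨w + dsp (l.take k), ?_, add_sub_cancel_right _ _⟩
    rw [Finset.mem_filter, h3, add_sub_cancel_right]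
    refine ⟨hw.1, ?_⟩
    have h4 : w + dsp (l.take k) - vtx l k = w - 0 := by
      rw [vtx, add_sub_cancel_right, sub_zero]
    rw [h4]
    exact hw.2

private theorem rk_ne (l : List (Fin 4)) (w : V) (hw : w ∈ verts 0 l) (h0 : (0 : V) ∈ verts 0 l)
    (hne : w ≠ 0) : rk l w ≠ rk l 0 := by
  classical
  unfold rk
  obtain ⟨x, y⟩ := w
  by_cases hlt : LexLt ((x, y) : V)
  · apply ne_of_lt
    apply Finset.card_lt_card
    rw [Finset.ssubset_iff_of_subset]
    · refine ⟨(x, y), ?_, ?_⟩
      · rw [Finset.mem_filter, List.mem_toFinset, sub_zero]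
        exact ⟨hw, hlt⟩
      · rw [Finset.mem_filter, sub_self]
        rintro ⟨-, h1⟩
        simp [LexLt] at h1
    · intro v hv
      rw [Finset.mem_filter] at hv ⊢
      refine ⟨hv.1, ?_⟩
      have h1 := hv.2
      simp only [LexLt, Prod.fst_sub, Prod.snd_sub, sub_zero] at h1 hlt ⊢
      omega
  · apply ne_of_gt
    apply Finset.card_lt_card
    have hlt' : LexLt (0 - ((x, y) : V)) := by
      have h1 : ¬ (x = 0 ∧ y = 0) := by
        rintro ⟨rfl, rfl⟩
        exact hne rfl
      simp only [LexLt, zero_sub, Prod.fst_neg, Prod.snd_neg] at hlt ⊢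
      omega
    rw [Finset.ssubset_iff_of_subset]
    · refine ⟨0, ?_, ?_⟩
      · rw [Finset.mem_filter, List.mem_toFinset]
        exact ⟨h0, hlt'⟩
      · rw [Finset.mem_filter, sub_self]
        rintro ⟨-, h1⟩
        simp [LexLt] at h1
    · intro v hv
      rw [Finset.mem_filter] at hv ⊢
      refine ⟨hv.1, ?_⟩
      have h1 := hv.2
      simp only [LexLt, Prod.fst_sub, Prod.snd_sub, sub_zero, zero_sub, Prod.fst_neg,
        Prod.snd_neg] at h1 hlt' ⊢
      omega

/-- The rank of the root determines the rotation. -/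
private theorem rot_inj {l l' : List (Fin 4)} {n k k' : ℕ} (h : IsSAP l) (hl : l.length = n)
    (hl' : l'.length = n) (hk : k < n) (hk' : k' < n) (hr : rk l 0 = rk l' 0)
    (he : l.rotate k = l'.rotate k') : k = k' ∧ l = l' := by
  have h1 : l' = l.rotate ((k + (n - k')) % n) := by
    have h2 : (l'.rotate k').rotate (n - k') = l' := by
      rw [List.rotate_rotate, show k' + (n - k') = l'.length by omega, List.rotate_length]
    rw [← h2, ← he, List.rotate_rotate]
    have h2' := List.rotate_mod l (k + (n - k'))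
    rw [hl] at h2'
    exact h2'.symm
  set e := (k + (n - k')) % n with hedef
  have hen : e < n := Nat.mod_lt _ (by omega)
  have h3 : rk l' 0 = rk l (vtx l e) := by
    rw [h1]
    exact rk_rotate l h.1 e (by omega)
  have h0 : (0 : V) ∈ verts 0 l := (mem_verts_zero l 0).2 ⟨0, by omega, by simp [vtx, dsp]⟩
  have h4 : vtx l e = 0 := by
    by_contra hne
    have h5 : vtx l e ∈ verts 0 l := (mem_verts_zero l _).2 ⟨e, by omega, rfl⟩
    exact rk_ne l _ h5 h0 hne (h3.symm.trans hr.symm)
  have h5 : e = 0 := vtx_inj l h (by omega) (by omega) (by rw [h4]; simp [vtx, dsp])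
  have h6 : k = k' := by
    rw [hedef] at h5
    by_contra hne
    have h7 := Nat.dvd_of_mod_eq_zero h5
    obtain ⟨c, hc⟩ := h7
    have h8 : c = 1 := by
      have h9 : 0 < c := by
        rcases Nat.eq_zero_or_pos c with h10 | h10
        · rw [h10, mul_zero] at hc
          omega
        · exact h10
      have h11 : c < 2 := by
        by_contra h12
        have h13 : n * 2 ≤ n * c := Nat.mul_le_mul_left n (by omega)
        omega
      omega
    rw [h8, mul_one] at hc
    omega
  refine ⟨h6, ?_⟩
  rw [← h6] at he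
  exact List.rotate_injective k he

private theorem rk_rev (l : List (Fin 4)) (h : dsp l = 0) : rk (rev l) 0 = rk l 0 := by
  classical
  unfold rk
  congr 1
  ext v
  rw [Finset.mem_filter, Finset.mem_filter, List.mem_toFinset, List.mem_toFinset]
  refine and_congr_left fun hv => ?_
  have hv0 : v ≠ 0 := by
    rintro rfl
    simp [LexLt] at hv
  have h1 := verts_rev 0 l
  rw [h, add_zero] at h1
  have h2 : v ∈ verts 0 (rev l) ++ [(0 : V)] ↔ v ∈ verts 0 l ++ [(0 : V)] := by
    rw [h1, List.mem_reverse]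
  rw [List.mem_append, List.mem_append, List.mem_singleton] at h2
  constructor
  · intro h3
    exact (h2.1 (Or.inl h3)).resolve_right hv0
  · intro h3
    exact (h2.2 (Or.inl h3)).resolve_right hv0

/-- The rank of the root of the glued polygon. -/
private theorem rk_glue (a b : List (Fin 4)) (ha : IsSAP a) (hb : IsSAP b)
    (hva : ∀ v ∈ verts 0 a, LexLe v) (hvb : ∀ v ∈ verts 0 b, LexGe v)
    (a' b' : List (Fin 4)) (ha' : a = a' ++ [1]) (hb' : b = b' ++ [3]) (hb1 : 0 < b'.length) :
    rk (a' ++ b') 0 = a.length - 1 := by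
  classical
  have hda : dsp a' = (0, -1) := by
    have h1 := ha.1
    rw [ha', dsp_append] at h1
    have h2 : dsp [(1 : Fin 4)] = (0, 1) := by simp [dsp, stp]
    rw [h2] at h1
    rw [eq_neg_of_add_eq_zero_left h1]
    simp
  have hdb : dsp b' = (0, 1) := by
    have h1 := hb.1
    rw [hb', dsp_append] at h1
    have h2 : dsp [(3 : Fin 4)] = (0, -1) := by simp [dsp, stp]
    rw [h2] at h1
    rw [eq_neg_of_add_eq_zero_left h1]
    simp
  have hA : verts 0 a = verts 0 a' ++ [((0 : ℤ), (-1 : ℤ))] := by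
    rw [ha', verts_append, hda, zero_add]
    rfl
  have hB : verts 0 b = verts 0 b' ++ [((0 : ℤ), (1 : ℤ))] := by
    rw [hb', verts_append, hdb, zero_add]
    rfl
  have hnB := hb.2
  rw [hB, List.nodup_append] at hnB
  have htr : verts ((0 : ℤ), (-1 : ℤ)) b' = (verts 0 b').map (· + ((0 : ℤ), (-1 : ℤ))) := by
    rw [← verts_add, zero_add]
  have hset : (verts 0 (a' ++ b')).toFinset.filter (fun v => LexLt (v - 0)) =
      (verts 0 a).toFinset.erase 0 := by
    ext v
    rw [Finset.mem_filter, Finset.mem_erase, List.mem_toFinset, List.mem_toFinset, sub_zero,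
      verts_append, hda, zero_add, List.mem_append]
    constructor
    · rintro ⟨h1, h2⟩
      have hv0 : v ≠ 0 := by
        rintro rfl
        simp [LexLt] at h2
      refine ⟨hv0, ?_⟩
      rcases h1 with h1 | h1
      · rw [hA]
        exact List.mem_append_left _ h1
      · rw [htr, List.mem_map] at h1
        obtain ⟨w, hw, rfl⟩ := h1
        have h3 := hvb w (by rw [hB]; exact List.mem_append_left _ hw)
        have h4 : w ≠ ((0 : ℤ), (1 : ℤ)) := hnB.2.2 _ hw _ (by simp)
        have h5 : w = 0 := by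
          obtain ⟨x, y⟩ := w
          simp only [LexLt, LexGe, Prod.mk_add_mk, ne_eq, Prod.mk.injEq] at h2 h3 h4
          have h6 : x = 0 := by omega
          have h7 : y = 0 := by omega
          rw [h6, h7]
          rfl
        rw [h5, zero_add, hA]
        simp
    · rintro ⟨h1, h2⟩
      refine ⟨?_, ?_⟩
      · rw [hA, List.mem_append, List.mem_singleton] at h2
        rcases h2 with h2 | h2
        · exact Or.inl h2
        · right
          rw [htr, List.mem_map]
          refine ⟨0, (mem_verts_zero b' 0).2 ⟨0, hb1, by simp [vtx, dsp]⟩, ?_⟩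
          rw [zero_add, h2]
      · have h3 := hva v h2
        obtain ⟨x, y⟩ := v
        have h4 : ¬ (x = 0 ∧ y = 0) := by
          rintro ⟨rfl, rfl⟩
          exact h1 rfl
        simp only [LexLt, LexLe] at h3 ⊢
        omega
  unfold rk
  rw [hset, Finset.card_erase_of_mem, List.toFinset_card_of_nodup ha.2, length_verts]
  rw [List.mem_toFinset, mem_verts_zero]
  exact ⟨0, by rw [ha']; simp, by simp [vtx, dsp]⟩

/-- The first letter of a word of `An`. -/
private theorem head_A (a : List (Fin 4)) (ha : IsSAP a) (h4 : 4 ≤ a.length)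
    (hva : ∀ v ∈ verts 0 a, LexLe v) (hl : a.getLast? = some 1) :
    ∃ s, a.dropLast = 2 :: s := by
  have h3 : a ≠ [] := by
    rintro rfl
    simp at hl
  have hspl : a = a.dropLast ++ [1] := by
    have h4 := List.dropLast_append_getLast h3
    rw [List.getLast?_eq_getLast_of_ne_nil h3] at hl
    simp only [Option.some.injEq] at hl
    rw [hl] at h4
    exact h4.symm
  obtain ⟨c, s, hcs⟩ : ∃ c s, a.dropLast = c :: s := by
    cases hd : a.dropLast with
    | nil =>
      rw [hd] at hspl
      rw [hspl] at h4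
      simp at h4
    | cons c s => exact ⟨c, s, rfl⟩
  have hac : a = c :: (s ++ [1]) := by rw [hspl, hcs]; rfl
  have hlen : s.length + 2 = a.length := by rw [hac]; simp
  have hv1 : vtx a 1 = stp c := by rw [hac]; simp [vtx, dsp]
  have hvl : vtx a (a.length - 1) = ((0 : ℤ), (-1 : ℤ)) := by
    have h6 : a.take (a.length - 1) = a.dropLast := by
      rw [List.dropLast_eq_take]
    have h7 := ha.1
    rw [hspl, dsp_append] at h7
    have h8 : dsp [(1 : Fin 4)] = (0, 1) := by simp [dsp, stp]
    rw [h8] at h7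
    rw [vtx, h6, eq_neg_of_add_eq_zero_left h7]
    simp
  have h9 : LexLe (stp c) := by
    apply hva
    rw [mem_verts_zero]
    exact ⟨1, by omega, hv1⟩
  have h10 : stp c ≠ ((0 : ℤ), (-1 : ℤ)) := by
    rw [← hv1, ← hvl]
    intro h11
    have := vtx_inj a ha (by omega) (by omega) h11
    omega
  refine ⟨s, ?_⟩
  rw [hcs]
  congr 1
  revert h9 h10
  fin_cases c <;> simp [LexLe, stp]

/-- The last letter of a glued word. -/
private theorem last_B (b : List (Fin 4)) (hb : IsSAP b) (h4 : 4 ≤ b.length)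
    (hvb : ∀ v ∈ verts 0 b, LexGe v) (hl : b.getLast? = some 3) :
    ∃ s c, b.dropLast = s ++ [c] ∧ opp c ≠ 2 := by
  have h3 : b ≠ [] := by
    rintro rfl
    simp at hl
  have hspl : b = b.dropLast ++ [3] := by
    have h4 := List.dropLast_append_getLast h3
    rw [List.getLast?_eq_getLast_of_ne_nil h3] at hl
    simp only [Option.some.injEq] at hl
    rw [hl] at h4
    exact h4.symm
  obtain ⟨s, c, hcs⟩ : ∃ s c, b.dropLast = s ++ [c] := by
    rcases List.eq_nil_or_concat b.dropLast with h1 | ⟨t, b, h1⟩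
    · rw [h1] at hspl
      rw [hspl] at h4
      simp at h4
    · exact ⟨t, b, by simpa using h1⟩
  have hbc : b = s ++ [c, 3] := by
    rw [hspl, hcs, List.append_assoc]
    rfl
  have hlen : s.length + 2 = b.length := by rw [hbc]; simp
  refine ⟨s, c, hcs, ?_⟩
  have hvs : vtx b s.length = dsp s := by
    rw [hbc]
    simp [vtx]
  have hds : dsp s + (stp c + ((0 : ℤ), (-1 : ℤ))) = 0 := by
    have h7 := hb.1
    rw [hbc, dsp_append] at h7
    rw [← h7]
    simp [dsp, stp]
  have h9 : LexGe (dsp s) := by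
    apply hvb
    rw [mem_verts_zero]
    exact ⟨s.length, by omega, hvs⟩
  have h10 : dsp s ≠ 0 := by
    intro h11
    have h12 : vtx b s.length = vtx b 0 := by rw [hvs, h11]; simp [vtx, dsp]
    have := vtx_inj b hb (by omega) (by omega) h12
    omega
  have h11 : dsp s = - (stp c + ((0 : ℤ), (-1 : ℤ))) := eq_neg_of_add_eq_zero_left hds
  rw [h11] at h9 h10
  revert h9 h10
  fin_cases c <;> simp [LexGe, stp, opp]

theorem A_mul_B_exact (q : ℝ) (hq0 : 0 < q) (hq1 : q ≤ 1) (n₁ n₂ : ℕ) (h1 : 4 ≤ n₁) (h2 : 4 ≤ n₂) :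
    2 * ((n₁ + n₂ - 2 : ℕ) : ℝ) * ((∑ l ∈ An n₁, q ^ area l) * (∑ l ∈ Bn n₂, q ^ area l)) ≤
      Zn (n₁ + n₂ - 2) q := by
  classical
  have hspl : ∀ (l : List (Fin 4)) (c : Fin 4), l.getLast? = some c → l = l.dropLast ++ [c] := by
    intro l c hc
    have h3 : l ≠ [] := by
      rintro rfl
      simp at hc
    have h4 := List.dropLast_append_getLast h3
    rw [List.getLast?_eq_getLast_of_ne_nil h3] at hc
    simp only [Option.some.injEq] at hc
    rw [hc] at h4
    exact h4.symm
  set n := n₁ + n₂ - 2 with hn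
  let G : List (Fin 4) × List (Fin 4) → List (Fin 4) := fun y => y.1.dropLast ++ y.2.dropLast
  let H : Bool → List (Fin 4) → List (Fin 4) := fun t l => if t then rev l else l
  have hG : ∀ y ∈ An n₁ ×ˢ Bn n₂, G y ∈ sap n ∧ area (G y) ≤ area y.1 + area y.2 ∧
      rk (G y) 0 = n₁ - 1 ∧ (G y).head? = some 2 ∧ (rev (G y)).head? ≠ some 2 := by
    rintro ⟨a, b⟩ hy
    simp only [Finset.mem_product, An, Bn, Finset.mem_filter, mem_sap] at hy
    obtain ⟨⟨⟨ha1, ha2⟩, ha3, ha4⟩, ⟨hb1, hb2⟩, hb3, hb4⟩ := hy
    obtain ⟨h3, h4⟩ := glue_facts a b ha2 hb2 ha3 hb3 a.dropLast b.dropLast (hspl a 1 ha4)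
      (hspl b 3 hb4)
    refine ⟨?_, h4, ?_, ?_, ?_⟩
    · rw [mem_sap]
      refine ⟨?_, h3⟩
      simp only [G, List.length_append, List.length_dropLast]
      omega
    · have h5 := rk_glue a b ha2 hb2 ha3 hb3 a.dropLast b.dropLast (hspl a 1 ha4)
        (hspl b 3 hb4) (by rw [List.length_dropLast]; omega)
      rw [ha1] at h5
      exact h5
    · obtain ⟨s, hs⟩ := head_A a ha2 (by omega) ha3 ha4
      simp only [G, hs]
      rfl
    · obtain ⟨s, c, hs, hc⟩ := last_B b hb2 (by omega) hb3 hb4
      simp only [G, hs]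
      rw [← List.append_assoc, rev_append]
      have h5 : rev [c] = [opp c] := rfl
      rw [h5]
      simp only [List.cons_append, List.nil_append, List.head?_cons, ne_eq, Option.some.injEq]
      exact hc
  let W : (ℕ × Bool) × (List (Fin 4) × List (Fin 4)) → List (Fin 4) := fun z =>
    (H z.1.2 (G z.2)).rotate z.1.1
  set D := (Finset.range n ×ˢ (Finset.univ : Finset Bool)) ×ˢ (An n₁ ×ˢ Bn n₂) with hD
  have hH : ∀ (t : Bool) (l : List (Fin 4)), l ∈ sap n → H t l ∈ sap n ∧ area (H t l) = area l ∧
      rk (H t l) 0 = rk l 0 := by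
    intro t l hl
    rw [mem_sap] at hl
    cases t with
    | false => exact ⟨(mem_sap _ _).2 hl, rfl, rfl⟩
    | true =>
      refine ⟨?_, area_rev l hl.2.1, rk_rev l hl.2.1⟩
      rw [mem_sap]
      exact ⟨(length_rev l).trans hl.1, hl.2.rev⟩
  have hW : ∀ z ∈ D, W z ∈ sap n ∧ area (W z) ≤ area z.2.1 + area z.2.2 := by
    rintro ⟨⟨k, t⟩, y⟩ hz
    rw [hD, Finset.mem_product, Finset.mem_product, Finset.mem_range] at hz
    obtain ⟨⟨hk, -⟩, hy⟩ := hz
    obtain ⟨g1, g2, -⟩ := hG y hy
    obtain ⟨g3, g4, -⟩ := hH t (G y) g1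
    rw [mem_sap] at g3
    simp only at hk
    refine ⟨?_, ?_⟩
    · rw [mem_sap]
      exact ⟨(List.length_rotate _ _).trans g3.1, g3.2.rotate k (by omega)⟩
    · show area ((H t (G y)).rotate k) ≤ _
      rw [area_rotate _ g3.2.1 k (by omega), g4]
      exact g2
  have hinj : Set.InjOn W (D : Set _) := by
    rintro ⟨⟨k, t⟩, y⟩ hz ⟨⟨k', t'⟩, y'⟩ hz' he
    rw [Finset.mem_coe, hD, Finset.mem_product, Finset.mem_product, Finset.mem_range] at hz hz'
    obtain ⟨⟨hk, -⟩, hy⟩ := hz
    obtain ⟨⟨hk', -⟩, hy'⟩ := hz'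
    obtain ⟨g1, -, g2, g3, g4⟩ := hG y hy
    obtain ⟨g1', -, g2', g3', g4'⟩ := hG y' hy'
    obtain ⟨e1, -, e2⟩ := hH t (G y) g1
    obtain ⟨e1', -, e2'⟩ := hH t' (G y') g1'
    rw [mem_sap] at e1 e1'
    simp only at hk hk'
    have he' : (H t (G y)).rotate k = (H t' (G y')).rotate k' := he
    obtain ⟨f1, f2⟩ := rot_inj e1.2 e1.1 e1'.1 hk hk' (by rw [e2, e2', g2, g2']) he'
    have f3 : t = t' ∧ G y = G y' := by
      cases t with
      | false =>
        cases t' with
        | false => exact ⟨rfl, f2⟩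
        | true =>
          exfalso
          have f4 : G y = rev (G y') := f2
          rw [f4] at g3
          exact g4' g3
      | true =>
        cases t' with
        | false =>
          exfalso
          have f4 : rev (G y) = G y' := f2
          rw [← f4] at g3'
          exact g4 g3'
        | true =>
          have f4 : rev (G y) = rev (G y') := f2
          refine ⟨rfl, ?_⟩
          rw [← rev_rev (G y), f4, rev_rev]
    obtain ⟨f4, f5⟩ := f3
    obtain ⟨a, b⟩ := y
    obtain ⟨a', b'⟩ := y'
    simp only [Finset.mem_product, An, Bn, Finset.mem_filter, mem_sap] at hy hy'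
    obtain ⟨⟨⟨ha1, ha2⟩, ha3, ha4⟩, ⟨hb1, hb2⟩, hb3, hb4⟩ := hy
    obtain ⟨⟨⟨ha1', ha2'⟩, ha3', ha4'⟩, ⟨hb1', hb2'⟩, hb3', hb4'⟩ := hy'
    have h3 : a.dropLast.length = a'.dropLast.length := by simp [ha1, ha1']
    obtain ⟨h4, h5⟩ := List.append_inj f5 h3
    simp only at h4 h5
    rw [f1, f4, hspl a 1 ha4, hspl a' 1 ha4', hspl b 3 hb4, hspl b' 3 hb4', h4, h5]
  calc 2 * (n : ℝ) * ((∑ l ∈ An n₁, q ^ area l) * (∑ l ∈ Bn n₂, q ^ area l))
      = ∑ z ∈ D, q ^ (area z.2.1 + area z.2.2) := by
        rw [hD, Finset.sum_product]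
        simp only [Finset.sum_const, Finset.card_product, Finset.card_range, Finset.card_univ,
          Fintype.card_bool, nsmul_eq_mul]
        rw [Finset.sum_mul_sum, Finset.sum_product]
        simp only [pow_add]
        push_cast
        ring
    _ ≤ ∑ z ∈ D, q ^ area (W z) := by
        apply Finset.sum_le_sum
        intro z hz
        exact pow_le_pow_of_le_one hq0.le hq1 (hW z hz).2
    _ = ∑ l ∈ D.image W, q ^ area l := by rw [Finset.sum_image hinj]
    _ ≤ Zn n q := by
        apply Finset.sum_le_sum_of_subset_of_nonneg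
        · intro l hl
          rw [Finset.mem_image] at hl
          obtain ⟨z, hz, rfl⟩ := hl
          exact (hW z hz).1
        · intro i _ _
          exact pow_nonneg hq0.le _

end Pool.Agent.Helper2.QP
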