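import Pool.Agent.Helper2.QP.AnaMain
import Pool.Agent.Helper2.QP.Count
import Pool.Agent.Helper2.QP.Super

/-!
# QP-WORDS: the main theorem for words
-/

set_option autoImplicit false

namespace Pool.Agent.Helper2.QP

open Filter Topology

theorem words_main' (a b : ℝ) (ha : 0 < a) (hab : a ≤ b) (hb : b < 1) : ∃ K : ℝ, 1 ≤ K ∧
    ∀ q : ℝ, a ≤ q → q ≤ b →
    ∀ Λ : ℝ, Λ = limsup (fun m : ℕ => (Zn (2 * m) q) ^ ((1 : ℝ) / m)) atTop →
      0 < Λ ∧
      (∀ m : ℕ, 2 ≤ m → Real.exp (-K * (Real.log m) ^ 2) * Λ ^ m ≤ Zn (2 * m) q ∧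
        Zn (2 * m) q ≤ K * (m : ℝ) ^ 2 * Λ ^ m) ∧
      (∀ n : ℕ, 2 ≤ n → ∃ j : ℕ, 2 ≤ j ∧ n ≤ 16 * j ∧ j ≤ n ∧
        Real.exp (-K * Real.log j) * Λ ^ j ≤ Zn (2 * j) q) := by
  obtain ⟨K, hK, hmain⟩ := ana_main a b ha hab hb
  refine ⟨K, hK, fun q hq1 hq2 Λ hΛ => ?_⟩
  have hq0 : 0 < q := lt_of_lt_of_le ha hq1
  have hq3 : q < 1 := lt_of_le_of_lt hq2 hb
  refine hmain q hq1 hq2 (fun m => Zn (2 * m) q) (fun m hm => Zn_lower q hq0 m hm)
    (fun m => Zn_nonneg q hq0 _) ?_ ?_ ?_ Λ hΛ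
  · intro m
    have h1 := Zn_upper q hq0 hq3.le (2 * m)
    rw [pow_mul] at h1
    norm_num at h1
    exact h1
  · intro m n hm hn
    have h1 := supermult q hq0 hq3.le (2 * m) (2 * n) (by omega) (by omega)
    have h2 : 2 * m + 2 * n - 2 = 2 * (m + n - 1) := by omega
    rw [h2] at h1
    refine h1.trans (le_of_eq ?_)
    push_cast
    ring
  · intro m hm
    obtain ⟨i, J, t₁, t₂, h1, h2, h3, h4, h5⟩ := counting q hq0 hq3 (2 * m) (by omega)
    have hpos : 0 < Zn (2 * m) q := lt_of_lt_of_le (pow_pos hq0 _) (Zn_lower q hq0 m (by omega))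
    have he1 : (i + t₁) % 2 = 0 := by
      by_contra h6
      have h7 : i + t₁ = 2 * ((i + t₁) / 2) + 1 := by omega
      rw [h7, Zn_odd] at h5
      simp at h5
      linarith
    have he2 : (2 * m - i + t₂) % 2 = 0 := by
      by_contra h6
      have h7 : 2 * m - i + t₂ = 2 * ((2 * m - i + t₂) / 2) + 1 := by omega
      rw [h7, Zn_odd] at h5
      simp at h5
      linarith
    refine ⟨(i + t₁) / 2, (2 * m - i + t₂) / 2, J, by omega, by omega, by omega, by omega, ?_⟩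
    have e1 : 2 * ((i + t₁) / 2) = i + t₁ := by omega
    have e2 : 2 * ((2 * m - i + t₂) / 2) = 2 * m - i + t₂ := by omega
    show Zn (2 * m) q ≤ _ * (_ * Zn (2 * ((i + t₁) / 2)) q * Zn (2 * ((2 * m - i + t₂) / 2)) q)
    rw [e1, e2]
    refine h5.trans (le_of_eq ?_)
    push_cast
    ring

end Pool.Agent.Helper2.QP
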