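import Pool.Agent.Helper2.QP.Final
import Pool.Agent.Helper2.QP.Count2
import Pool.Agent.Helper2.QP.Super2
import Pool.Agent.Helper2.QP.Fekete2
import Pool.Agent.Helper2.QP.AnaWin

/-!
# QP-WORDS2: the main theorem for words, with the exact upper bound and the explicit windows
-/

set_option autoImplicit false

namespace Pool.Agent.Helper2.QP

open Filter Topology

theorem supermult_exact (q : ℝ) (hq0 : 0 < q) (hq1 : q ≤ 1) (m n : ℕ) (hm : 2 ≤ m) (hn : 2 ≤ n) :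
    ((m : ℝ) + n - 1) * (Zn (2 * m) q * Zn (2 * n) q) ≤ 4 * m * n * Zn (2 * (m + n - 1)) q := by
  have e1 := Zn_le_A q hq0 (2 * m) (by omega)
  have e2 := (Zn_le_A q hq0 (2 * n) (by omega)).trans
    (mul_le_mul_of_nonneg_left (sum_A_le_B q hq0 (2 * n)) (by positivity))
  have e3 := A_mul_B_exact q hq0 hq1 (2 * m) (2 * n) (by omega) (by omega)
  have h2 : 2 * m + 2 * n - 2 = 2 * (m + n - 1) := by omega
  rw [h2] at e3
  have h3 : ((2 * (m + n - 1) : ℕ) : ℝ) = 2 * ((m : ℝ) + n - 1) := by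
    push_cast [Nat.cast_sub (by omega : 1 ≤ m + n)]
    ring
  rw [h3] at e3
  have p1 := Zn_nonneg q hq0 (2 * n)
  have p2 : 0 ≤ ∑ l ∈ An (2 * m), q ^ area l := Finset.sum_nonneg fun _ _ => pow_nonneg hq0.le _
  have hm' : (2 : ℝ) ≤ m := by exact_mod_cast hm
  have hn' : (2 : ℝ) ≤ n := by exact_mod_cast hn
  push_cast at e1 e2
  have e4 : Zn (2 * m) q * Zn (2 * n) q ≤
      (2 * (2 * m) * ∑ l ∈ An (2 * m), q ^ area l) * (2 * (2 * n) * ∑ l ∈ Bn (2 * n), q ^ area l) :=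
    mul_le_mul e1 e2 p1 (by positivity)
  calc ((m : ℝ) + n - 1) * (Zn (2 * m) q * Zn (2 * n) q)
      ≤ ((m : ℝ) + n - 1) * ((2 * (2 * m) * ∑ l ∈ An (2 * m), q ^ area l) *
          (2 * (2 * n) * ∑ l ∈ Bn (2 * n), q ^ area l)) :=
        mul_le_mul_of_nonneg_left e4 (by linarith)
    _ = 4 * m * n * (2 * (2 * ((m : ℝ) + n - 1)) * ((∑ l ∈ An (2 * m), q ^ area l) *
          ∑ l ∈ Bn (2 * n), q ^ area l)) := by ring
    _ ≤ 4 * m * n * Zn (2 * (m + n - 1)) q := mul_le_mul_of_nonneg_left e3 (by positivity)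

theorem words_main2 (a b : ℝ) (ha : 0 < a) (hab : a ≤ b) (hb : b < 1) : ∃ K : ℝ, 1 ≤ K ∧
    ∀ q : ℝ, a ≤ q → q ≤ b →
    ∀ Λ : ℝ, Λ = limsup (fun m : ℕ => (Zn (2 * m) q) ^ ((1 : ℝ) / m)) atTop →
      0 < Λ ∧
      (∀ m : ℕ, 2 ≤ m → Real.exp (-K * (Real.log m) ^ 2) * Λ ^ m ≤ Zn (2 * m) q ∧
        Zn (2 * m) q ≤ 4 * (m : ℝ) * Λ ^ (m - 1)) ∧
      (∀ n : ℕ, 2 ≤ n → ∃ j : ℕ, 2 ≤ j ∧ n ≤ 4 * j ∧ j ≤ n ∧
        Λ ^ j ≤ K * (j : ℝ) ^ 2 * Zn (2 * j) q) := by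
  obtain ⟨K₁, hK₁, hmain⟩ := words_main a b ha hab hb
  obtain ⟨K₂, hK₂, hwin⟩ := ana_window a b ha hab hb
  refine ⟨K₁ + K₂, by linarith, fun q hq1 hq2 Λ hΛ => ?_⟩
  have hq0 : 0 < q := lt_of_lt_of_le ha hq1
  have hq3 : q < 1 := lt_of_le_of_lt hq2 hb
  obtain ⟨w1, w2, -⟩ := hmain q hq1 hq2 Λ hΛ
  have hup : ∀ m, Zn (2 * m) q ≤ 16 ^ m := by
    intro m
    have h1 := Zn_upper q hq0 hq3.le (2 * m)
    rw [pow_mul] at h1
    norm_num at h1
    exact h1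
  have hpos : ∀ m, 2 ≤ m → 0 < Zn (2 * m) q := fun m hm =>
    lt_of_lt_of_le (pow_pos hq0 _) (Zn_lower q hq0 m hm)
  have hf2 := fekete2 (fun m => Zn (2 * m) q) hpos (fun m => Zn_nonneg q hq0 _) hup
    (fun m n hm hn => supermult_exact q hq0 hq3.le m n hm hn)
  rw [← hΛ] at hf2
  refine ⟨w1, fun m hm => ⟨?_, hf2 m hm⟩, fun n hn => ?_⟩
  · refine le_trans ?_ (w2 m hm).1
    apply mul_le_mul_of_nonneg_right _ (pow_nonneg w1.le m)
    apply Real.exp_le_exp.2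
    nlinarith [sq_nonneg (Real.log (m : ℝ))]
  · have hwin' := hwin q hq1 hq2 (fun m => Zn (2 * m) q) (fun m hm => Zn_lower q hq0 m hm)
      (fun m => Zn_nonneg q hq0 _) hup ?_ ?_ Λ hΛ n hn
    · obtain ⟨j, h1, h2, h3, h4⟩ := hwin'
      refine ⟨j, h1, h2, h3, h4.trans ?_⟩
      apply mul_le_mul_of_nonneg_right _ (Zn_nonneg q hq0 _)
      nlinarith [sq_nonneg (j : ℝ)]
    · intro m n hm hn
      have h1 := supermult q hq0 hq3.le (2 * m) (2 * n) (by omega) (by omega)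
      have h2 : 2 * m + 2 * n - 2 = 2 * (m + n - 1) := by omega
      rw [h2] at h1
      refine h1.trans (le_of_eq ?_)
      push_cast
      ring
    · intro m hm
      obtain ⟨i, J, t₁, t₂, h1, h2, h3, h4, h5⟩ := counting2 q hq0 hq3 (2 * m) (by omega)
      have hposm := hpos m (by omega)
      have he1 : (i + t₁) % 2 = 0 := by
        by_contra h6
        have h7 : i + t₁ = 2 * ((i + t₁) / 2) + 1 := by omega
        rw [h7, Zn_odd] at h5
        simp at h5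
        linarith
      have he2 : (2 * m - i + t₂) % 2 = 0 := by
        by_contra h6
        have h7 : 2 * m - i + t₂ = 2 * ((2 * m - i + t₂) / 2) + 1 := by omega
        rw [h7, Zn_odd] at h5
        simp at h5
        linarith
      refine ⟨(i + t₁) / 2, (2 * m - i + t₂) / 2, J, by omega, by omega, by omega, by omega, ?_⟩
      have e1 : 2 * ((i + t₁) / 2) = i + t₁ := by omega
      have e2 : 2 * ((2 * m - i + t₂) / 2) = 2 * m - i + t₂ := by omega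
      show Zn (2 * m) q ≤ _ * (_ * Zn (2 * ((i + t₁) / 2)) q * Zn (2 * ((2 * m - i + t₂) / 2)) q)
      rw [e1, e2]
      refine h5.trans (le_of_eq ?_)
      push_cast
      ring

end Pool.Agent.Helper2.QP
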